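import Pool.Agent.H13.NA.Jtm
import Pool.Agent.H55.NA.Chn

/-!
# Closeness in the chain

`xc_gen`, `xj_gen`: the context of a sample is few bits given a datum which determines a near sample.
`ch_A`: the context of the samples of block `A` given the line of `om0` and the code of the time of
the general star. `ch_B`: the samples of block `B`, the first order of the general star given.
`ch_J`: the digits of all Taylor coefficients of the second sample of the general star.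
-/

set_option autoImplicit false

namespace Pool.NA13

open Finset Real MvPolynomial
open Pool.Agent.H49.Ent Pool.Agent.H32.Dense Pool.STK Pool.KA Pool.KSAT Pool.K2S Pool.PB Pool.GEN
open Pool.S6C Pool.RCD Pool.LA91 Pool.OWN68 Pool.CHT
open Pool.BFL (Pb)
open Pool.STB (Pb_mono Pb_or)
open Pool.V0F (cR mx_cR)
open Pool.CLU (cpn_law cpn_pos cpn_marg)
open Pool.NDC42 (hgC pcC x0 xn xg rP LbW)
open Pool.PB.Trl (rt rt_mem)
open Pool.AVG5 (jt jt_le jt_sub jt_sum of_fl fl_abs)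
open Pool.NA36 (vpC f1C f2C opl tcd tct jaC fbC jbC X0 rX rG NaE NaT opl_deg opl_cf cf_one fb_close
  fb_size)
open Pool.SL77 (tdg cpl cpl_deg cpl_coeff)
open Pool.NA55 (chn chn_law chn_pos chn_A1 chn_B1 chn_C1)

variable {m J : ℕ}

/-- The bound of the closeness, general constants. -/
noncomputable def e1G (D J : ℕ) (w t nt nc Kf Kp μ : ℝ) : ℝ :=
  (Real.log 2 + μ * Real.log (2 * (2 * (2 ^ ((nt - (t - w) + 1) * J) + 1)) + 1) +
    Real.log (2 * (2 * Kf) + 1)) +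
  (Real.log 2 + μ * Real.log (2 * (2 * (2 ^ (nc * J) * ((D + 2) * (2 ^ (1 * (J : ℝ)) + 1)) + 1)) + 1) +
    Real.log (2 * (2 * Kp) + 1))

/-- The bound of the closeness of the Taylor coefficients. -/
noncomputable def e1J (D J : ℕ) (n2 e μ : ℝ) : ℝ :=
  (D + 2) * (Real.log 2 + μ * Real.log (2 * (2 * (2 ^ (D + 2) * 2 ^ ((n2 + 1) * J) + 1)) + 1) +
    Real.log (2 * (2 * (2 ^ (D + 2) * 2 ^ (e * J) + (2 ^ (e * J) + 2 * ((D : ℝ) + 2) ^ 2 +
      2 ^ (D + 2)) + 1)) + 1))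

theorem e1G_mono (D J : ℕ) {w t nt nc Kf Kp μ Kf' Kp' μ' : ℝ} (h1 : 0 ≤ Kf) (h2 : 0 ≤ Kp)
    (hf : Kf ≤ Kf') (hp : Kp ≤ Kp') (hm : μ ≤ μ') :
    e1G D J w t nt nc Kf Kp μ ≤ e1G D J w t nt nc Kf' Kp' μ' := by
  unfold e1G
  have a1 : 0 ≤ Real.log (2 * (2 * ((2 : ℝ) ^ ((nt - (t - w) + 1) * J) + 1)) + 1) :=
    Real.log_nonneg (by
      have : (0 : ℝ) < 2 ^ ((nt - (t - w) + 1) * J) := Real.rpow_pos_of_pos (by norm_num) _
      linarith)
  have a2 : 0 ≤ Real.log (2 * (2 * ((2 : ℝ) ^ (nc * J) * ((D + 2) * (2 ^ (1 * (J : ℝ)) + 1)) + 1)) +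
      1) := Real.log_nonneg (by
        have : (0 : ℝ) ≤ 2 ^ (nc * J) * ((D + 2) * (2 ^ (1 * (J : ℝ)) + 1)) := by positivity
        linarith)
  have a3 : Real.log (2 * (2 * Kf) + 1) ≤ Real.log (2 * (2 * Kf') + 1) :=
    Real.log_le_log (by linarith) (by linarith)
  have a4 : Real.log (2 * (2 * Kp) + 1) ≤ Real.log (2 * (2 * Kp') + 1) :=
    Real.log_le_log (by linarith) (by linarith)
  have a5 := mul_le_mul_of_nonneg_right hm a1
  have a6 := mul_le_mul_of_nonneg_right hm a2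
  linarith

theorem e1J_nonneg (D J : ℕ) {n2 e μ : ℝ} (hμ : 0 ≤ μ) : 0 ≤ e1J D J n2 e μ := by
  unfold e1J
  have a1 : 0 ≤ Real.log (2 * (2 * ((2 : ℝ) ^ (D + 2) * 2 ^ ((n2 + 1) * J) + 1)) + 1) :=
    Real.log_nonneg (by
      have : (0 : ℝ) ≤ 2 ^ (D + 2) * 2 ^ ((n2 + 1) * J) := by positivity
      linarith)
  have a2 : 0 ≤ Real.log (2 * (2 * ((2 : ℝ) ^ (D + 2) * 2 ^ (e * J) + (2 ^ (e * J) +
      2 * ((D : ℝ) + 2) ^ 2 + 2 ^ (D + 2)) + 1)) + 1) := Real.log_nonneg (by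
        have : (0 : ℝ) ≤ 2 ^ (D + 2) * 2 ^ (e * J) + (2 ^ (e * J) +
          2 * ((D : ℝ) + 2) ^ 2 + 2 ^ (D + 2)) := by positivity
        linarith)
  have a3 : 0 ≤ Real.log 2 := Real.log_nonneg (by norm_num)
  have a4 := mul_nonneg hμ a1
  have hD : (0 : ℝ) ≤ D := Nat.cast_nonneg D
  exact mul_nonneg (by linarith) (by linarith)

/-- The digits of all Taylor coefficients and of the time, with the record of `w`. -/
noncomputable def xjC (F : Fam m J) (A : F.Ω → Prop) (c : ℕ → Fin m) (D : ℕ) (w t : ℝ) (n : ℕ → ℝ)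
    (nt s₀ : ℝ) (H : LnT F → ℕ → MvPolynomial (Option (Fin m)) ℝ) (ω : F.Ω) :=
  ((cR F A w ω, F.Z ω), (vpC F c D w n H ω, (tcd F w s₀ ω, jbC F c D w H (tct F w s₀) t nt ω)))

section

variable {F : Fam m J} {A : F.Ω → Prop} {c : ℕ → Fin m} {D : ℕ} {w : ℝ} {n : ℕ → ℝ}
  {H : LnT F → ℕ → MvPolynomial (Option (Fin m)) ℝ}

/-- **The context is few bits given a datum which determines a near sample**, general constants. -/
theorem xc_gen (hc : Pool.AJW.CfB F ⌊w * J⌋₊ 1 (c 2) A (fun x => x) (fun x => H x 2))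
    (hn2 : 0 ≤ n 2) {t nt s nc Kf Kp μ : ℝ} (hKf : 0 ≤ Kf) (hKp : 0 ≤ Kp) {Ω' Υ : Type} [Fintype Ω']
    {Q : Ω' → ℝ} (hQ : IsLaw Q)
    (v : Ω' → F.Ω) (r₁ r₂ : Ω' → ℤ) (Y : Ω' → Υ) (hv : ∀ W, 0 < Q W → A (v W))
    (hg : Det Q Y (fun W => g0C F A c D w n s H (v W))) (h₁ : Det Q Y r₁) (h₂ : Det Q Y r₂)
    (bad : Ω' → Prop) (hbad : Pb Q bad ≤ μ)
    (hnear : ∀ W, 0 < Q W → ¬ bad W →
      |((fbC F c w H t nt (v W) : ℝ)) - r₁ W| ≤ Kf ∧
      |((plC F c D w n s nc H (v W) : ℤ) : ℝ) - r₂ W| ≤ Kp) :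
    CH Q (fun W => xcC F A c D w t n nt s nc H (v W)) Y ≤ e1G D J w t nt nc Kf Kp μ := by
  have h0 := hQ.nonneg
  have k1 : CH Q (fun W => xcC F A c D w t n nt s nc H (v W)) Y ≤
      CH Q (fun W => g0C F A c D w n s H (v W)) Y +
        CH Q (fun W => (fbC F c w H t nt (v W), plC F c D w n s nc H (v W))) Y :=
    CH_subadd h0 _ _ _
  have k2 : CH Q (fun W => g0C F A c D w n s H (v W)) Y = 0 := CH_eq_zero h0 hg
  have k3 := CH_subadd h0 (fun W => fbC F c w H t nt (v W)) (fun W => plC F c D w n s nc H (v W)) Y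
  have k4 := near_few hQ (fun W => fbC F c w H t nt (v W)) r₁ Y h₁ bad
    (B := 2 ^ ((nt - (t - w) + 1) * J) + 1) (E := Kf) (by positivity) hKf
    (fun W hW => fb_size hc (hv W hW)) hbad fun W hW hb => (hnear W hW hb).1
  have k5 := near_few hQ (fun W => plC F c D w n s nc H (v W)) r₂ Y h₂ bad
    (B := 2 ^ (nc * J) * ((D + 2) * (2 ^ (1 * (J : ℝ)) + 1)) + 1) (E := Kp)
    (by positivity) hKp (fun W hW => pl_size hc hn2 (hv W hW)) hbad
    fun W hW hb => (hnear W hW hb).2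
  unfold e1G
  linarith

/-- The digits of all Taylor coefficients are few bits given a datum which determines a near
sample. -/
theorem xj_gen (hdeg : ∀ l ≤ 3, ∀ x, (H x l).totalDegree ≤ D)
    (hc : Pool.AJW.CfB F ⌊w * J⌋₊ 1 (c 2) A (fun x => x) (fun x => H x 2))
    {t nt s₀ e μ : ℝ} (hn : nt - (t - w) ≤ n 2) (htw : w ≤ t) {Ω' Υ : Type} [Fintype Ω']
    {Q : Ω' → ℝ} (hQ : IsLaw Q)
    (v : Ω' → F.Ω) (r : Ω' → ℕ → ℝ) (Y : Ω' → Υ) (hv : ∀ W, 0 < Q W → A (v W))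
    (hg : Det Q Y (fun W => ((cR F A w (v W), F.Z (v W)), (vpC F c D w n H (v W),
      tcd F w s₀ (v W)))))
    (hr : Det Q Y r) (bad : Ω' → Prop) (hbad : Pb Q bad ≤ μ)
    (hnear : ∀ W, 0 < Q W → ¬ bad W → ∀ a : ℕ, 1 ≤ a →
      2 ^ ((nt - (a : ℝ) * (t - w)) * J) * |jt (opl F c w H 2 (v W)) (tct F w s₀ (v W)) a - r W a| ≤
        2 ^ (D + 2) * 2 ^ (e * J) + (2 ^ (e * J) + 2 * ((D : ℝ) + 2) ^ 2 + 2 ^ (D + 2))) :
    CH Q (fun W => xjC F A c D w t n nt s₀ H (v W)) Y ≤ e1J D J (n 2) e μ := by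
  classical
  have h0 := hQ.nonneg
  have hμ : 0 ≤ μ := (Finset.sum_nonneg fun W _ => by
    split_ifs
    · exact h0 W
    · exact le_rfl : (0 : ℝ) ≤ Pb Q bad).trans hbad
  obtain ⟨E, hE⟩ : ∃ E : ℝ, E = 2 ^ (D + 2) * 2 ^ (e * J) + (2 ^ (e * J) + 2 * ((D : ℝ) + 2) ^ 2 +
    2 ^ (D + 2)) + 1 := ⟨_, rfl⟩
  obtain ⟨B, hB⟩ : ∃ B : ℝ, B = 2 ^ (D + 2) * 2 ^ ((n 2 + 1) * J) + 1 := ⟨_, rfl⟩
  have hE0 : 0 ≤ E := by rw [hE]; positivity
  have hB0 : 0 ≤ B := by rw [hB]; positivity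
  have k1 : CH Q (fun W => xjC F A c D w t n nt s₀ H (v W)) Y ≤
      CH Q (fun W => (((cR F A w (v W), F.Z (v W)), (vpC F c D w n H (v W),
        tcd F w s₀ (v W))), jbC F c D w H (tct F w s₀) t nt (v W))) Y :=
    CH_mono_left h0 fun W W' _ _ h => by
      have h1 := (Prod.ext_iff.1 h).1
      simp only [Prod.mk.injEq] at h1
      obtain ⟨⟨⟨a1, a2⟩, a3, a4⟩, a5⟩ := h1
      show xjC F A c D w t n nt s₀ H (v W) = xjC F A c D w t n nt s₀ H (v W')
      unfold xjC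
      rw [a1, a2, a3, a4, a5]
  have k1' := CH_subadd h0 (fun W => (((cR F A w (v W), F.Z (v W)), (vpC F c D w n H (v W),
        tcd F w s₀ (v W))))) (fun W => jbC F c D w H (tct F w s₀) t nt (v W)) Y
  have k2 : CH Q (fun W => ((cR F A w (v W), F.Z (v W)), (vpC F c D w n H (v W),
      tcd F w s₀ (v W)))) Y = 0 := CH_eq_zero h0 hg
  have k3 : CH Q (fun W (a : Fin (D + 1 + 1)) => jbC F c D w H (tct F w s₀) t nt (v W) a) Y ≤
      ∑ a : Fin (D + 1 + 1), CH Q (fun W => jbC F c D w H (tct F w s₀) t nt (v W) a) Y :=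
    Pool.KS3.CH_pi_le h0 _ Y
  have k4 : ∀ a : Fin (D + 1 + 1), CH Q (fun W => jbC F c D w H (tct F w s₀) t nt (v W) a) Y ≤
      Real.log 2 + μ * Real.log (2 * (2 * B) + 1) + Real.log (2 * (2 * E) + 1) := by
    intro a
    refine near_few hQ (fun W => jbC F c D w H (tct F w s₀) t nt (v W) a)
      (fun W => if 1 ≤ (a : ℕ) then ⌊(2 : ℝ) ^ ((nt - ((a : ℕ) : ℝ) * (t - w)) * J) * r W a⌋ else 0)
      Y (fun W W' hW hW' h => ?_) bad hB0 hE0 (fun W hW => ?_) hbad fun W hW hb => ?_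
    · have := hr W W' hW hW' h
      simp only
      rw [this]
    · unfold jbC jaC
      split_ifs with ha
      · have h1 := jt_size hdeg hc hn htw (tct_abs (w := w) s₀ (v W)) (hv W hW) ha
        have h2 := fl_abs ((2 : ℝ) ^ ((nt - ((a : ℕ) : ℝ) * (t - w)) * J) *
          jt (opl F c w H 2 (v W)) (tct F w s₀ (v W)) a) (0 : ℝ)
        rw [Int.floor_zero, sub_zero, abs_mul, abs_of_nonneg
          (Real.rpow_pos_of_pos (by norm_num) _).le] at h2
        rw [Int.cast_zero, sub_zero] at h2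
        rw [hB]
        linarith
      · rw [Int.cast_zero, abs_zero]
        exact hB0
    · unfold jbC jaC
      split_ifs with ha
      · have h1 := hnear W hW hb a ha
        have h2 := fl_abs ((2 : ℝ) ^ ((nt - ((a : ℕ) : ℝ) * (t - w)) * J) *
          jt (opl F c w H 2 (v W)) (tct F w s₀ (v W)) a)
          ((2 : ℝ) ^ ((nt - ((a : ℕ) : ℝ) * (t - w)) * J) * r W a)
        rw [← mul_sub, abs_mul, abs_of_nonneg (Real.rpow_pos_of_pos (by norm_num) _).le] at h2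
        rw [hE]
        linarith
      · rw [Int.cast_zero, sub_zero, abs_zero]
        exact hE0
  have k5 := k3.trans (Finset.sum_le_sum fun a _ => k4 a)
  rw [Finset.sum_const, Finset.card_univ, Fintype.card_fin, nsmul_eq_mul] at k5
  unfold e1J
  rw [← hE, ← hB]
  push_cast at k5
  have e1 : ((D : ℝ) + 1 + 1) = D + 2 := by ring
  rw [e1] at k5
  linarith

/-! ### Two samples on one line, or over one record of the parallel lines -/

/-- The first coefficient, from the code of the first order. -/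
theorem f1_coeff (ω : F.Ω) :
    (cpl (2 ^ (n 2 * (J : ℝ))) (f1C F c D w n H ω)).coeff 1 = (uPc F c D w n H ω).coeff 1 := by
  have h3 := cpl_coeff (2 ^ (n 2 * (J : ℝ))) (f1C F c D w n H ω) ⟨1, by omega⟩
  have h4 := cpl_coeff (2 ^ (n 2 * (J : ℝ))) (pcC F c D w H 2 0 (n 2) ω) ⟨1, by omega⟩
  simp only at h3 h4
  unfold uPc
  rw [h3, h4]
  unfold f1C pcC Pool.AVG71.cod
  dsimp only
  rw [if_pos le_rfl, if_pos (Nat.zero_le _)]

/-- Increments of the coded path are functions of the orders `≥ 1`. -/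
theorem f1_inc (ω : F.Ω) (x y : ℝ) :
    (uPc F c D w n H ω).eval x - (uPc F c D w n H ω).eval y =
      (cpl (2 ^ (n 2 * (J : ℝ))) (f1C F c D w n H ω)).eval x -
      (cpl (2 ^ (n 2 * (J : ℝ))) (f1C F c D w n H ω)).eval y := by
  obtain ⟨R, hR⟩ : ∃ R, R = uPc F c D w n H ω - cpl (2 ^ (n 2 * (J : ℝ))) (f1C F c D w n H ω) :=
    ⟨_, rfl⟩
  have h1 : R.natDegree ≤ 0 := by
    rw [Polynomial.natDegree_le_iff_coeff_eq_zero]
    intro N hN
    rw [hR, Polynomial.coeff_sub]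
    rcases Nat.lt_or_ge (D + 1) N with h1 | h1
    · rw [Polynomial.coeff_eq_zero_of_natDegree_lt ((uPc_deg ω).trans_lt h1),
        Polynomial.coeff_eq_zero_of_natDegree_lt ((cpl_deg _ _).trans_lt h1), sub_zero]
    · have h3 := cpl_coeff (2 ^ (n 2 * (J : ℝ))) (f1C F c D w n H ω) ⟨N, by omega⟩
      have h4 := cpl_coeff (2 ^ (n 2 * (J : ℝ))) (pcC F c D w H 2 0 (n 2) ω) ⟨N, by omega⟩
      simp only at h3 h4
      unfold uPc
      rw [h3, h4]
      unfold f1C pcC Pool.AVG71.cod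
      dsimp only
      rw [if_pos (show 1 ≤ N from hN), if_pos (Nat.zero_le _), sub_self]
  have h2 : ∀ z, R.eval z = R.coeff 0 := fun z => by
    rw [Polynomial.eq_C_of_natDegree_le_zero h1, Polynomial.eval_C, Polynomial.coeff_C_zero]
  have h3 : uPc F c D w n H ω = cpl (2 ^ (n 2 * (J : ℝ))) (f1C F c D w n H ω) + R := by
    rw [hR]
    ring
  rw [h3, Polynomial.eval_add, Polynomial.eval_add, h2, h2]
  ring

/-- The natural digits of the first coefficient, from the code of the first order. -/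
theorem fb_f1 {t nt : ℝ} (hn : nt - (t - w) ≤ n 2) (ω : F.Ω) :
    |((fbC F c w H t nt ω : ℝ)) - (⌊(2 : ℝ) ^ ((nt - (t - w)) * J) *
      (cpl (2 ^ (n 2 * (J : ℝ))) (f1C F c D w n H ω)).coeff 1⌋ : ℤ)| ≤ 2 := by
  have hJ0 : (0 : ℝ) ≤ J := Nat.cast_nonneg J
  have hn0 : (0 : ℝ) < 2 ^ (n 2 * J) := Real.rpow_pos_of_pos (by norm_num) _
  have hp : (0 : ℝ) ≤ 2 ^ ((nt - (t - w)) * J) := (Real.rpow_pos_of_pos (by norm_num) _).le
  have hcn : (2 : ℝ) ^ ((nt - (t - w)) * J) * (1 / 2 ^ (n 2 * J)) ≤ 1 := by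
    rw [mul_one_div, div_le_one hn0]
    exact Real.rpow_le_rpow_of_exponent_le (by norm_num) (mul_le_mul_of_nonneg_right hn hJ0)
  have h1 := uPc_cf (F := F) (c := c) (D := D) (w := w) (n := n) (H := H) ω (i := 1) (by omega)
  rw [← f1_coeff, abs_sub_comm] at h1
  have h2 := fl_abs ((2 : ℝ) ^ ((nt - (t - w)) * J) * (opl F c w H 2 ω).coeff 1)
    ((2 : ℝ) ^ ((nt - (t - w)) * J) * (cpl (2 ^ (n 2 * (J : ℝ))) (f1C F c D w n H ω)).coeff 1)
  rw [← mul_sub, abs_mul, abs_of_nonneg hp] at h2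
  have h3 := mul_le_mul_of_nonneg_left h1 hp
  unfold fbC
  linarith

/-- Two coarse times of one sample. -/
theorem tct_two {s s₀ : ℝ} (hs : s ≤ s₀) (ω : F.Ω) :
    |tct F w s₀ ω - tct F w s ω| ≤ 1 / 2 ^ (s * J) := by
  have hJ0 : (0 : ℝ) ≤ J := Nat.cast_nonneg J
  have h1 := tct_near (F := F) (w := w) s ω
  have h2 := tct_near (F := F) (w := w) s₀ ω
  have h3 : (1 : ℝ) / 2 ^ (s₀ * J) ≤ 1 / 2 ^ (s * J) :=
    one_div_le_one_div_of_le (Real.rpow_pos_of_pos (by norm_num) _)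
      (Real.rpow_le_rpow_of_exponent_le (by norm_num) (mul_le_mul_of_nonneg_right hs hJ0))
  rw [abs_le]
  constructor <;> linarith [h1.1, h1.2.1, h2.1, h2.2.1]

end

end Pool.NA13
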