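import Pool.Agent.H13.NA.Chc

/-!
# Closeness in the chain, the three blocks

`ch_A`: the context of the samples of block `A` given the line of `om0`. `ch_B`: the samples of block
`B` given the line of `om0`, the code of the time of the general star and the first order of its
second sample. `ch_J`: the digits of all Taylor coefficients of the second sample of the general star.
-/

set_option autoImplicit false

namespace Pool.NA13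

open Finset Real MvPolynomial
open Pool.Agent.H49.Ent Pool.Agent.H32.Dense Pool.STK Pool.KA Pool.KSAT Pool.K2S Pool.PB Pool.GEN
open Pool.S6C Pool.RCD Pool.LA91 Pool.OWN68 Pool.CHT
open Pool.BFL (Pb)
open Pool.STB (Pb_mono Pb_or)
open Pool.V0F (cR mx_cR)
open Pool.CLU (cpn_law cpn_pos cpn_marg)
open Pool.NDC42 (hgC pcC x0 xn xg rP LbW)
open Pool.PB.Trl (rt rt_mem)
open Pool.AVG5 (jt jt_le jt_sub jt_sum of_fl fl_abs)
open Pool.NA36 (vpC f1C f2C opl tcd tct jaC fbC jbC X0 rX rG NaE NaT opl_deg opl_cf cf_one fb_close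
  fb_size)
open Pool.SL77 (tdg cpl cpl_deg cpl_coeff)
open Pool.NA55 (chn chn_law chn_pos chn_A1 chn_B1 chn_C1)

variable {m J : ℕ}

section

variable {F : Fam m J} {A : F.Ω → Prop} {c : ℕ → Fin m} {D : ℕ} {w : ℝ} {n : ℕ → ℝ}
  {H : LnT F → ℕ → MvPolynomial (Option (Fin m)) ℝ}

/-- The law of the chain, concrete records. -/
noncomputable abbrev chQ (F : Fam m J) (A : F.Ω → Prop) (c : ℕ → Fin m) (D : ℕ) (w : ℝ) (n : ℕ → ℝ)
    (t nt s nc t' : ℝ) (H : LnT F → ℕ → MvPolynomial (Option (Fin m)) ℝ) (N : ℕ) :=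
  chn (Pool.Agent.H49.Ent.cond F.p A True) (rX F A c D w t t n nt H) (rG F A c D w t t n nt H)
    (zrC F A c D w n t' nc H) (slam F ⌊w * J⌋₊) (tct F w s) N

/-- The data which are the same along the chain. -/
theorem ch_base (hA : 0 < Pe F.p A) {t nt s nc t' : ℝ} {N : ℕ}
    {W : ((Fin (N + 1) → Fin 2 → F.Ω) × (Fin 2 → F.Ω)) × (Fin (N + 1) → Fin 2 → F.Ω)}
    (hW : 0 < chQ F A c D w n t nt s nc t' H N W) :
    (cR F A w (W.1.2 1) = cR F A w (W.1.1 0 0) ∧ F.Z (W.1.2 1) = F.Z (W.1.1 0 0) ∧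
      vpC F c D w n H (W.1.2 1) = vpC F c D w n H (W.1.1 0 0) ∧
      tct F w s (W.1.2 1) = tct F w s (W.1.1 0 0)) ∧
    F.T (W.1.2 1) = F.T (W.1.2 0) ∧
    (A (W.1.1 0 0) ∧ A (W.1.1 0 1) ∧ A (W.1.2 0) ∧ A (W.1.2 1) ∧ A (W.2 0 0) ∧ A (W.2 0 1)) ∧
    tct F w s (W.1.1 0 1) = tct F w s (W.1.2 0) := by
  have hcl := isLaw_cond F.isLaw hA
  obtain ⟨⟨a1, a2, a3⟩, ⟨b1, -⟩, b2, ⟨b3, -⟩, ⟨b4, b5⟩, ⟨b6, b7⟩⟩ :=
    chn_pos hcl _ _ _ _ _ N hW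
  have s1 := fun j k => of_cond_pos (a1 j k)
  have s2 := fun k => of_cond_pos (a2 k)
  have s3 := fun j k => of_cond_pos (a3 j k)
  obtain ⟨x1, x2, x3, -, -, -, -, -⟩ := rX_part (b1 0)
  obtain ⟨y1, y2, y3, -, -, -, -⟩ := rG_part b2
  have z1 : F.Z (W.1.1 0 1) = F.Z (W.1.1 0 0) := (Prod.ext_iff.1 x2).2
  have z2 : F.Z (W.1.2 1) = F.Z (W.1.2 0) := (Prod.ext_iff.1 y2).2
  have c1 := cR_slam hA (s1 0 1) (s2 0) b4
  have c2 := Z_slam b4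
  have c3 := vp_slam (c := c) (D := D) (n := n) (H := H) b4
  refine ⟨⟨?_, ?_, ?_, ?_⟩, T_of_W y2, ⟨s1 0 0, s1 0 1, s2 0, s2 1, s3 0 0, s3 0 1⟩, b5⟩
  · rw [y1, ← c1, x1]
  · rw [z2, ← c2, z1]
  · rw [y3, ← c3, x3]
  · have k1 : tct F w s (W.1.2 1) = tct F w s (W.1.2 0) := tct_of_T (T_of_W y2)
    have k2 : tct F w s (W.1.1 0 1) = tct F w s (W.1.1 0 0) := tct_of_T (T_of_W x2)
    rw [k1, ← b5, k2]

/-- **Block `A`.** -/
theorem ch_A (hdeg : ∀ l ≤ 3, ∀ x, (H x l).totalDegree ≤ D) (hWJ : ⌊w * J⌋₊ ≤ J)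
    (hA : 0 < Pe F.p A)
    (hc : Pool.AJW.CfB F ⌊w * J⌋₊ 1 (c 2) A (fun x => x) (fun x => H x 2)) (hn2 : 0 ≤ n 2)
    {t nt s nc t' e ε δ : ℝ} (hn : nt - (t - w) ≤ n 2) (hs : 0 ≤ s) (hnc : nc ≤ n 2)
    (hx : nc ≤ nt - (t - w) + s + ε) {gd : F.Ω → Prop} (hgd : GdP F A c D w t n nt e δ H gd)
    (N : ℕ) {κ : Type}
    (cc : (((Fin (N + 1) → Fin 2 → F.Ω) × (Fin 2 → F.Ω)) × (Fin (N + 1) → Fin 2 → F.Ω)) → κ)
    (v : (((Fin (N + 1) → Fin 2 → F.Ω) × (Fin 2 → F.Ω)) × (Fin (N + 1) → Fin 2 → F.Ω)) → F.Ω)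
    (hv : ∃ j, v = fun W => W.1.1 j 1) :
    CH (chQ F A c D w n t nt s nc t' H N)
      (fun W => xcC F A c D w t n nt s nc H (v W))
      (fun W => (cc W, (slam F ⌊w * J⌋₊ (W.1.1 0 0), tct F w s (W.1.1 0 0)))) ≤
      e1G D J w t nt nc (eKf D J e) (eKp D J (e + ε)) (2 * δ) := by
  classical
  have hcl := isLaw_cond F.isLaw hA
  obtain ⟨Q, hQd⟩ : ∃ Q, Q = chQ F A c D w n t nt s nc t' H N := ⟨_, rfl⟩
  have hQ : IsLaw Q := by rw [hQd]; exact chn_law hcl _ _ _ _ _ N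
  have hpos : ∀ W, 0 < Q W → _ := fun W hW =>
    chn_pos hcl _ _ _ _ _ N (by rw [hQd] at hW; exact hW)
  have hgd1 := hgd.1
  have hone : ∀ j k, Pb Q (fun W => ¬ gd (W.1.1 j k)) ≤ δ := fun j k => by
    rw [hQd]
    exact (Pool.MIC.Marg.Pb_eq (chn_A1 hcl _ _ _ _ _ N j k) (fun ω => ¬ gd ω)).le.trans hgd1
  obtain ⟨j, rfl⟩ := hv
  rw [← hQd]
  refine xc_gen hc hn2 (eKf_pos _ _ _) (eKp_pos _ _ _) hQ _ (fun W => fbC F c w H t nt (W.1.1 0 0))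
    (fun W => plC F c D w n s nc H (W.1.1 0 0)) _ (fun W hW => ?_) ?_ ?_ ?_
    (fun W => ¬ gd (W.1.1 0 0) ∨ ¬ gd (W.1.1 0 1)) ?_ ?_
  · exact of_cond_pos ((hpos W hW).1.1 j 1)
  · have key : ∀ W, 0 < Q W → g0C F A c D w n s H (W.1.1 j 1) = g0C F A c D w n s H (W.1.1 0 0) := by
      intro W hW
      obtain ⟨-, ⟨g2, g3⟩, -⟩ := hpos W hW
      exact (g0_zr (s := s) (g3 j)).trans (g0_zp (s := s) (g2 0))
    intro W W' hW hW' h
    have h' := Prod.ext_iff.1 (Prod.ext_iff.1 h).2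
    show g0C F A c D w n s H (W.1.1 j 1) = g0C F A c D w n s H (W'.1.1 j 1)
    rw [key W hW, key W' hW']
    exact g0_slam hA (of_cond_pos ((hpos W hW).1.1 0 0)) (of_cond_pos ((hpos W' hW').1.1 0 0))
      h'.1 h'.2
  · exact fun W W' _ _ h => fb_slam (Prod.ext_iff.1 (Prod.ext_iff.1 h).2).1
  · exact fun W W' _ _ h => pl_slam (Prod.ext_iff.1 (Prod.ext_iff.1 h).2).1
      (Prod.ext_iff.1 (Prod.ext_iff.1 h).2).2
  · have b1 := (Pb_or hQ.nonneg (fun W => ¬ gd (W.1.1 0 0)) (fun W => ¬ gd (W.1.1 0 1))).trans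
      (add_le_add (hone 0 0) (hone 0 1))
    linarith
  · intro W hW hb
    obtain ⟨⟨g1, -, -⟩, ⟨g2, g3⟩, -⟩ := hpos W hW
    push Not at hb
    obtain ⟨b1, b2⟩ := hb
    have a1 := pair_rX hdeg hWJ hn hs hnc hx hgd (of_cond_pos (g1 0 1)) (of_cond_pos (g1 0 0)) b2 b1
      (g2 0)
    obtain ⟨z1, z2, z3, z4, z5, z6⟩ := zr_part (g3 j)
    have a2 := pair_zr (t := t) (nt := nt) (s := s) hn hnc (T_of_W z2) z5 z6
    have k1 := eKf_ge D J e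
    have k2 := eKp_ge D J (e + ε)
    obtain ⟨c1, c2⟩ := a1
    obtain ⟨d1, d2⟩ := a2
    rw [abs_le] at c1 c2 d1 d2
    constructor <;> rw [abs_le] <;> constructor <;>
      linarith [c1.1, c1.2, c2.1, c2.2, d1.1, d1.2, d2.1, d2.2]

/-- **The place of the second sample of the general star** from the line of `om0`, the time of the
general star and the orders `≥ 1`. -/
theorem pl_ref (hdeg : ∀ l ≤ 3, ∀ x, (H x l).totalDegree ≤ D) (hWJ : ⌊w * J⌋₊ ≤ J)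
    (hA : 0 < Pe F.p A)
    {t nt s s₀ nc t' e ε δ : ℝ} (hs : 0 ≤ s) (hs0 : s ≤ s₀) (hts : t - w ≤ s₀) (hnc : nc ≤ n 2)
    (hx : nc ≤ nt - (t - w) + s + ε) {gd : F.Ω → Prop} (hgd : GdP F A c D w t n nt e δ H gd)
    {N : ℕ} {W : ((Fin (N + 1) → Fin 2 → F.Ω) × (Fin 2 → F.Ω)) × (Fin (N + 1) → Fin 2 → F.Ω)}
    (hW : 0 < chQ F A c D w n t nt s nc t' H N W)
    (h00 : gd (W.1.1 0 0)) (h01 : gd (W.1.1 0 1)) (h10 : gd (W.1.2 0)) (h11 : gd (W.1.2 1)) :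
    |((plC F c D w n s nc H (W.1.2 1) : ℤ) : ℝ) - (⌊(2 : ℝ) ^ (nc * J) *
      ((uPc F c D w n H (W.1.1 0 0)).eval (tct F w s₀ (W.1.2 0)) +
        ((cpl (2 ^ (n 2 * (J : ℝ))) (f1C F c D w n H (W.1.2 1))).eval (tct F w s (W.1.1 0 0)) -
          (cpl (2 ^ (n 2 * (J : ℝ))) (f1C F c D w n H (W.1.2 1))).eval (tct F w s₀ (W.1.2 0))))⌋ : ℤ)|
      ≤ (D + 3) * 2 ^ ((e + ε) * J) + 8 * ((D : ℝ) + 2) ^ 2 + (2 * D + 6) := by
  have hJ0 : (0 : ℝ) ≤ J := Nat.cast_nonneg J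
  have hD0 : (0 : ℝ) ≤ D := Nat.cast_nonneg D
  have hcl := isLaw_cond F.isLaw hA
  obtain ⟨-, ⟨b1, -⟩, b2, -, ⟨b4, b5⟩, -⟩ := chn_pos hcl _ _ _ _ _ N hW
  obtain ⟨⟨-, -, -, q4⟩, qT, ⟨s1, s2, s3, s4, -, -⟩, -⟩ := ch_base hA hW
  obtain ⟨x1, x2, x3, x4, x5, x6, x7, x8⟩ := rX_part (b1 0)
  obtain ⟨y1, y2, y3, y4, y5, y6, y7⟩ := rG_part b2
  have hn0 : (0 : ℝ) < 2 ^ (n 2 * J) := Real.rpow_pos_of_pos (by norm_num) _
  have hc0 : (0 : ℝ) < 2 ^ (nc * J) := Real.rpow_pos_of_pos (by norm_num) _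
  have hcn : (2 : ℝ) ^ (nc * J) * (1 / 2 ^ (n 2 * J)) ≤ 1 := by
    rw [mul_one_div, div_le_one hn0]
    exact Real.rpow_le_rpow_of_exponent_le (by norm_num) (mul_le_mul_of_nonneg_right hnc hJ0)
  obtain ⟨x, hxd⟩ : ∃ x, x = tct F w s₀ (W.1.2 0) := ⟨_, rfl⟩
  have hx1 : tct F w s₀ (W.1.2 1) = x := by rw [hxd]; exact tct_of_T qT
  have hxa : |x| ≤ 1 := by rw [hxd]; exact tct_abs s₀ _
  -- the general star
  have n1 := tct_near (F := F) (w := w) s₀ (W.1.2 1)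
  rw [hx1] at n1
  have g1 := gen_at (c := c) (D := D) (w := w) (n := n) hdeg hWJ (T_of_W y2) y6 (t := t) (nt := nt)
    (e := e) (x := x) (r := 1 / 2 ^ (s₀ * J)) hxa
    (by rw [abs_le]; constructor <;> linarith [n1.1, n1.2.1])
    (by
      rw [mul_one_div, div_le_one (by positivity)]
      exact Real.rpow_le_rpow_of_exponent_le (by norm_num) (mul_le_mul_of_nonneg_right hts hJ0))
    (hgd.2 _ _ s4 s3 h11 h10 b2)
  have g2 : (2 : ℝ) ^ (nc * J) * |(uPc F c D w n H (W.1.2 1) - uPc F c D w n H (W.1.2 0)).eval x| ≤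
      (2 * D + 5) + (D + 1) * 2 ^ ((e + ε) * J) := by
    refine (mul_le_mul_of_nonneg_left g1 hc0.le).trans ?_
    have k1 : (2 : ℝ) ^ (nc * J) * ((2 * D + 5) * (1 / 2 ^ (n 2 * J))) ≤ (2 * D + 5) * 1 := by
      calc (2 : ℝ) ^ (nc * J) * ((2 * D + 5) * (1 / 2 ^ (n 2 * J))) =
          (2 * D + 5) * (2 ^ (nc * J) * (1 / 2 ^ (n 2 * J))) := by ring
        _ ≤ _ := mul_le_mul_of_nonneg_left hcn (by positivity)
    have k2 : (2 : ℝ) ^ (nc * J) * (2 ^ (-((nt - e) * J)) * (2 ^ ((t - w) * J) *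
        (1 / 2 ^ (s₀ * J)))) ≤ 2 ^ ((e + ε) * J) := by
      rw [one_div, ← Real.rpow_neg (by norm_num), ← Real.rpow_add (by norm_num),
        ← Real.rpow_add (by norm_num), ← Real.rpow_add (by norm_num)]
      refine Real.rpow_le_rpow_of_exponent_le (by norm_num) ?_
      have : (nc - nt + e + (t - w) - s₀) * J ≤ (e + ε) * J :=
        mul_le_mul_of_nonneg_right (by linarith) hJ0
      linarith
    have k3 : (2 : ℝ) ^ (nc * J) * ((D + 1) * (2 ^ (-((nt - e) * J)) * (2 ^ ((t - w) * J) *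
        (1 / 2 ^ (s₀ * J))))) ≤ (D + 1) * 2 ^ ((e + ε) * J) := by
      calc (2 : ℝ) ^ (nc * J) * ((D + 1) * (2 ^ (-((nt - e) * J)) * (2 ^ ((t - w) * J) *
          (1 / 2 ^ (s₀ * J))))) = (D + 1) * (2 ^ (nc * J) * (2 ^ (-((nt - e) * J)) *
            (2 ^ ((t - w) * J) * (1 / 2 ^ (s₀ * J))))) := by ring
        _ ≤ _ := mul_le_mul_of_nonneg_left k2 (by positivity)
    rw [mul_add]
    linarith
  -- the star of block `A`
  have n2 := tct_near (F := F) (w := w) s (W.1.1 0 1)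
  have n3 := tct_two (F := F) (w := w) hs0 (W.1.2 0)
  rw [← hxd, ← b5] at n3
  have j1 := hgd.2 _ _ s2 s1 h01 h00 (rG_rX (b1 0)) 1
  rw [Nat.cast_one, one_mul] at j1
  have g3 := star_at (c := c) (D := D) (w := w) (n := n) hdeg hWJ (T_of_W x2) x7 x4 hs hnc (x := x)
    (g := nt - (t - w) - e) (ε := e + ε)
    (by
      rw [abs_le] at n3 ⊢
      constructor <;> linarith [n2.1, n2.2.1, n3.1, n3.2])
    j1 (by linarith)
  have hu : uPc F c D w n H (W.1.1 0 1) = uPc F c D w n H (W.1.2 0) := uPc_slam b4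
  rw [hu] at g3
  have hinc := f1_inc (F := F) (c := c) (D := D) (w := w) (n := n) (H := H) (W.1.2 1)
    (tct F w s (W.1.1 0 0)) x
  unfold plC
  rw [q4, ← hxd]
  have f1 := fl_abs ((2 : ℝ) ^ (nc * J) * (uPc F c D w n H (W.1.2 1)).eval (tct F w s (W.1.1 0 0)))
    ((2 : ℝ) ^ (nc * J) * ((uPc F c D w n H (W.1.1 0 0)).eval x +
        ((cpl (2 ^ (n 2 * (J : ℝ))) (f1C F c D w n H (W.1.2 1))).eval (tct F w s (W.1.1 0 0)) -
          (cpl (2 ^ (n 2 * (J : ℝ))) (f1C F c D w n H (W.1.2 1))).eval x)))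
  refine f1.trans ?_
  rw [← hinc, ← mul_sub, abs_mul, abs_of_pos hc0]
  have e1 : (uPc F c D w n H (W.1.2 1)).eval (tct F w s (W.1.1 0 0)) -
      ((uPc F c D w n H (W.1.1 0 0)).eval x + ((uPc F c D w n H (W.1.2 1)).eval
        (tct F w s (W.1.1 0 0)) - (uPc F c D w n H (W.1.2 1)).eval x)) =
      (uPc F c D w n H (W.1.2 1) - uPc F c D w n H (W.1.2 0)).eval x +
      (uPc F c D w n H (W.1.2 0) - uPc F c D w n H (W.1.1 0 0)).eval x := by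
    rw [Polynomial.eval_sub, Polynomial.eval_sub]
    ring
  rw [e1]
  have f2 := mul_le_mul_of_nonneg_left (abs_add_le
    ((uPc F c D w n H (W.1.2 1) - uPc F c D w n H (W.1.2 0)).eval x)
    ((uPc F c D w n H (W.1.2 0) - uPc F c D w n H (W.1.1 0 0)).eval x)) hc0.le
  rw [mul_add] at f2
  linarith

/-- **Block `B`.** -/
theorem ch_B (hdeg : ∀ l ≤ 3, ∀ x, (H x l).totalDegree ≤ D) (hWJ : ⌊w * J⌋₊ ≤ J)
    (hA : 0 < Pe F.p A)
    (hc : Pool.AJW.CfB F ⌊w * J⌋₊ 1 (c 2) A (fun x => x) (fun x => H x 2)) (hn2 : 0 ≤ n 2)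
    {t nt s s₀ nc t' e ε δ : ℝ} (hn : nt - (t - w) ≤ n 2) (hs : 0 ≤ s) (hs0 : s ≤ s₀)
    (hts : t - w ≤ s₀) (hnc : nc ≤ n 2)
    (hx : nc ≤ nt - (t - w) + s + ε) {gd : F.Ω → Prop} (hgd : GdP F A c D w t n nt e δ H gd)
    (N : ℕ)
    (v : (((Fin (N + 1) → Fin 2 → F.Ω) × (Fin 2 → F.Ω)) × (Fin (N + 1) → Fin 2 → F.Ω)) → F.Ω)
    (hv : v = (fun W => W.2 0 0) ∨ ∃ j, v = fun W => W.2 j 1) :
    CH (chQ F A c D w n t nt s nc t' H N)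
      (fun W => xcC F A c D w t n nt s nc H (v W))
      (fun W => (f1C F c D w n H (W.1.2 1), (tct F w s₀ (W.1.2 0),
        (slam F ⌊w * J⌋₊ (W.1.1 0 0), tct F w s (W.1.1 0 0))))) ≤
      e1G D J w t nt nc (eKf D J e) ((D + 4) * eKp D J (e + ε)) (6 * δ) := by
  classical
  have hD0 : (0 : ℝ) ≤ D := Nat.cast_nonneg D
  have hcl := isLaw_cond F.isLaw hA
  obtain ⟨Q, hQd⟩ : ∃ Q, Q = chQ F A c D w n t nt s nc t' H N := ⟨_, rfl⟩
  have hQ : IsLaw Q := by rw [hQd]; exact chn_law hcl _ _ _ _ _ N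
  have hQp : ∀ W, 0 < Q W → 0 < chQ F A c D w n t nt s nc t' H N W := fun W hW => by
    rw [hQd] at hW; exact hW
  have hpos : ∀ W, 0 < Q W → _ := fun W hW => chn_pos hcl _ _ _ _ _ N (hQp W hW)
  have hgd1 := hgd.1
  have h1A : ∀ j k, Pb Q (fun W => ¬ gd (W.1.1 j k)) ≤ δ := fun j k => by
    rw [hQd]
    exact (Pool.MIC.Marg.Pb_eq (chn_A1 hcl _ _ _ _ _ N j k) (fun ω => ¬ gd ω)).le.trans hgd1
  have h1B : ∀ j k, Pb Q (fun W => ¬ gd (W.2 j k)) ≤ δ := fun j k => by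
    rw [hQd]
    exact (Pool.MIC.Marg.Pb_eq (chn_B1 hcl _ _ _ _ _ N j k) (fun ω => ¬ gd ω)).le.trans hgd1
  have h1C : ∀ k, Pb Q (fun W => ¬ gd (W.1.2 k)) ≤ δ := fun k => by
    rw [hQd]
    exact (Pool.MIC.Marg.Pb_eq (chn_C1 hcl _ _ _ _ _ N k) (fun ω => ¬ gd ω)).le.trans hgd1
  -- the fixed part
  have hg3 : ∀ W, 0 < Q W → g0C F A c D w n s H (v W) = ((cR F A w (W.1.1 0 0), F.Z (W.1.1 0 0)),
      (vpC F c D w n H (W.1.1 0 0), (f2C F c D w n H (W.1.2 1), tcd F w s (W.1.1 0 0)))) := by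
    intro W hW
    obtain ⟨⟨-, a2, a3⟩, -, -, ⟨b3, b4⟩, -, ⟨b6, b7⟩⟩ := hpos W hW
    obtain ⟨⟨q1, q2, q3, q4⟩, -, -, -⟩ := ch_base hA (hQp W hW)
    have k1 : g0C F A c D w n s H (v W) = g0C F A c D w n s H (W.2 0 1) := by
      rcases hv with rfl | ⟨j, rfl⟩
      · exact (g0_zp (s := s) (b3 0)).symm
      · exact g0_zr (s := s) (b4 j)
    have k2 := g0_slam (c := c) (D := D) (n := n) (H := H) hA (of_cond_pos (a2 1))
      (of_cond_pos (a3 0 1)) b6 b7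
    rw [k1, ← k2]
    unfold g0C
    rw [q1, q2, q3, tcd_of_tct q4]
  rw [← hQd]
  refine xc_gen hc hn2 (eKf_pos _ _ _) (mul_nonneg (by linarith) (eKp_pos _ _ _)) hQ _
    (fun W => ⌊(2 : ℝ) ^ ((nt - (t - w)) * J) *
      (cpl (2 ^ (n 2 * (J : ℝ))) (f1C F c D w n H (W.1.2 1))).coeff 1⌋)
    (fun W => ⌊(2 : ℝ) ^ (nc * J) *
      ((uPc F c D w n H (W.1.1 0 0)).eval (tct F w s₀ (W.1.2 0)) +
        ((cpl (2 ^ (n 2 * (J : ℝ))) (f1C F c D w n H (W.1.2 1))).eval (tct F w s (W.1.1 0 0)) -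
          (cpl (2 ^ (n 2 * (J : ℝ))) (f1C F c D w n H (W.1.2 1))).eval
            (tct F w s₀ (W.1.2 0))))⌋) _ (fun W hW => ?_) ?_ ?_ ?_
    (fun W => ¬ gd (W.1.1 0 0) ∨ (¬ gd (W.1.1 0 1) ∨ (¬ gd (W.1.2 0) ∨ (¬ gd (W.1.2 1) ∨
      (¬ gd (W.2 0 0) ∨ ¬ gd (W.2 0 1)))))) ?_ ?_
  · obtain ⟨⟨-, -, a3⟩, -⟩ := hpos W hW
    rcases hv with rfl | ⟨j, rfl⟩
    · exact of_cond_pos (a3 0 0)
    · exact of_cond_pos (a3 j 1)
  · intro W W' hW hW' h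
    obtain ⟨e1, e2⟩ := Prod.ext_iff.1 h
    have e3 := Prod.ext_iff.1 (Prod.ext_iff.1 e2).2
    have e1' : f1C F c D w n H (W.1.2 1) = f1C F c D w n H (W'.1.2 1) := e1
    have e3' : slam F ⌊w * J⌋₊ (W.1.1 0 0) = slam F ⌊w * J⌋₊ (W'.1.1 0 0) := e3.1
    have e4' : tct F w s (W.1.1 0 0) = tct F w s (W'.1.1 0 0) := e3.2
    show g0C F A c D w n s H (v W) = g0C F A c D w n s H (v W')
    rw [hg3 W hW, hg3 W' hW', f2_of_f1 e1', tcd_of_tct e4', Z_slam e3',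
      vp_slam (c := c) (D := D) (n := n) (H := H) e3',
      cR_slam hA (of_cond_pos ((hpos W hW).1.1 0 0)) (of_cond_pos ((hpos W' hW').1.1 0 0)) e3']
  · intro W W' _ _ h
    have e1' : f1C F c D w n H (W.1.2 1) = f1C F c D w n H (W'.1.2 1) := (Prod.ext_iff.1 h).1
    simp only
    rw [e1']
  · intro W W' _ _ h
    obtain ⟨e1, e2⟩ := Prod.ext_iff.1 h
    obtain ⟨e3, e4⟩ := Prod.ext_iff.1 e2
    have e1' : f1C F c D w n H (W.1.2 1) = f1C F c D w n H (W'.1.2 1) := e1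
    have e3' : tct F w s₀ (W.1.2 0) = tct F w s₀ (W'.1.2 0) := e3
    have e4' : slam F ⌊w * J⌋₊ (W.1.1 0 0) = slam F ⌊w * J⌋₊ (W'.1.1 0 0) := (Prod.ext_iff.1 e4).1
    have e5' : tct F w s (W.1.1 0 0) = tct F w s (W'.1.1 0 0) := (Prod.ext_iff.1 e4).2
    simp only
    rw [e1', e3', e5', uPc_slam e4']
  · have b5 := (Pb_or hQ.nonneg (fun W => ¬ gd (W.2 0 0)) (fun W => ¬ gd (W.2 0 1))).trans
      (add_le_add (h1B 0 0) (h1B 0 1))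
    have b4 := (Pb_or hQ.nonneg (fun W => ¬ gd (W.1.2 1)) _).trans (add_le_add (h1C 1) b5)
    have b3 := (Pb_or hQ.nonneg (fun W => ¬ gd (W.1.2 0)) _).trans (add_le_add (h1C 0) b4)
    have b2 := (Pb_or hQ.nonneg (fun W => ¬ gd (W.1.1 0 1)) _).trans (add_le_add (h1A 0 1) b3)
    have b1 := (Pb_or hQ.nonneg (fun W => ¬ gd (W.1.1 0 0)) _).trans (add_le_add (h1A 0 0) b2)
    refine b1.trans (le_of_eq ?_)
    ring
  · intro W hW hb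
    push Not at hb
    obtain ⟨i1, i2, i3, i4, i5, i6⟩ := hb
    obtain ⟨⟨-, a2, a3⟩, -, -, ⟨b3, b4⟩, -, ⟨b6, b7⟩⟩ := hpos W hW
    have r1 := fb_f1 (F := F) (c := c) (D := D) (w := w) (n := n) (H := H) hn (W.1.2 1)
    have r2 := pl_ref hdeg hWJ hA hs hs0 hts hnc hx hgd (hQp W hW) i1 i2 i3 i4
    obtain ⟨R₁, hR₁⟩ : ∃ R₁ : ℤ, R₁ = ⌊(2 : ℝ) ^ ((nt - (t - w)) * J) *
      (cpl (2 ^ (n 2 * (J : ℝ))) (f1C F c D w n H (W.1.2 1))).coeff 1⌋ := ⟨_, rfl⟩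
    obtain ⟨R₂, hR₂⟩ : ∃ R₂ : ℤ, R₂ = ⌊(2 : ℝ) ^ (nc * J) *
      ((uPc F c D w n H (W.1.1 0 0)).eval (tct F w s₀ (W.1.2 0)) +
        ((cpl (2 ^ (n 2 * (J : ℝ))) (f1C F c D w n H (W.1.2 1))).eval (tct F w s (W.1.1 0 0)) -
          (cpl (2 ^ (n 2 * (J : ℝ))) (f1C F c D w n H (W.1.2 1))).eval
            (tct F w s₀ (W.1.2 0))))⌋ := ⟨_, rfl⟩
    rw [← hR₁] at r1 ⊢
    rw [← hR₂] at r2 ⊢
    have t1 : fbC F c w H t nt (W.1.2 1) = fbC F c w H t nt (W.2 0 1) := fb_slam b6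
    have t2 : plC F c D w n s nc H (W.1.2 1) = plC F c D w n s nc H (W.2 0 1) := pl_slam b6 b7
    rw [t1] at r1
    rw [t2] at r2
    have k1 := eKf_ge D J e
    have k2 := eKp_ge D J (e + ε)
    obtain ⟨E, hE⟩ : ∃ E : ℝ, E = 2 ^ ((e + ε) * J) := ⟨_, rfl⟩
    have hE0 : 0 < E := by rw [hE]; exact Real.rpow_pos_of_pos (by norm_num) _
    have hK : eKp D J (e + ε) = 2 * (E + 4 * ((D : ℝ) + 2) ^ 2) := by rw [hE]; rfl
    have hsum : (D + 3) * E + 8 * ((D : ℝ) + 2) ^ 2 + (2 * D + 6) + eKp D J (e + ε) / 2 ≤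
        (D + 4) * eKp D J (e + ε) := by
      rw [hK]
      nlinarith [mul_nonneg hD0 hE0.le, sq_nonneg ((D : ℝ) + 2),
        mul_nonneg hD0 (sq_nonneg ((D : ℝ) + 2)), mul_nonneg hD0 hD0]
    rw [← hE] at r2
    rcases hv with rfl | ⟨j, rfl⟩
    · have a1 := pair_rX hdeg hWJ hn hs hnc hx hgd (of_cond_pos (a3 0 1)) (of_cond_pos (a3 0 0)) i6
        i5 (b3 0)
      obtain ⟨c1, c2⟩ := a1
      rw [abs_le] at c1 c2 r1 r2
      constructor <;> rw [abs_le] <;> constructor <;>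
        linarith [c1.1, c1.2, c2.1, c2.2, r1.1, r1.2, r2.1, r2.2]
    · obtain ⟨z1, z2, z3, z4, z5, z6⟩ := zr_part (b4 j)
      have a2 := pair_zr (t := t) (nt := nt) (s := s) hn hnc (T_of_W z2) z5 z6
      obtain ⟨d1, d2⟩ := a2
      rw [abs_le] at d1 d2 r1 r2
      constructor <;> rw [abs_le] <;> constructor <;>
        linarith [d1.1, d1.2, d2.1, d2.2, r1.1, r1.2, r2.1, r2.2]

/-- **The Taylor coefficients of the second sample of the general star.** -/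
theorem ch_J (hdeg : ∀ l ≤ 3, ∀ x, (H x l).totalDegree ≤ D)
    (hA : 0 < Pe F.p A)
    (hc : Pool.AJW.CfB F ⌊w * J⌋₊ 1 (c 2) A (fun x => x) (fun x => H x 2))
    {t nt s s₀ nc t' e δ : ℝ} (hn : nt - (t - w) ≤ n 2) (htw : w ≤ t)
    (hts : t - w ≤ s₀) {gd : F.Ω → Prop} (hgd : GdP F A c D w t n nt e δ H gd) (N : ℕ) :
    CH (chQ F A c D w n t nt s nc t' H N)
      (fun W => xjC F A c D w t n nt s₀ H (W.1.2 1))
      (fun W => (tct F w s₀ (W.1.2 0),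
        (slam F ⌊w * J⌋₊ (W.1.1 0 0), tct F w s (W.1.1 0 0)))) ≤ e1J D J (n 2) e (4 * δ) := by
  classical
  have hJ0 : (0 : ℝ) ≤ J := Nat.cast_nonneg J
  have hcl := isLaw_cond F.isLaw hA
  obtain ⟨Q, hQd⟩ : ∃ Q, Q = chQ F A c D w n t nt s nc t' H N := ⟨_, rfl⟩
  have hQ : IsLaw Q := by rw [hQd]; exact chn_law hcl _ _ _ _ _ N
  have hQp : ∀ W, 0 < Q W → 0 < chQ F A c D w n t nt s nc t' H N W := fun W hW => by
    rw [hQd] at hW; exact hW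
  have hpos : ∀ W, 0 < Q W → _ := fun W hW => chn_pos hcl _ _ _ _ _ N (hQp W hW)
  have hgd1 := hgd.1
  have h1A : ∀ j k, Pb Q (fun W => ¬ gd (W.1.1 j k)) ≤ δ := fun j k => by
    rw [hQd]
    exact (Pool.MIC.Marg.Pb_eq (chn_A1 hcl _ _ _ _ _ N j k) (fun ω => ¬ gd ω)).le.trans hgd1
  have h1C : ∀ k, Pb Q (fun W => ¬ gd (W.1.2 k)) ≤ δ := fun k => by
    rw [hQd]
    exact (Pool.MIC.Marg.Pb_eq (chn_C1 hcl _ _ _ _ _ N k) (fun ω => ¬ gd ω)).le.trans hgd1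
  rw [← hQd]
  refine xj_gen hdeg hc hn htw hQ _
    (fun W a => jt (opl F c w H 2 (W.1.1 0 0)) (tct F w s₀ (W.1.2 0)) a) _
    (fun W hW => of_cond_pos ((hpos W hW).1.2.1 1)) ?_ ?_
    (fun W => ¬ gd (W.1.1 0 0) ∨ (¬ gd (W.1.1 0 1) ∨ (¬ gd (W.1.2 0) ∨ ¬ gd (W.1.2 1)))) ?_ ?_
  · intro W W' hW hW' h
    obtain ⟨e3, e4⟩ := Prod.ext_iff.1 h
    have e3' : tct F w s₀ (W.1.2 0) = tct F w s₀ (W'.1.2 0) := e3
    have e4' : slam F ⌊w * J⌋₊ (W.1.1 0 0) = slam F ⌊w * J⌋₊ (W'.1.1 0 0) := (Prod.ext_iff.1 e4).1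
    obtain ⟨⟨q1, q2, q3, -⟩, qT, ⟨s1, -⟩, -⟩ := ch_base hA (hQp W hW)
    obtain ⟨⟨q1', q2', q3', -⟩, qT', ⟨s1', -⟩, -⟩ := ch_base hA (hQp W' hW')
    have k1 : tcd F w s₀ (W.1.2 1) = tcd F w s₀ (W'.1.2 1) := by
      have a1 : tct F w s₀ (W.1.2 1) = tct F w s₀ (W.1.2 0) := tct_of_T qT
      have a2 : tct F w s₀ (W'.1.2 1) = tct F w s₀ (W'.1.2 0) := tct_of_T qT'
      exact tcd_of_tct (by rw [a1, a2, e3'])
    simp only
    rw [q1, q2, q3, q1', q2', q3', k1, Z_slam e4',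
      vp_slam (c := c) (D := D) (n := n) (H := H) e4', cR_slam hA s1 s1' e4']
  · intro W W' _ _ h
    obtain ⟨e3, e4⟩ := Prod.ext_iff.1 h
    have e3' : tct F w s₀ (W.1.2 0) = tct F w s₀ (W'.1.2 0) := e3
    have e4' : slam F ⌊w * J⌋₊ (W.1.1 0 0) = slam F ⌊w * J⌋₊ (W'.1.1 0 0) := (Prod.ext_iff.1 e4).1
    funext a
    simp only
    unfold Pool.NA36.opl
    rw [e3', e4']
  · have b3 := (Pb_or hQ.nonneg (fun W => ¬ gd (W.1.2 0)) (fun W => ¬ gd (W.1.2 1))).trans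
      (add_le_add (h1C 0) (h1C 1))
    have b2 := (Pb_or hQ.nonneg (fun W => ¬ gd (W.1.1 0 1)) _).trans (add_le_add (h1A 0 1) b3)
    have b1 := (Pb_or hQ.nonneg (fun W => ¬ gd (W.1.1 0 0)) _).trans (add_le_add (h1A 0 0) b2)
    refine b1.trans (le_of_eq ?_)
    ring
  · intro W hW hb a ha
    push Not at hb
    obtain ⟨i1, i2, i3, i4⟩ := hb
    obtain ⟨-, ⟨b1, -⟩, b2, -, ⟨b4, b5⟩, -⟩ := hpos W hW
    obtain ⟨-, qT, ⟨s1, s2, s3, s4, -, -⟩, -⟩ := ch_base hA (hQp W hW)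
    obtain ⟨x1, x2, x3, x4, x5, x6, x7, x8⟩ := rX_part (b1 0)
    obtain ⟨y1, y2, y3, y4, y5, y6, y7⟩ := rG_part b2
    obtain ⟨x, hxd⟩ : ∃ x, x = tct F w s₀ (W.1.2 0) := ⟨_, rfl⟩
    have hx1 : tct F w s₀ (W.1.2 1) = x := by rw [hxd]; exact tct_of_T qT
    have hxa : |x| ≤ 1 := by rw [hxd]; exact tct_abs s₀ _
    have n1 := tct_near (F := F) (w := w) s₀ (W.1.2 1)
    rw [hx1] at n1
    have g1 := gen_jt (c := c) (D := D) (w := w) hdeg (ω := W.1.2 1) (ω' := W.1.2 0) (t := t)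
      (nt := nt) (e := e) (x := x) (r := 1 / 2 ^ (s₀ * J))
      (by rw [abs_le]; constructor <;> linarith [n1.1, n1.2.1])
      (by
        rw [mul_one_div, div_le_one (by positivity)]
        exact Real.rpow_le_rpow_of_exponent_le (by norm_num) (mul_le_mul_of_nonneg_right hts hJ0))
      (hgd.2 _ _ s4 s3 i4 i3 b2) a
    have j1 := hgd.2 _ _ s2 s1 i2 i1 (rG_rX (b1 0)) 1
    rw [Nat.cast_one, one_mul] at j1
    have g2 := star_jt (c := c) (D := D) (w := w) (n := n) hdeg x4 (t := t) (nt := nt)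
      (rt_abs (w := w) (W.1.1 0 1)) hxa hn htw j1 ha
    have ho : opl F c w H 2 (W.1.1 0 1) = opl F c w H 2 (W.1.2 0) := by
      unfold Pool.NA36.opl
      rw [b4]
    rw [ho] at g2
    rw [hx1, ← hxd]
    have hp : (0 : ℝ) ≤ 2 ^ ((nt - (a : ℝ) * (t - w)) * J) :=
      (Real.rpow_pos_of_pos (by norm_num) _).le
    have g3 := mul_le_mul_of_nonneg_left (abs_sub_le (jt (opl F c w H 2 (W.1.2 1)) x a)
      (jt (opl F c w H 2 (W.1.2 0)) x a) (jt (opl F c w H 2 (W.1.1 0 0)) x a)) hp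
    rw [mul_add] at g3
    linarith

end

end Pool.NA13
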