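import Pool.Agent.H13.NA.Chd
import Pool.Agent.H17.NA.Chn

/-!
# The entropies of the chain, from the letters of one sample

`ch_ent`: the record `ChEnt` for the data of a window. `sl_ent1`: the record `SlEnt` with the same bound
of closeness. `cc_tm`: the code of the time of the general star and the time of the star lemma.
-/

set_option autoImplicit false

namespace Pool.NA13

open Finset Real MvPolynomial
open Pool.Agent.H49.Ent Pool.Agent.H32.Dense Pool.STK Pool.KA Pool.KSAT Pool.K2S Pool.PB Pool.GEN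
open Pool.S6C Pool.RCD Pool.LA91 Pool.OWN68 Pool.CHT
open Pool.BFL (Pb)
open Pool.STB (Pb_mono Pb_or)
open Pool.V0F (cR mx_cR)
open Pool.CLU (cpn_law cpn_pos cpn_marg)
open Pool.NDC42 (hgC pcC x0 xn xg rP LbW)
open Pool.PB.Trl (rt rt_mem)
open Pool.AVG5 (jt jt_le jt_sub jt_sum of_fl fl_abs)
open Pool.NA36 (vpC f1C f2C opl tcd tct jaC fbC jbC X0 rX rG NaE NaT opl_deg opl_cf cf_one fb_close
  fb_size)
open Pool.SL77 (tdg cpl cpl_deg cpl_coeff slF SlD SlEnt ellC)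
open Pool.NA55 (chn chn_law chn_pos chn_A1 chn_B1 chn_C1)
open Pool.NA17 (ChEnt)

variable {m J : ℕ}

/-- **The bound of the closeness in the star lemma and the chain.** -/
noncomputable def e1D (D J : ℕ) (w t nt nc n2 e ε δ : ℝ) : ℝ :=
  e1G D J w t nt nc (eKf D J e) ((D + 4) * eKp D J (e + ε)) (6 * δ) + e1J D J n2 e (6 * δ)

/-- The bound of the orders `≥ 1` given the digits of all Taylor coefficients. -/
noncomputable def cJC (F : Fam m J) (A : F.Ω → Prop) (c : ℕ → Fin m) (D : ℕ) (w t : ℝ) (n : ℕ → ℝ)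
    (nt s₀ : ℝ) (H : LnT F → ℕ → MvPolynomial (Option (Fin m)) ℝ) : ℝ :=
  CH (Pool.Agent.H49.Ent.cond F.p A True) (f1C F c D w n H) (xjC F A c D w t n nt s₀ H)

section

variable {F : Fam m J} {A : F.Ω → Prop} {c : ℕ → Fin m} {D : ℕ} {w : ℝ} {n : ℕ → ℝ}
  {H : LnT F → ℕ → MvPolynomial (Option (Fin m)) ℝ}

theorem GdP.nonneg (hA : 0 < Pe F.p A) {t nt e δ : ℝ} {gd : F.Ω → Prop}
    (h : GdP F A c D w t n nt e δ H gd) : 0 ≤ δ :=
  (Pool.MIC.Pb_nonneg (isLaw_cond F.isLaw hA).nonneg _).trans h.1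

/-- The star lemma with the common bound of closeness. -/
theorem sl_ent1 (hA : 0 < Pe F.p A) {t nt s nc t' e ε δ : ℝ} {gd : F.Ω → Prop}
    (hgd : GdP F A c D w t n nt e δ H gd) {M : ℕ}
    {Xd : ℕ} {g : ℝ} {cP : LnT F → Polynomial ℝ} {ξ : Type}
    {le : LnT F → ξ × (Fin (D + 1 + 1) → ℤ)} {NR CR : ξ × (Fin (D + 1 + 1) → ℤ) → Polynomial ℝ}
    {cF cU e₀ e₂ e₃ e₄ e₅ eT : ℝ}
    (h : SlEnt (slF F c D Xd g w s n M H cP le NR CR) (Pool.Agent.H49.Ent.cond F.p A True)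
      (rX F A c D w t t n nt H) (zrC F A c D w n t' nc H) (f1C F c D w n H) (ufC F c D w n H)
      F.T (tcd F w (s + (n 2 - nc))) (xcC F A c D w t n nt s nc H) M cF cU e₀
      (e1C D J w t nt nc e ε (4 * δ)) e₂ e₃ e₄ e₅ eT) :
    SlEnt (slF F c D Xd g w s n M H cP le NR CR) (Pool.Agent.H49.Ent.cond F.p A True)
      (rX F A c D w t t n nt H) (zrC F A c D w n t' nc H) (f1C F c D w n H) (ufC F c D w n H)
      F.T (tcd F w (s + (n 2 - nc))) (xcC F A c D w t n nt s nc H) M cF cU e₀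
      (e1D D J w t nt nc (n 2) e ε δ) e₂ e₃ e₄ e₅ eT := by
  have hδ := hgd.nonneg hA
  have hD0 : (0 : ℝ) ≤ D := Nat.cast_nonneg D
  have k1 : e1C D J w t nt nc e ε (4 * δ) ≤ e1D D J w t nt nc (n 2) e ε δ := by
    have a1 : e1C D J w t nt nc e ε (4 * δ) =
        e1G D J w t nt nc (eKf D J e) (eKp D J (e + ε)) (4 * δ) := rfl
    have a2 := e1G_mono D J (w := w) (t := t) (nt := nt) (nc := nc) (Kf := eKf D J e)
      (Kp := eKp D J (e + ε)) (μ := 4 * δ) (Kf' := eKf D J e)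
      (Kp' := (D + 4) * eKp D J (e + ε)) (μ' := 6 * δ) (eKf_pos _ _ _) (eKp_pos _ _ _) le_rfl
      (by nlinarith [eKp_pos D J (e + ε)]) (by linarith)
    have a3 := e1J_nonneg D J (n2 := n 2) (e := e) (μ := 6 * δ) (by linarith)
    rw [a1]
    unfold e1D
    linarith
  exact { h with h2 := fun v hv => (h.h2 v hv).trans k1 }

/-- **The entropies of the chain.** -/
theorem ch_ent (hdeg : ∀ l ≤ 3, ∀ x, (H x l).totalDegree ≤ D) (hWJ : ⌊w * J⌋₊ ≤ J)
    (hA : 0 < Pe F.p A)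
    (hc : Pool.AJW.CfB F ⌊w * J⌋₊ 1 (c 2) A (fun x => x) (fun x => H x 2)) (hn2 : 0 ≤ n 2)
    {t nt s s₀ nc t' e ε δ es : ℝ} (hn : nt - (t - w) ≤ n 2) (htw : w ≤ t) (hs : 0 ≤ s)
    (hs0 : s ≤ s₀) (hs1 : s₀ ≤ 1 - w) (hts : t - w ≤ s₀) (hnc : nc ≤ n 2)
    (hx : nc ≤ nt - (t - w) + s + ε) {M : ℕ}
    {gd : F.Ω → Prop} (hgd : GdP F A c D w t n nt e δ H gd)
    (hj2 : cJC F A c D w t n nt s₀ H ≤ CH (Pool.Agent.H49.Ent.cond F.p A True) (f1C F c D w n H)
      (rG F A c D w t t n nt H) + e * J)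
    (htm : ((1 - w) * Real.log 2 - e) * J ≤
      CH (Pool.Agent.H49.Ent.cond F.p A True) F.T (slam F ⌊w * J⌋₊))
    {κ : Type} (sc : F.Ω → κ)
    (hgg : CH (Pool.Agent.H49.Ent.cond F.p A True) (xg F A c D w n nc H)
      (xn F A c D w n nc H) ≤ e * J)
    (hsc : CH (Pool.Agent.H49.Ent.cond F.p A True) sc (xg F A c D w n nc H) ≤ es)
    {Xd : ℕ} {g : ℝ} {cP : LnT F → Polynomial ℝ}
    (le : LnT F → _ × (Fin (D + 1 + 1) → ℤ)) (NR CR : _ × (Fin (D + 1 + 1) → ℤ) → Polynomial ℝ)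
    (hle : ∀ ω, A ω → le (slam F ⌊w * J⌋₊ ω) = ellC F A c D w n nc H sc ω) :
    ChEnt (slF F c D Xd g w s n M H cP le NR CR) (Pool.Agent.H49.Ent.cond F.p A True)
      (rX F A c D w t t n nt H) (rG F A c D w t t n nt H) (zrC F A c D w n t' nc H)
      (f1C F c D w n H) F.T (xcC F A c D w t n nt s nc H) (xjC F A c D w t n nt s₀ H)
      (tct F w s₀) ((n 2 - nc) * Real.log 2 * J) (cJC F A c D w t n nt s₀ H)
      ((s₀ - s) * J * Real.log 2 + Real.log 6)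
      (e * J + es + Real.log 3 + (D + 2) * Real.log 6) (e1D D J w t nt nc (n 2) e ε δ)
      (e * J + 3 * Real.log 6) (e * J) := by
  classical
  have hcl := isLaw_cond F.isLaw hA
  have h0 := hcl.nonneg
  have hδ := hgd.nonneg hA
  have hD0 : (0 : ℝ) ≤ D := Nat.cast_nonneg D
  have hsup : ∀ ω, 0 < Pool.Agent.H49.Ent.cond F.p A True ω → A ω := fun ω hω => of_cond_pos hω
  obtain ⟨X, hX⟩ : ∃ X, X = slF F c D Xd g w s n M H cP le NR CR := ⟨_, rfl⟩
  have hXl : X.l = slam F ⌊w * J⌋₊ := by rw [hX]; rfl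
  have hXc : X.c0 = tct F w s := by rw [hX]; rfl
  have hXt : X.t = tdg F w s M := by rw [hX]; rfl
  have hXe : ∀ ω, A ω → X.ell ω = ellC F A c D w n nc H sc ω := fun ω hω => by
    rw [hX]
    exact hle ω hω
  have hee : ∀ ω ω', A ω → A ω' → X.ell ω = X.ell ω' →
      f1C F c D w n H ω = f1C F c D w n H ω' := fun ω ω' hω hω' h => by
    rw [hXe ω hω, hXe ω' hω'] at h
    unfold ellC xg xn x0 at h
    simp only [Prod.mk.injEq] at h
    obtain ⟨⟨⟨⟨⟨-, -, h1, -⟩, -⟩, -⟩, -⟩, -⟩ := h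
    exact h1
  have hpk : eKp D J (e + ε) ≤ (D + 4) * eKp D J (e + ε) := by nlinarith [eKp_pos D J (e + ε)]
  have hJ0 := e1J_nonneg D J (n2 := n 2) (e := e) (μ := 6 * δ) (by linarith)
  have hG0 : 0 ≤ e1G D J w t nt nc (eKf D J e) ((D + 4) * eKp D J (e + ε)) (6 * δ) := by
    unfold e1G
    have a0 : 0 ≤ Real.log 2 := Real.log_nonneg (by norm_num)
    have a1 : 0 ≤ Real.log (2 * (2 * ((2 : ℝ) ^ ((nt - (t - w) + 1) * J) + 1)) + 1) :=
      Real.log_nonneg (by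
        have : (0 : ℝ) < 2 ^ ((nt - (t - w) + 1) * J) := Real.rpow_pos_of_pos (by norm_num) _
        linarith)
    have a2 : 0 ≤ Real.log (2 * (2 * ((2 : ℝ) ^ (nc * J) * ((D + 2) * (2 ^ (1 * (J : ℝ)) + 1)) +
        1)) + 1) := Real.log_nonneg (by
          have : (0 : ℝ) ≤ 2 ^ (nc * J) * ((D + 2) * (2 ^ (1 * (J : ℝ)) + 1)) := by positivity
          linarith)
    have a3 : 0 ≤ Real.log (2 * (2 * eKf D J e) + 1) :=
      Real.log_nonneg (by linarith [eKf_pos D J e])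
    have a4 : 0 ≤ Real.log (2 * (2 * ((D + 4) * eKp D J (e + ε))) + 1) :=
      Real.log_nonneg (by linarith [eKp_pos D J (e + ε)])
    have a5 := mul_nonneg (by linarith : 0 ≤ 6 * δ) a1
    have a6 := mul_nonneg (by linarith : 0 ≤ 6 * δ) a2
    linarith
  rw [← hX]
  refine ⟨?_, ?_, ?_, ?_, ?_, ?_, ?_, ?_, ?_, ?_, ?_, ?_, ?_⟩
  · -- zct
    intro ω ω' _ _ h
    obtain ⟨-, h2, -⟩ := rG_part h
    rw [hXc, hXt]
    exact Prod.ext (tct_of_T (T_of_W h2)) (tdg_of_T (T_of_W h2))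
  · -- zJ
    exact fun ω ω' _ _ h => (zr_part h).2.2.2.2.1
  · -- eJ
    exact fun ω ω' hω hω' h => hee ω ω' (hsup _ hω) (hsup _ hω') h
  · -- lJ
    intro ω ω' _ _ h
    rw [hXl] at h
    exact pc_slam h
  · -- Tc
    intro ω ω' _ _ h
    rw [hXc]
    exact tct_of_T h
  · -- h0
    exact le_refl _
  · -- h1
    refine le_trans (CH_mono_left h0 (X' := ellC F A c D w n nc H sc) fun ω ω' hω hω' h => ?_)
      (ell_cnt hA hnc sc hgg hsc)
    rw [hXe ω (hsup _ hω), hXe ω' (hsup _ hω')]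
    exact (Prod.ext_iff.1 h).1
  · -- hm
    rw [hXc]
    refine le_trans (CH_mono_left h0 (X' := tcd F w s₀) fun ω ω' _ _ e => ?_) (tcd_cnt hcl hs0)
    have e2 : tcd F w s₀ ω = tcd F w s₀ ω' := (Prod.ext_iff.1 e).1
    unfold tct
    rw [e2]
  · -- h2
    intro v hv
    rw [hXl, hXc]
    have k1 := ch_A (t' := t') hdeg hWJ hA hc hn2 hn hs hnc hx hgd (2 * D + 1)
      (fun W => tct F w s₀ (W.1.2 0)) v hv
    have k2 := e1G_mono D J (w := w) (t := t) (nt := nt) (nc := nc) (Kf := eKf D J e)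
      (Kp := eKp D J (e + ε)) (μ := 2 * δ) (Kf' := eKf D J e)
      (Kp' := (D + 4) * eKp D J (e + ε)) (μ' := 6 * δ) (eKf_pos _ _ _) (eKp_pos _ _ _) le_rfl
      hpk (by linarith)
    unfold e1D
    exact k1.trans (by linarith)
  · -- h2B
    intro v hv
    rw [hXl, hXc]
    have k1 := ch_B (t' := t') hdeg hWJ hA hc hn2 hn hs hs0 hts hnc hx hgd (2 * D + 1) v hv
    unfold e1D
    exact k1.trans (by linarith)
  · -- h2j
    rw [hXl, hXc]
    have k1 := ch_J (t' := t') (s := s) (nc := nc) hdeg hA hc hn htw hts hgd (2 * D + 1)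
    have k2 : e1J D J (n 2) e (4 * δ) ≤ e1J D J (n 2) e (6 * δ) := by
      unfold e1J
      refine mul_le_mul_of_nonneg_left ?_ (by linarith)
      have a1 : 0 ≤ Real.log (2 * (2 * ((2 : ℝ) ^ (D + 2) * 2 ^ ((n 2 + 1) * J) + 1)) + 1) :=
        Real.log_nonneg (by
          have : (0 : ℝ) ≤ 2 ^ (D + 2) * 2 ^ ((n 2 + 1) * J) := by positivity
          linarith)
      have a2 := mul_le_mul_of_nonneg_right (by linarith : 4 * δ ≤ 6 * δ) a1
      linarith
    unfold e1D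
    exact k1.trans (by linarith)
  · -- h7
    rw [hXl, hXc]
    have h1 := tcd_low hWJ hA hs hs1 htm
    have h2 : CH (Pool.Agent.H49.Ent.cond F.p A True) (tcd F w s₀)
        (fun ω => (slam F ⌊w * J⌋₊ ω, tct F w s ω)) ≤
        CH (Pool.Agent.H49.Ent.cond F.p A True) (tct F w s₀)
          (fun ω => (slam F ⌊w * J⌋₊ ω, tct F w s ω)) :=
      CH_mono_left h0 fun ω ω' _ _ e => tcd_of_tct (Prod.ext_iff.1 e).1
    linarith
  · -- h8
    linarith

/-- The code of the time of the general star and the time of the star lemma. -/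
theorem cc_tm {s s₀ : ℝ} {M : ℕ} (hM : 1 ≤ M) {Xd : ℕ} {g : ℝ} {cP : LnT F → Polynomial ℝ} {ξ : Type}
    {le : LnT F → ξ × (Fin (D + 1 + 1) → ℤ)} {NR CR : ξ × (Fin (D + 1 + 1) → ℤ) → Polynomial ℝ}
    (ω : F.Ω) : |tct F w s₀ ω - (slF F c D Xd g w s n M H cP le NR CR).tm (1 / 2 ^ (s * J)) M ω| ≤
      1 / 2 ^ (s₀ * J) + 1 / 2 ^ (s * J) / M := by
  have h1 := (Pool.SL77.slF_time (F := F) (c := c) (D := D) (Xd := Xd) (g := g) (w := w) (s := s)
      (n := n) (M := M) hM (H := H) (cP := cP) (le := le) (NR := NR) (CR := CR) ω).1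
  have h2 := tct_near (F := F) (w := w) s₀ ω
  rw [abs_le] at h1 ⊢
  constructor <;> linarith [h1.1, h1.2, h2.1, h2.2.1]

end

end Pool.NA13
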