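import Pool.Agent.H13.NA.Upc

/-!
# Closeness of the context of one line

`xcC`: the record of `w`, the near path, the orders `≥ 2` of the own path of `c 2`, the coarse time, and
the natural digits `fbC` of its first coefficient, its place `plC` at the coarse time. `pair_zp`,
`pair_zr`: the last two at two samples over one record. `xc_slN`: they are few bits given one line
of the two stars.
-/

set_option autoImplicit false

namespace Pool.NA13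

open Finset Real MvPolynomial
open Pool.Agent.H49.Ent Pool.Agent.H32.Dense Pool.STK Pool.KA Pool.KSAT Pool.K2S Pool.PB Pool.GEN
open Pool.S6C Pool.RCD Pool.LA91 Pool.OWN68 Pool.CHT
open Pool.BFL (Pb)
open Pool.STB (Pb_mono Pb_or)
open Pool.V0F (cR mx_cR)
open Pool.CLU (cpn_law cpn_pos cpn_marg)
open Pool.NDC42 (hgC pcC x0 xn xg rP LbW)
open Pool.PB.Trl (rt rt_mem)
open Pool.AVG5 (jt jt_le jt_sub of_fl)
open Pool.NA36 (vpC f1C f2C opl tcd tct jaC fbC jbC X0 rX rG NaE NaT opl_deg opl_cf cf_one fb_close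
  fb_size dcR cl2_Z)
open Pool.SL77 (tdg cpl cpl_deg cpl_coeff slN slN_law slN_pos slN_one)

variable {m J : ℕ}

/-- The part of the context which is the same for all lines. -/
noncomputable def g0C (F : Fam m J) (A : F.Ω → Prop) (c : ℕ → Fin m) (D : ℕ) (w : ℝ) (n : ℕ → ℝ)
    (s : ℝ) (H : LnT F → ℕ → MvPolynomial (Option (Fin m)) ℝ) (ω : F.Ω) :=
  ((cR F A w ω, F.Z ω), (vpC F c D w n H ω, (f2C F c D w n H ω, tcd F w s ω)))

/-- **The context of one line.** -/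
noncomputable def xcC (F : Fam m J) (A : F.Ω → Prop) (c : ℕ → Fin m) (D : ℕ) (w t : ℝ) (n : ℕ → ℝ)
    (nt s nc : ℝ) (H : LnT F → ℕ → MvPolynomial (Option (Fin m)) ℝ) (ω : F.Ω) :=
  (g0C F A c D w n s H ω, (fbC F c w H t nt ω, plC F c D w n s nc H ω))

/-- The record of the parallel lines. -/
noncomputable def zrC (F : Fam m J) (A : F.Ω → Prop) (c : ℕ → Fin m) (D : ℕ) (w : ℝ) (n : ℕ → ℝ)
    (t' nt' : ℝ) (H : LnT F → ℕ → MvPolynomial (Option (Fin m)) ℝ) (ω : F.Ω) :=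
  ((cR F A t' ω, F.W ω), x0 F A c D w n nt' H ω)

section

variable {F : Fam m J} {A : F.Ω → Prop} {c : ℕ → Fin m} {D : ℕ} {w : ℝ} {n : ℕ → ℝ}
  {H : LnT F → ℕ → MvPolynomial (Option (Fin m)) ℝ}

theorem cR_slam (hA : 0 < Pe F.p A) {ω ω' : F.Ω} (hω : A ω) (hω' : A ω')
    (h : slam F ⌊w * J⌋₊ ω = slam F ⌊w * J⌋₊ ω') : cR F A w ω = cR F A w ω' := by
  obtain ⟨-, ψ, hψ⟩ := (mx_cR hA w (le_refl (0 : ℝ))).1
  rw [hψ ω hω, hψ ω' hω']
  exact congrArg ψ h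

theorem Z_slam {ω ω' : F.Ω} (h : slam F ⌊w * J⌋₊ ω = slam F ⌊w * J⌋₊ ω') : F.Z ω = F.Z ω' :=
  congrArg (fun x => x.2.1) h

theorem pc_slam {l j₀ : ℕ} {s : ℝ} {ω ω' : F.Ω} (h : slam F ⌊w * J⌋₊ ω = slam F ⌊w * J⌋₊ ω') :
    pcC F c D w H l j₀ s ω = pcC F c D w H l j₀ s ω' := by
  funext a
  unfold pcC Pool.AVG71.cod
  rw [h]

theorem vp_slam {ω ω' : F.Ω} (h : slam F ⌊w * J⌋₊ ω = slam F ⌊w * J⌋₊ ω') :
    vpC F c D w n H ω = vpC F c D w n H ω' := by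
  funext l
  exact pc_slam h

theorem uPc_slam {ω ω' : F.Ω} (h : slam F ⌊w * J⌋₊ ω = slam F ⌊w * J⌋₊ ω') :
    uPc F c D w n H ω = uPc F c D w n H ω' := by
  unfold uPc
  rw [pc_slam h]

theorem fb_slam {t nt : ℝ} {ω ω' : F.Ω} (h : slam F ⌊w * J⌋₊ ω = slam F ⌊w * J⌋₊ ω') :
    fbC F c w H t nt ω = fbC F c w H t nt ω' := by
  unfold fbC Pool.NA36.opl
  rw [h]

theorem pl_slam {s nc : ℝ} {ω ω' : F.Ω} (h : slam F ⌊w * J⌋₊ ω = slam F ⌊w * J⌋₊ ω')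
    (h' : tct F w s ω = tct F w s ω') : plC F c D w n s nc H ω = plC F c D w n s nc H ω' := by
  unfold plC
  rw [uPc_slam h, h']

theorem g0_slam (hA : 0 < Pe F.p A) {s : ℝ} {ω ω' : F.Ω} (hω : A ω) (hω' : A ω')
    (h : slam F ⌊w * J⌋₊ ω = slam F ⌊w * J⌋₊ ω') (h' : tct F w s ω = tct F w s ω') :
    g0C F A c D w n s H ω = g0C F A c D w n s H ω' := by
  have e5 : f2C F c D w n H ω = f2C F c D w n H ω' := pc_slam h
  unfold g0C
  rw [cR_slam hA hω hω' h, Z_slam h, vp_slam h, e5, tcd_of_tct h']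

/-- The parts of the record `rX`. -/
theorem rX_part {t τ nt : ℝ} {ω ω' : F.Ω}
    (h : rX F A c D w t τ n nt H ω = rX F A c D w t τ n nt H ω') :
    cR F A w ω = cR F A w ω' ∧ F.W ω = F.W ω' ∧ vpC F c D w n H ω = vpC F c D w n H ω' ∧
      f2C F c D w n H ω = f2C F c D w n H ω' ∧ cR F A t ω = cR F A t ω' ∧
      hgC F c w H 2 nt ω = hgC F c w H 2 nt ω' ∧ hgC F c w H 2 (n 2) ω = hgC F c w H 2 (n 2) ω' ∧
      cR F A τ ω = cR F A τ ω' := by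
  unfold rX X0 at h
  simp only [Prod.mk.injEq] at h
  obtain ⟨⟨⟨h1, h2⟩, h3, h4, h5⟩, ⟨h6, h7⟩, h8⟩ := h
  exact ⟨h1, h2, h3, h4, h5, h6, h7, h8⟩

theorem rG_part {t τ nt : ℝ} {ω ω' : F.Ω}
    (h : rG F A c D w t τ n nt H ω = rG F A c D w t τ n nt H ω') :
    cR F A w ω = cR F A w ω' ∧ F.W ω = F.W ω' ∧ vpC F c D w n H ω = vpC F c D w n H ω' ∧
      cR F A t ω = cR F A t ω' ∧
      hgC F c w H 2 nt ω = hgC F c w H 2 nt ω' ∧ hgC F c w H 2 (n 2) ω = hgC F c w H 2 (n 2) ω' ∧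
      cR F A τ ω = cR F A τ ω' := by
  unfold rG at h
  simp only [Prod.mk.injEq] at h
  obtain ⟨⟨⟨h1, h2⟩, h3, h5⟩, ⟨h6, h7⟩, h8⟩ := h
  exact ⟨h1, h2, h3, h5, h6, h7, h8⟩

theorem T_of_W {ω ω' : F.Ω} (h : F.W ω = F.W ω') : F.T ω = F.T ω' := (Prod.ext_iff.1 h).1

/-- The parts of the record of the parallel lines. -/
theorem zr_part {t' nt' : ℝ} {ω ω' : F.Ω}
    (h : zrC F A c D w n t' nt' H ω = zrC F A c D w n t' nt' H ω') :
    cR F A t' ω = cR F A t' ω' ∧ F.W ω = F.W ω' ∧ cR F A w ω = cR F A w ω' ∧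
      vpC F c D w n H ω = vpC F c D w n H ω' ∧ f1C F c D w n H ω = f1C F c D w n H ω' ∧
      pcC F c D w H 2 0 nt' ω = pcC F c D w H 2 0 nt' ω' := by
  unfold zrC x0 at h
  simp only [Prod.mk.injEq] at h
  obtain ⟨⟨h1, h2⟩, ⟨h3, -⟩, h4, h5, h6⟩ := h
  exact ⟨h1, h2, h3, h4, h5, h6⟩

theorem f2_of_f1 {ω ω' : F.Ω} (h : f1C F c D w n H ω = f1C F c D w n H ω') :
    f2C F c D w n H ω = f2C F c D w n H ω' := by
  funext a
  have e14 := congrFun h a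
  unfold f1C pcC Pool.AVG71.cod at e14
  unfold f2C pcC Pool.AVG71.cod
  by_cases hh : 2 ≤ (a : ℕ)
  · rw [if_pos (by omega : 1 ≤ (a : ℕ)), if_pos (by omega : 1 ≤ (a : ℕ))] at e14
    rw [if_pos hh, if_pos hh]
    exact e14
  · rw [if_neg hh, if_neg hh]

theorem g0_zp {t τ nt s : ℝ} {ω ω' : F.Ω}
    (h : rX F A c D w t τ n nt H ω = rX F A c D w t τ n nt H ω') :
    g0C F A c D w n s H ω = g0C F A c D w n s H ω' := by
  obtain ⟨h1, h2, h3, h4, -, -, -, -⟩ := rX_part h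
  have h5 : F.Z ω = F.Z ω' := (Prod.ext_iff.1 h2).2
  unfold g0C
  rw [h1, h5, h3, h4, tcd_of_T (T_of_W h2)]

theorem g0_zr {t' nt' s : ℝ} {ω ω' : F.Ω}
    (h : zrC F A c D w n t' nt' H ω = zrC F A c D w n t' nt' H ω') :
    g0C F A c D w n s H ω = g0C F A c D w n s H ω' := by
  obtain ⟨-, h2, h1, h3, h4, -⟩ := zr_part h
  have h5 : F.Z ω = F.Z ω' := (Prod.ext_iff.1 h2).2
  unfold g0C
  rw [h1, h5, h3, f2_of_f1 h4, tcd_of_T (T_of_W h2)]

/-- **Two good samples over one record.** -/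
theorem pair_zp (hdeg : ∀ l ≤ 3, ∀ x, (H x l).totalDegree ≤ D) (hWJ : ⌊w * J⌋₊ ≤ J)
    {t nt s nc e ε : ℝ} (hn : nt - (t - w) ≤ n 2) (hs : 0 ≤ s) (hnc : nc ≤ n 2)
    (hx : nc ≤ nt - (t - w) + s + ε) {ω ω' : F.Ω}
    (hT : F.T ω = F.T ω') (hh : hgC F c w H 2 (n 2) ω = hgC F c w H 2 (n 2) ω')
    (hf : f2C F c D w n H ω = f2C F c D w n H ω')
    (hj : |jt (opl F c w H 2 ω) (rt F ⌊w * J⌋₊ ω) 1 - jt (opl F c w H 2 ω') (rt F ⌊w * J⌋₊ ω) 1| ≤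
      2 ^ (-((nt - (t - w) - e) * J))) :
    |((fbC F c w H t nt ω : ℝ)) - fbC F c w H t nt ω'| ≤ 2 ^ (e * J) + ((D : ℝ) + 2) ^ 2 + 1 ∧
    |((plC F c D w n s nc H ω : ℤ) : ℝ) - plC F c D w n s nc H ω'| ≤
      2 ^ ((e + ε) * J) + 4 * ((D : ℝ) + 2) ^ 2 := by
  refine ⟨fb_close hdeg hn hf (θ := rt F ⌊w * J⌋₊ ω) (rt_abs ω) hj, ?_⟩
  exact pl_zp hdeg hWJ hT hh hf hs hnc (g := nt - (t - w) - e) hj (by linarith)

/-- **Two samples over one record of the parallel lines.** -/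
theorem pair_zr {t nt s nc : ℝ} (hn : nt - (t - w) ≤ n 2) (hnc : nc ≤ n 2) {ω ω' : F.Ω}
    (hT : F.T ω = F.T ω') (hf : f1C F c D w n H ω = f1C F c D w n H ω')
    (hp : pcC F c D w H 2 0 nc ω = pcC F c D w H 2 0 nc ω') :
    |((fbC F c w H t nt ω : ℝ)) - fbC F c w H t nt ω'| ≤ 2 ∧
    |((plC F c D w n s nc H ω : ℤ) : ℝ) - plC F c D w n s nc H ω'| ≤ 4 := by
  have hJ0 : (0 : ℝ) ≤ J := Nat.cast_nonneg J
  have hn0 : (0 : ℝ) < 2 ^ (n 2 * J) := Real.rpow_pos_of_pos (by norm_num) _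
  have hc0 : (0 : ℝ) < 2 ^ (nc * J) := Real.rpow_pos_of_pos (by norm_num) _
  have hcn : (2 : ℝ) ^ (nc * J) * (1 / 2 ^ (n 2 * J)) ≤ 1 := by
    rw [mul_one_div, div_le_one hn0]
    exact Real.rpow_le_rpow_of_exponent_le (by norm_num) (mul_le_mul_of_nonneg_right hnc hJ0)
  constructor
  · have h2 := opl_cf (w := w) (l := 2) (j₀ := 1) (D := D) (i := 1) hf le_rfl (by omega)
    rw [Polynomial.coeff_sub] at h2
    obtain ⟨a, ha⟩ : ∃ a, a = (opl F c w H 2 ω).coeff 1 := ⟨_, rfl⟩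
    obtain ⟨a', ha'⟩ : ∃ a', a' = (opl F c w H 2 ω').coeff 1 := ⟨_, rfl⟩
    rw [← ha, ← ha'] at h2
    have h6 : (0 : ℝ) < 2 ^ ((nt - (t - w)) * J) := Real.rpow_pos_of_pos (by norm_num) _
    have h3 : |(2 : ℝ) ^ ((nt - (t - w)) * J) * a - 2 ^ ((nt - (t - w)) * J) * a'| ≤ 1 := by
      rw [← mul_sub, abs_mul, abs_of_pos h6]
      refine (mul_le_mul_of_nonneg_left h2 h6.le).trans ?_
      rw [mul_one_div, div_le_one hn0]
      exact Real.rpow_le_rpow_of_exponent_le (by norm_num) (mul_le_mul_of_nonneg_right hn hJ0)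
    unfold fbC
    rw [← ha, ← ha']
    have g1 := Int.floor_le ((2 : ℝ) ^ ((nt - (t - w)) * J) * a)
    have g2 := Int.lt_floor_add_one ((2 : ℝ) ^ ((nt - (t - w)) * J) * a)
    have g3 := Int.floor_le ((2 : ℝ) ^ ((nt - (t - w)) * J) * a')
    have g4 := Int.lt_floor_add_one ((2 : ℝ) ^ ((nt - (t - w)) * J) * a')
    rw [abs_le] at h3 ⊢
    constructor <;> linarith [h3.1, h3.2]
  · obtain ⟨Q, hQ⟩ : ∃ Q, Q = uPc F c D w n H ω - uPc F c D w n H ω' := ⟨_, rfl⟩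
    have hQ1 : ∀ i, 1 ≤ i → Q.coeff i = 0 := by
      intro i hi
      rcases Nat.lt_or_ge i 2 with h1 | h1
      · have hi1 : i = 1 := by omega
        rw [hi1, hQ, Polynomial.coeff_sub]
        have h2 := congrFun hf ⟨1, by omega⟩
        have h3 := cpl_coeff (2 ^ (n 2 * (J : ℝ))) (pcC F c D w H 2 0 (n 2) ω) ⟨1, by omega⟩
        have h4 := cpl_coeff (2 ^ (n 2 * (J : ℝ))) (pcC F c D w H 2 0 (n 2) ω') ⟨1, by omega⟩
        simp only at h3 h4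
        unfold uPc
        rw [h3, h4]
        unfold f1C pcC Pool.AVG71.cod at h2
        unfold pcC Pool.AVG71.cod
        dsimp only at h2 ⊢
        rw [if_pos le_rfl, if_pos le_rfl] at h2
        rw [if_pos (Nat.zero_le _), if_pos (Nat.zero_le _), h2, sub_self]
      · rw [hQ]
        exact uPc_two ω ω' (f2_of_f1 hf) h1
    have hQ0 : |Q.coeff 0| ≤ 1 / 2 ^ (nc * J) + 2 * (1 / 2 ^ (n 2 * J)) := by
      have h1 := uPc_cf (F := F) (c := c) (D := D) (w := w) (n := n) (H := H) ω (i := 0)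
        (Nat.zero_le _)
      have h2 := uPc_cf (F := F) (c := c) (D := D) (w := w) (n := n) (H := H) ω' (i := 0)
        (Nat.zero_le _)
      have h3 := opl_cf (w := w) (l := 2) (j₀ := 0) (D := D) (i := 0) hp le_rfl (Nat.zero_le _)
      rw [Polynomial.coeff_sub] at h3
      rw [hQ, Polynomial.coeff_sub]
      rw [abs_le] at h1 h2 h3 ⊢
      constructor <;> linarith [h1.1, h1.2, h2.1, h2.2, h3.1, h3.2]
    have hQe : ∀ θ, Q.eval θ = Q.coeff 0 := by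
      intro θ
      have h1 : Q.natDegree ≤ 0 := by
        rw [Polynomial.natDegree_le_iff_coeff_eq_zero]
        intro N hN
        exact hQ1 N (by omega)
      rw [Polynomial.eq_C_of_natDegree_le_zero h1, Polynomial.eval_C, Polynomial.coeff_C_zero]
    have h9 : |(2 : ℝ) ^ (nc * J) * (uPc F c D w n H ω).eval (tct F w s ω) -
        2 ^ (nc * J) * (uPc F c D w n H ω').eval (tct F w s ω')| ≤ 3 := by
      rw [← tct_of_T (w := w) (s := s) hT, ← mul_sub, ← Polynomial.eval_sub, ← hQ, hQe, abs_mul,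
        abs_of_pos hc0]
      refine (mul_le_mul_of_nonneg_left hQ0 hc0.le).trans ?_
      rw [mul_add, mul_one_div, div_self hc0.ne']
      linarith
    unfold plC
    have g1 := Int.floor_le ((2 : ℝ) ^ (nc * J) * (uPc F c D w n H ω).eval (tct F w s ω))
    have g2 := Int.lt_floor_add_one ((2 : ℝ) ^ (nc * J) * (uPc F c D w n H ω).eval (tct F w s ω))
    have g3 := Int.floor_le ((2 : ℝ) ^ (nc * J) * (uPc F c D w n H ω').eval (tct F w s ω'))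
    have g4 := Int.lt_floor_add_one ((2 : ℝ) ^ (nc * J) * (uPc F c D w n H ω').eval (tct F w s ω'))
    rw [abs_le] at h9 ⊢
    constructor <;> linarith [h9.1, h9.2]

/-- The size of the place. -/
theorem pl_size
    (hc : Pool.AJW.CfB F ⌊w * J⌋₊ 1 (c 2) A (fun x => x) (fun x => H x 2))
    {s nc : ℝ} (hn2 : 0 ≤ n 2) {ω : F.Ω} (hω : A ω) :
    |((plC F c D w n s nc H ω : ℤ) : ℝ)| ≤ 2 ^ (nc * J) * ((D + 2) * (2 ^ (1 * (J : ℝ)) + 1)) + 1 := by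
  have hJ0 : (0 : ℝ) ≤ J := Nat.cast_nonneg J
  have hc0 : (0 : ℝ) < 2 ^ (nc * J) := Real.rpow_pos_of_pos (by norm_num) _
  have hn0 : (1 : ℝ) ≤ 2 ^ (n 2 * J) := Real.one_le_rpow (by norm_num) (mul_nonneg hn2 hJ0)
  have h1 : |(uPc F c D w n H ω).eval (tct F w s ω)| ≤ (D + 2) * (2 ^ (1 * (J : ℝ)) + 1) := by
    refine eval_small (uPc_deg ω) (fun i hi => ?_) (tct_abs s ω)
    have h2 := uPc_cf (F := F) (c := c) (D := D) (w := w) (n := n) (H := H) ω hi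
    have h3 : |(opl F c w H 2 ω).coeff i| ≤ 2 ^ (1 * (J : ℝ)) := hc ω hω i
    have h4 : (1 : ℝ) / 2 ^ (n 2 * J) ≤ 1 := by rw [div_le_one (by positivity)]; exact hn0
    rw [abs_le] at h2 h3 ⊢
    constructor <;> linarith [h2.1, h2.2, h3.1, h3.2]
  have h5 : |(2 : ℝ) ^ (nc * J) * (uPc F c D w n H ω).eval (tct F w s ω)| ≤
      2 ^ (nc * J) * ((D + 2) * (2 ^ (1 * (J : ℝ)) + 1)) := by
    rw [abs_mul, abs_of_pos hc0]
    exact mul_le_mul_of_nonneg_left h1 hc0.le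
  unfold plC
  have g1 := Int.floor_le ((2 : ℝ) ^ (nc * J) * (uPc F c D w n H ω).eval (tct F w s ω))
  have g2 := Int.lt_floor_add_one ((2 : ℝ) ^ (nc * J) * (uPc F c D w n H ω).eval (tct F w s ω))
  rw [abs_le] at h5 ⊢
  constructor <;> linarith [h5.1, h5.2]

/-- The constants of the closeness. -/
noncomputable def eKf (D J : ℕ) (e : ℝ) : ℝ := 2 * (2 ^ (e * J) + ((D : ℝ) + 2) ^ 2 + 1)

noncomputable def eKp (D J : ℕ) (e : ℝ) : ℝ := 2 * (2 ^ (e * J) + 4 * ((D : ℝ) + 2) ^ 2)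

/-- The bound of the closeness. -/
noncomputable def e1C (D J : ℕ) (w t nt nc e ε μ : ℝ) : ℝ :=
  (Real.log 2 + μ * Real.log (2 * (2 * (2 ^ ((nt - (t - w) + 1) * J) + 1)) + 1) +
    Real.log (2 * (2 * eKf D J e) + 1)) +
  (Real.log 2 + μ * Real.log (2 * (2 * (2 ^ (nc * J) * ((D + 2) * (2 ^ (1 * (J : ℝ)) + 1)) + 1)) + 1) +
    Real.log (2 * (2 * eKp D J (e + ε)) + 1))

theorem eKf_pos (D J : ℕ) (e : ℝ) : 0 ≤ eKf D J e := by
  unfold eKf
  positivity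

theorem eKp_pos (D J : ℕ) (e : ℝ) : 0 ≤ eKp D J e := by
  unfold eKp
  positivity

/-- **The context is few bits given a datum which determines a near sample.** `v` the sample, `u` the
reference sample, `Y` determines the context of `u`. -/
theorem xc_few (hc : Pool.AJW.CfB F ⌊w * J⌋₊ 1 (c 2) A (fun x => x) (fun x => H x 2))
    (hn2 : 0 ≤ n 2) {t nt s nc e ε μ : ℝ} {Ω' Υ : Type} [Fintype Ω'] {Q : Ω' → ℝ} (hQ : IsLaw Q)
    (v : Ω' → F.Ω) (r₁ r₂ : Ω' → ℤ) (Y : Ω' → Υ) (hv : ∀ W, 0 < Q W → A (v W))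
    (hg : Det Q Y (fun W => g0C F A c D w n s H (v W))) (h₁ : Det Q Y r₁) (h₂ : Det Q Y r₂)
    (bad : Ω' → Prop) (hbad : Pb Q bad ≤ μ)
    (hnear : ∀ W, 0 < Q W → ¬ bad W →
      |((fbC F c w H t nt (v W) : ℝ)) - r₁ W| ≤ eKf D J e ∧
      |((plC F c D w n s nc H (v W) : ℤ) : ℝ) - r₂ W| ≤ eKp D J (e + ε)) :
    CH Q (fun W => xcC F A c D w t n nt s nc H (v W)) Y ≤ e1C D J w t nt nc e ε μ := by
  have h0 := hQ.nonneg
  have k1 : CH Q (fun W => xcC F A c D w t n nt s nc H (v W)) Y ≤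
      CH Q (fun W => g0C F A c D w n s H (v W)) Y +
        CH Q (fun W => (fbC F c w H t nt (v W), plC F c D w n s nc H (v W))) Y :=
    CH_subadd h0 _ _ _
  have k2 : CH Q (fun W => g0C F A c D w n s H (v W)) Y = 0 := CH_eq_zero h0 hg
  have k3 := CH_subadd h0 (fun W => fbC F c w H t nt (v W)) (fun W => plC F c D w n s nc H (v W)) Y
  have k4 := near_few hQ (fun W => fbC F c w H t nt (v W)) r₁ Y h₁ bad
    (B := 2 ^ ((nt - (t - w) + 1) * J) + 1) (E := eKf D J e) (by positivity) (eKf_pos _ _ _)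
    (fun W hW => fb_size hc (hv W hW)) hbad fun W hW hb => (hnear W hW hb).1
  have k5 := near_few hQ (fun W => plC F c D w n s nc H (v W)) r₂ Y h₂ bad
    (B := 2 ^ (nc * J) * ((D + 2) * (2 ^ (1 * (J : ℝ)) + 1)) + 1) (E := eKp D J (e + ε))
    (by positivity) (eKp_pos _ _ _) (fun W hW => pl_size hc hn2 (hv W hW)) hbad
    fun W hW hb => (hnear W hW hb).2
  unfold e1C
  linarith

/-- The good event of closeness: over the record of a pair the velocities are near. -/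
def GdP (F : Fam m J) (A : F.Ω → Prop) (c : ℕ → Fin m) (D : ℕ) (w t : ℝ) (n : ℕ → ℝ) (nt e δ : ℝ)
    (H : LnT F → ℕ → MvPolynomial (Option (Fin m)) ℝ) (gd : F.Ω → Prop) : Prop :=
  Pb (Pool.Agent.H49.Ent.cond F.p A True) (fun ω => ¬ gd ω) ≤ δ ∧
    ∀ ω ω', A ω → A ω' → gd ω → gd ω' → rG F A c D w t t n nt H ω = rG F A c D w t t n nt H ω' →
      ∀ j : ℕ, |jt (opl F c w H 2 ω) (rt F ⌊w * J⌋₊ ω) j - jt (opl F c w H 2 ω') (rt F ⌊w * J⌋₊ ω) j| ≤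
        2 ^ (-((nt - (j : ℝ) * (t - w) - e) * J))

theorem rG_rX {t τ nt : ℝ} {ω ω' : F.Ω}
    (h : rX F A c D w t τ n nt H ω = rX F A c D w t τ n nt H ω') :
    rG F A c D w t τ n nt H ω = rG F A c D w t τ n nt H ω' := by
  obtain ⟨h1, h2, h3, h4, h5, h6, h7, h8⟩ := rX_part h
  unfold rG
  rw [h1, h2, h3, h5, h6, h7, h8]

/-- Two good samples over `rX`. -/
theorem pair_rX (hdeg : ∀ l ≤ 3, ∀ x, (H x l).totalDegree ≤ D) (hWJ : ⌊w * J⌋₊ ≤ J)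
    {t nt s nc e ε δ : ℝ} (hn : nt - (t - w) ≤ n 2) (hs : 0 ≤ s) (hnc : nc ≤ n 2)
    (hx : nc ≤ nt - (t - w) + s + ε) {gd : F.Ω → Prop} (hgd : GdP F A c D w t n nt e δ H gd)
    {ω ω' : F.Ω} (hω : A ω) (hω' : A ω') (g : gd ω) (g' : gd ω')
    (h : rX F A c D w t t n nt H ω = rX F A c D w t t n nt H ω') :
    |((fbC F c w H t nt ω : ℝ)) - fbC F c w H t nt ω'| ≤ eKf D J e / 2 ∧
    |((plC F c D w n s nc H ω : ℤ) : ℝ) - plC F c D w n s nc H ω'| ≤ eKp D J (e + ε) / 2 := by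
  obtain ⟨h1, h2, h3, h4, h5, h6, h7, h8⟩ := rX_part h
  have k1 := hgd.2 ω ω' hω hω' g g' (rG_rX h) 1
  rw [Nat.cast_one, one_mul] at k1
  have k2 := pair_zp hdeg hWJ hn hs hnc hx (T_of_W h2) h7 h4 k1
  unfold eKf eKp
  rw [mul_div_cancel_left₀ _ (two_ne_zero), mul_div_cancel_left₀ _ (two_ne_zero)]
  exact k2

/-- The base inequality of the constants. -/
theorem eKf_ge (D J : ℕ) (e : ℝ) : 2 ≤ eKf D J e / 2 := by
  unfold eKf
  rw [mul_div_cancel_left₀ _ (two_ne_zero)]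
  have h1 : (0 : ℝ) < 2 ^ (e * J) := Real.rpow_pos_of_pos (by norm_num) _
  have h2 : (0 : ℝ) ≤ D := Nat.cast_nonneg D
  nlinarith

theorem eKp_ge (D J : ℕ) (e : ℝ) : 4 ≤ eKp D J e / 2 := by
  unfold eKp
  rw [mul_div_cancel_left₀ _ (two_ne_zero)]
  have h1 : (0 : ℝ) < 2 ^ (e * J) := Real.rpow_pos_of_pos (by norm_num) _
  have h2 : (0 : ℝ) ≤ D := Nat.cast_nonneg D
  nlinarith

/-- **Closeness under the law of two stars.** -/
theorem xc_slN (hdeg : ∀ l ≤ 3, ∀ x, (H x l).totalDegree ≤ D) (hWJ : ⌊w * J⌋₊ ≤ J)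
    (hA : 0 < Pe F.p A)
    (hc : Pool.AJW.CfB F ⌊w * J⌋₊ 1 (c 2) A (fun x => x) (fun x => H x 2)) (hn2 : 0 ≤ n 2)
    {t nt s nc t' e ε δ : ℝ} (hn : nt - (t - w) ≤ n 2) (hs : 0 ≤ s) (hnc : nc ≤ n 2)
    (hx : nc ≤ nt - (t - w) + s + ε) {gd : F.Ω → Prop} (hgd : GdP F A c D w t n nt e δ H gd)
    (N : ℕ) (v : (Fin 2 → Fin (N + 1) → Fin 2 → F.Ω) → F.Ω)
    (hv : v = (fun W => W 1 0 0) ∨ ∃ j, v = fun W => W 0 j 1) :
    CH (slN (Pool.Agent.H49.Ent.cond F.p A True) (rX F A c D w t t n nt H)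
      (zrC F A c D w n t' nc H) (slam F ⌊w * J⌋₊) (tct F w s) N)
      (fun W => xcC F A c D w t n nt s nc H (v W))
      (fun W => (slam F ⌊w * J⌋₊ (W 0 0 0), tct F w s (W 0 0 0))) ≤
      e1C D J w t nt nc e ε (4 * δ) := by
  classical
  have hcl := isLaw_cond F.isLaw hA
  obtain ⟨p, hp⟩ : ∃ p, p = Pool.Agent.H49.Ent.cond F.p A True := ⟨_, rfl⟩
  have hsup : ∀ ω, 0 < p ω → A ω := fun ω hω => by
    rw [hp] at hω
    exact of_cond_pos hω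
  have hgd1 := hgd.1
  rw [← hp] at hcl hgd1 ⊢
  obtain ⟨Q, hQd⟩ : ∃ Q, Q = slN p (rX F A c D w t t n nt H)
    (zrC F A c D w n t' nc H) (slam F ⌊w * J⌋₊) (tct F w s) N := ⟨_, rfl⟩
  have hQ : IsLaw Q := by rw [hQd]; exact slN_law hcl _ _ _ _ N
  have hpos : ∀ W, 0 < Q W → _ := fun W hW => slN_pos hcl _ _ _ _ N (by rw [hQd] at hW; exact hW)
  have hone : ∀ i j k, Pb Q (fun W => ¬ gd (W i j k)) ≤ δ := fun i j k => by
    rw [hQd]
    exact (Pool.MIC.Marg.Pb_eq (slN_one hcl _ _ _ _ N i j k) (fun ω => ¬ gd ω)).le.trans hgd1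
  rw [← hQd]
  refine xc_few hc hn2 hQ v (fun W => fbC F c w H t nt (W 0 0 0))
    (fun W => plC F c D w n s nc H (W 0 0 0)) _ (fun W hW => ?_) ?_ ?_ ?_
    (fun W => ¬ gd (W 0 0 0) ∨ (¬ gd (W 0 0 1) ∨ (¬ gd (W 1 0 1) ∨ ¬ gd (W 1 0 0)))) ?_ ?_
  · obtain ⟨g1, -, -, -, -⟩ := hpos W hW
    rcases hv with rfl | ⟨j, rfl⟩
    · exact hsup _ (g1 1 0 0)
    · exact hsup _ (g1 0 j 1)
  · -- the fixed part
    have key : ∀ W, 0 < Q W → g0C F A c D w n s H (v W) = g0C F A c D w n s H (W 0 0 0) := by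
      intro W hW
      obtain ⟨g1, g2, g3, g4, g5⟩ := hpos W hW
      have a1 := g0_zp (s := s) (g2 0 0)
      rcases hv with rfl | ⟨j, rfl⟩
      · have a2 := g0_zp (s := s) (g2 1 0)
        have a3 := g0_slam (c := c) (D := D) (n := n) (H := H) hA (hsup _ (g1 1 0 1))
          (hsup _ (g1 0 0 1)) g4 g5
        exact a2.symm.trans (a3.trans a1)
      · exact (g0_zr (s := s) (g3 0 j)).trans a1
    intro W W' hW hW' h
    have h' := Prod.ext_iff.1 h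
    obtain ⟨g1, -, -, -, -⟩ := hpos W hW
    obtain ⟨g1', -, -, -, -⟩ := hpos W' hW'
    show g0C F A c D w n s H (v W) = g0C F A c D w n s H (v W')
    rw [key W hW, key W' hW']
    exact g0_slam hA (hsup _ (g1 0 0 0)) (hsup _ (g1' 0 0 0)) h'.1 h'.2
  · exact fun W W' _ _ h => fb_slam (Prod.ext_iff.1 h).1
  · exact fun W W' _ _ h => pl_slam (Prod.ext_iff.1 h).1 (Prod.ext_iff.1 h).2
  · have b3 := (Pb_or hQ.nonneg (fun W => ¬ gd (W 1 0 1)) (fun W => ¬ gd (W 1 0 0))).trans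
      (add_le_add (hone 1 0 1) (hone 1 0 0))
    have b2 := (Pb_or hQ.nonneg (fun W => ¬ gd (W 0 0 1)) _).trans (add_le_add (hone 0 0 1) b3)
    have b1 := (Pb_or hQ.nonneg (fun W => ¬ gd (W 0 0 0)) _).trans (add_le_add (hone 0 0 0) b2)
    refine b1.trans (le_of_eq ?_)
    ring
  · intro W hW hb
    obtain ⟨g1, g2, g3, g4, g5⟩ := hpos W hW
    push Not at hb
    obtain ⟨b1, b2, b3, b4⟩ := hb
    have a1 := pair_rX hdeg hWJ hn hs hnc hx hgd (hsup _ (g1 0 0 1)) (hsup _ (g1 0 0 0)) b2 b1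
      (g2 0 0)
    rcases hv with rfl | ⟨j, rfl⟩
    · have a2 := pair_rX hdeg hWJ hn hs hnc hx hgd (hsup _ (g1 1 0 1)) (hsup _ (g1 1 0 0)) b3 b4
        (g2 1 0)
      have a3 : fbC F c w H t nt (W 1 0 1) = fbC F c w H t nt (W 0 0 1) := fb_slam g4
      have a4 : plC F c D w n s nc H (W 1 0 1) = plC F c D w n s nc H (W 0 0 1) := pl_slam g4 g5
      rw [a3, a4] at a2
      obtain ⟨c1, c2⟩ := a1
      obtain ⟨d1, d2⟩ := a2
      rw [abs_le] at c1 c2 d1 d2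
      constructor <;> rw [abs_le] <;> constructor <;>
        linarith [c1.1, c1.2, c2.1, c2.2, d1.1, d1.2, d2.1, d2.2]
    · obtain ⟨z1, z2, z3, z4, z5, z6⟩ := zr_part (g3 0 j)
      have a2 := pair_zr (t := t) (nt := nt) (s := s) hn hnc (T_of_W z2) z5 z6
      have k1 := eKf_ge D J e
      have k2 := eKp_ge D J (e + ε)
      obtain ⟨c1, c2⟩ := a1
      obtain ⟨d1, d2⟩ := a2
      rw [abs_le] at c1 c2 d1 d2
      constructor <;> rw [abs_le] <;> constructor <;>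
        linarith [c1.1, c1.2, c2.1, c2.2, d1.1, d1.2, d2.1, d2.2]

end

end Pool.NA13
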