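import Pool.Agent.H13.NA.Cls
import Pool.Agent.H77.SL.All

/-!
# The entropies of the star lemma, from the letters of one sample

`pl_cnt`: the code of the own path given the orders `≥ 1` and the place. `ell_cnt`: the near data given
the first order and the context. `uf_low`: the height is full over the parallel lines. `cross_few`: the
time of a star is few bits given its two lines. `sl_ent`: the record `SlEnt`.
-/

set_option autoImplicit false

namespace Pool.NA13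

open Finset Real MvPolynomial
open Pool.Agent.H49.Ent Pool.Agent.H32.Dense Pool.STK Pool.KA Pool.KSAT Pool.K2S Pool.PB Pool.GEN
open Pool.S6C Pool.RCD Pool.LA91 Pool.OWN68 Pool.CHT
open Pool.BFL (Pb)
open Pool.STB (Pb_mono Pb_or)
open Pool.V0F (cR mx_cR)
open Pool.CLU (cpn_law cpn_pos cpn_marg)
open Pool.NDC42 (hgC pcC x0 xn xg rP LbW)
open Pool.PB.Trl (rt rt_mem)
open Pool.AVG5 (jt jt_le jt_sub of_fl)
open Pool.NA36 (vpC f1C f2C tcd tct jaC fbC jbC X0 rX rG NaE NaT opl_deg opl_cf cf_one fb_close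
  fb_size dcR cl2_Z)
open Pool.SL77 (tdg cpl cpl_deg cpl_coeff slN slN_law slN_pos slN_one ellC slF SlD SlEnt)

variable {m J : ℕ}

section

variable {F : Fam m J} {A : F.Ω → Prop} {c : ℕ → Fin m} {D : ℕ} {w : ℝ} {n : ℕ → ℝ}
  {H : LnT F → ℕ → MvPolynomial (Option (Fin m)) ℝ}

/-- A code is determined by its first entry and the orders `≥ 1`. -/
theorem pc_split {ω ω' : F.Ω} (h : f1C F c D w n H ω = f1C F c D w n H ω')
    (h0 : pcC F c D w H 2 0 (n 2) ω ⟨0, by omega⟩ = pcC F c D w H 2 0 (n 2) ω' ⟨0, by omega⟩) :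
    pcC F c D w H 2 0 (n 2) ω = pcC F c D w H 2 0 (n 2) ω' := by
  funext a
  by_cases ha : 1 ≤ (a : ℕ)
  · have e1 := congrFun h a
    unfold f1C pcC Pool.AVG71.cod at e1
    unfold pcC Pool.AVG71.cod
    rw [if_pos ha, if_pos ha] at e1
    rw [if_pos (Nat.zero_le _), if_pos (Nat.zero_le _)]
    exact e1
  · have e2 : a = ⟨0, by omega⟩ := Fin.ext (by show (a : ℕ) = 0; omega)
    rw [e2]
    exact h0

/-- **The code of the own path given the orders `≥ 1` and the place.** -/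
theorem pl_cnt {p : F.Ω → ℝ} (hp : IsLaw p) {s nc : ℝ} (hnc : nc ≤ n 2) {Υ : Type} (Y : F.Ω → Υ)
    (hY : ∀ ω ω', 0 < p ω → 0 < p ω' → Y ω = Y ω' → f1C F c D w n H ω = f1C F c D w n H ω' ∧
      tcd F w s ω = tcd F w s ω' ∧ plC F c D w n s nc H ω = plC F c D w n s nc H ω') :
    CH p (pcC F c D w H 2 0 (n 2)) Y ≤ (n 2 - nc) * J * Real.log 2 + Real.log 3 := by
  have hJ0 : (0 : ℝ) ≤ J := Nat.cast_nonneg J
  have hn0 : (0 : ℝ) < 2 ^ (n 2 * J) := Real.rpow_pos_of_pos (by norm_num) _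
  have hc0 : (0 : ℝ) < 2 ^ (nc * J) := Real.rpow_pos_of_pos (by norm_num) _
  have hx : (1 : ℝ) ≤ 2 ^ ((n 2 - nc) * J) := Real.one_le_rpow (by norm_num)
    (mul_nonneg (by linarith) hJ0)
  have h1 : CH p (pcC F c D w H 2 0 (n 2)) Y ≤
      CH p (fun ω => pcC F c D w H 2 0 (n 2) ω ⟨0, by omega⟩) Y :=
    CH_mono_left hp.nonneg fun ω ω' hω hω' e => by
      have e1 := Prod.ext_iff.1 e
      exact pc_split (hY ω ω' hω hω' e1.2).1 e1.1
  have h2 := CH_int hp (fun ω => pcC F c D w H 2 0 (n 2) ω ⟨0, by omega⟩) Y hx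
    fun ω ω' hω hω' e => by
      obtain ⟨a1, a2, a3⟩ := hY ω ω' hω hω' e
      have a4 : tct F w s ω = tct F w s ω' := by
        unfold tct
        rw [a2]
      unfold plC at a3
      rw [← a4] at a3
      have a5 := of_fl hc0 a3
      obtain ⟨Q, hQ⟩ : ∃ Q, Q = uPc F c D w n H ω - uPc F c D w n H ω' := ⟨_, rfl⟩
      have hQ1 : ∀ i, 1 ≤ i → Q.coeff i = 0 := by
        intro i hi
        rcases Nat.lt_or_ge (D + 1) i with h1 | h1
        · rw [hQ, Polynomial.coeff_sub,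
            Polynomial.coeff_eq_zero_of_natDegree_lt ((uPc_deg ω).trans_lt h1),
            Polynomial.coeff_eq_zero_of_natDegree_lt ((uPc_deg ω').trans_lt h1), sub_zero]
        · have h2 := congrFun a1 ⟨i, by omega⟩
          have h3 := cpl_coeff (2 ^ (n 2 * (J : ℝ))) (pcC F c D w H 2 0 (n 2) ω) ⟨i, by omega⟩
          have h4 := cpl_coeff (2 ^ (n 2 * (J : ℝ))) (pcC F c D w H 2 0 (n 2) ω') ⟨i, by omega⟩
          simp only at h3 h4
          rw [hQ, Polynomial.coeff_sub]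
          unfold uPc
          rw [h3, h4]
          unfold f1C pcC Pool.AVG71.cod at h2
          unfold pcC Pool.AVG71.cod
          dsimp only at h2 ⊢
          rw [if_pos hi, if_pos hi] at h2
          rw [if_pos (Nat.zero_le _), if_pos (Nat.zero_le _), h2, sub_self]
      have hQe : ∀ θ, Q.eval θ = Q.coeff 0 := by
        intro θ
        have h1 : Q.natDegree ≤ 0 := by
          rw [Polynomial.natDegree_le_iff_coeff_eq_zero]
          intro N hN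
          exact hQ1 N (by omega)
        rw [Polynomial.eq_C_of_natDegree_le_zero h1, Polynomial.eval_C, Polynomial.coeff_C_zero]
      rw [← Polynomial.eval_sub, ← hQ, hQe] at a5
      have h3 := cpl_coeff (2 ^ (n 2 * (J : ℝ))) (pcC F c D w H 2 0 (n 2) ω) ⟨0, by omega⟩
      have h4 := cpl_coeff (2 ^ (n 2 * (J : ℝ))) (pcC F c D w H 2 0 (n 2) ω') ⟨0, by omega⟩
      simp only at h3 h4
      have h5 : Q.coeff 0 = ((pcC F c D w H 2 0 (n 2) ω ⟨0, by omega⟩ : ℝ) -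
          pcC F c D w H 2 0 (n 2) ω' ⟨0, by omega⟩) / 2 ^ (n 2 * J) := by
        rw [hQ, Polynomial.coeff_sub]
        unfold uPc
        rw [h3, h4, sub_div]
      rw [h5, abs_div, abs_of_pos hn0, div_le_iff₀ hn0] at a5
      refine a5.trans (le_of_eq ?_)
      rw [one_div, ← Real.rpow_neg (by norm_num), ← Real.rpow_add (by norm_num)]
      congr 1
      ring
  refine h1.trans (h2.trans (le_of_eq ?_))
  rw [Real.log_rpow (by norm_num)]

/-- Fewer digits of a code. -/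
theorem pc_down {p : F.Ω → ℝ} (hp : IsLaw p) {s' s : ℝ} (hs : s' ≤ s) {Υ : Type} (Y : F.Ω → Υ)
    (hY : ∀ ω ω', 0 < p ω → 0 < p ω' → Y ω = Y ω' →
      pcC F c D w H 2 0 s ω = pcC F c D w H 2 0 s ω') :
    CH p (pcC F c D w H 2 0 s') Y ≤ (D + 2) * Real.log 6 := by
  have hJ0 : (0 : ℝ) ≤ J := Nat.cast_nonneg J
  have hs0 : (0 : ℝ) < 2 ^ (s * J) := Real.rpow_pos_of_pos (by norm_num) _
  have hs0' : (0 : ℝ) < 2 ^ (s' * J) := Real.rpow_pos_of_pos (by norm_num) _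
  have h1 : CH p (fun ω (a : Fin (D + 1 + 1)) => pcC F c D w H 2 0 s' ω a) Y ≤
      ∑ a : Fin (D + 1 + 1), CH p (fun ω => pcC F c D w H 2 0 s' ω a) Y :=
    Pool.KS3.CH_pi_le hp.nonneg _ Y
  refine h1.trans ((Finset.sum_le_sum (g := fun _ => Real.log 6) fun a _ => ?_).trans
    (le_of_eq ?_))
  · have h2 := CH_int hp (fun ω => pcC F c D w H 2 0 s' ω a) Y (x := 2) (by norm_num)
      fun ω ω' hω hω' e => by
        have a1 := opl_cf (w := w) (l := 2) (j₀ := 0) (D := D) (i := (a : ℕ)) (hY ω ω' hω hω' e)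
          (Nat.zero_le _) (by have := a.2; omega)
        rw [Polynomial.coeff_sub] at a1
        have e1 : ∀ ν, pcC F c D w H 2 0 s' ν a =
            ⌊(2 : ℝ) ^ (s' * J) * (Pool.NA36.opl F c w H 2 ν).coeff a⌋ := fun ν => by
          unfold pcC Pool.AVG71.cod
          rw [if_pos (Nat.zero_le _)]
          rfl
        rw [e1, e1]
        obtain ⟨x, hx⟩ : ∃ x, x = (Pool.NA36.opl F c w H 2 ω).coeff a := ⟨_, rfl⟩
        obtain ⟨y, hy⟩ : ∃ y, y = (Pool.NA36.opl F c w H 2 ω').coeff a := ⟨_, rfl⟩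
        rw [← hx, ← hy] at a1 ⊢
        have a2 : |(2 : ℝ) ^ (s' * J) * x - 2 ^ (s' * J) * y| ≤ 1 := by
          rw [← mul_sub, abs_mul, abs_of_pos hs0']
          refine (mul_le_mul_of_nonneg_left a1 hs0'.le).trans ?_
          rw [mul_one_div, div_le_one hs0]
          exact Real.rpow_le_rpow_of_exponent_le (by norm_num) (mul_le_mul_of_nonneg_right hs hJ0)
        have g1 := Int.floor_le ((2 : ℝ) ^ (s' * J) * x)
        have g2 := Int.lt_floor_add_one ((2 : ℝ) ^ (s' * J) * x)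
        have g3 := Int.floor_le ((2 : ℝ) ^ (s' * J) * y)
        have g4 := Int.lt_floor_add_one ((2 : ℝ) ^ (s' * J) * y)
        rw [abs_le] at a2 ⊢
        constructor <;> linarith [a2.1, a2.2]
    refine h2.trans (le_of_eq ?_)
    rw [← Real.log_mul (by norm_num) (by norm_num)]
    norm_num
  · rw [Finset.sum_const, Finset.card_univ, Fintype.card_fin, nsmul_eq_mul]
    push_cast
    ring

/-- **The near data given the orders `≥ 1` and the context.** -/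
theorem ell_cnt (hA : 0 < Pe F.p A) {t nt s nc e es : ℝ} (hnc : nc ≤ n 2)
    {κ : Type} (sc : F.Ω → κ)
    (hgg : CH (Pool.Agent.H49.Ent.cond F.p A True) (xg F A c D w n nc H)
      (xn F A c D w n nc H) ≤ e * J)
    (hsc : CH (Pool.Agent.H49.Ent.cond F.p A True) sc (xg F A c D w n nc H) ≤ es) :
    CH (Pool.Agent.H49.Ent.cond F.p A True) (ellC F A c D w n nc H sc)
      (fun ω => (f1C F c D w n H ω, xcC F A c D w t n nt s nc H ω)) ≤
      (n 2 - nc) * Real.log 2 * J + (e * J + es + Real.log 3 + (D + 2) * Real.log 6) := by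
  have hcl := isLaw_cond F.isLaw hA
  have h0 := hcl.nonneg
  obtain ⟨p, hp⟩ : ∃ p, p = Pool.Agent.H49.Ent.cond F.p A True := ⟨_, rfl⟩
  have hsup : ∀ ω, 0 < p ω → A ω := fun ω hω => by
    rw [hp] at hω
    exact of_cond_pos hω
  rw [← hp] at hcl h0 hgg hsc ⊢
  obtain ⟨Y, hY⟩ : ∃ Y, Y = fun ω => (f1C F c D w n H ω, xcC F A c D w t n nt s nc H ω) := ⟨_, rfl⟩
  rw [← hY]
  have hYe : ∀ ω ω', Y ω = Y ω' → f1C F c D w n H ω = f1C F c D w n H ω' ∧
      cR F A w ω = cR F A w ω' ∧ F.Z ω = F.Z ω' ∧ vpC F c D w n H ω = vpC F c D w n H ω' ∧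
      tcd F w s ω = tcd F w s ω' ∧ plC F c D w n s nc H ω = plC F c D w n s nc H ω' :=
    fun ω ω' e => by
      rw [hY] at e
      unfold xcC g0C at e
      simp only [Prod.mk.injEq] at e
      obtain ⟨e1, ⟨⟨⟨e2, e3⟩, e4, e5, e6⟩, e7, e8⟩⟩ := e
      exact ⟨e1, e2, e3, e4, e6, e8⟩
  have h1 := CH_le_add h0 (ellC F A c D w n nc H sc) (pcC F c D w H 2 0 (n 2)) Y
  have h2 := pl_cnt (F := F) (c := c) (D := D) (w := w) (n := n) (H := H) hcl (s := s) hnc Y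
    fun ω ω' _ _ e => ⟨(hYe ω ω' e).1, (hYe ω ω' e).2.2.2.2.1, (hYe ω ω' e).2.2.2.2.2⟩
  have h3 := CH_le_add h0 (ellC F A c D w n nc H sc) (x0 F A c D w n nc H)
    (fun ω => (pcC F c D w H 2 0 (n 2) ω, Y ω))
  have h4 : CH p (x0 F A c D w n nc H) (fun ω => (pcC F c D w H 2 0 (n 2) ω, Y ω)) ≤
      (D + 2) * Real.log 6 := by
    refine le_trans (CH_mono_left h0 (X' := pcC F c D w H 2 0 nc) fun ω ω' _ _ e => ?_)
      (pc_down hcl hnc (fun ω => (pcC F c D w H 2 0 (n 2) ω, Y ω)) fun ω ω' _ _ e =>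
        (Prod.ext_iff.1 e).1)
    obtain ⟨e1, e2⟩ := Prod.ext_iff.mp e
    obtain ⟨a1, a2, a3, a4, -, -⟩ := hYe ω ω' (Prod.ext_iff.1 e2).2
    have e1' : pcC F c D w H 2 0 nc ω = pcC F c D w H 2 0 nc ω' := e1
    unfold x0
    unfold vpC at a4
    unfold f1C at a1
    rw [a2, a3, a1, e1']
    refine Prod.ext rfl (Prod.ext ?_ rfl)
    exact a4
  have h5 : CH p (ellC F A c D w n nc H sc) (fun ω => (x0 F A c D w n nc H ω,
      (pcC F c D w H 2 0 (n 2) ω, Y ω))) ≤ CH p (ellC F A c D w n nc H sc)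
        (xn F A c D w n nc H) := CH_mono_cond h0 fun ω ω' _ _ e => by
    obtain ⟨e1, e2⟩ := Prod.ext_iff.mp e
    have e3 := (Prod.ext_iff.1 e2).1
    exact Prod.ext e1 e3
  have h6 : CH p (ellC F A c D w n nc H sc) (xn F A c D w n nc H) ≤ e * J + es := by
    have k1 := CH_le_add h0 (ellC F A c D w n nc H sc) (xg F A c D w n nc H)
      (xn F A c D w n nc H)
    have k2 : CH p (ellC F A c D w n nc H sc) (fun ω => (xg F A c D w n nc H ω,
        xn F A c D w n nc H ω)) ≤ CH p sc (xg F A c D w n nc H) := by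
      refine (CH_mono_left h0 (X' := sc) fun ω ω' _ _ e => ?_).trans
        (CH_mono_cond h0 fun ω ω' _ _ e => (Prod.ext_iff.1 e).1)
      obtain ⟨e1, e2⟩ := Prod.ext_iff.mp e
      obtain ⟨e3, e4⟩ := Prod.ext_iff.mp e2
      have e5 : pcC F c D w H 2 0 (n 2) ω = pcC F c D w H 2 0 (n 2) ω' := (Prod.ext_iff.1 e4).2
      have e1' : sc ω = sc ω' := e1
      have e3' : xg F A c D w n nc H ω = xg F A c D w n nc H ω' := e3
      unfold ellC
      rw [e1', e3', e5]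
    linarith
  have e1 : (n 2 - nc) * J * Real.log 2 = (n 2 - nc) * Real.log 2 * J := by ring
  linarith

/-- **The height is full over the parallel lines.** -/
theorem uf_low (hdeg : ∀ l ≤ 3, ∀ x, (H x l).totalDegree ≤ D) (hWJ : ⌊w * J⌋₊ ≤ J)
    (hA : 0 < Pe F.p A) {t' nc e : ℝ}
    (hfu : ((n 2 - nc) * Real.log 2 - e) * J ≤ CH (Pool.Agent.H49.Ent.cond F.p A True)
      (hgC F c w H 2 (n 2)) (fun ω => ((cR F A t' ω, F.W ω), x0 F A c D w n nc H ω))) :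
    (n 2 - nc) * Real.log 2 * J - (e * J + Real.log (6 * (D + 3))) ≤
      CH (Pool.Agent.H49.Ent.cond F.p A True) (ufC F c D w n H) (zrC F A c D w n t' nc H) := by
  have hcl := isLaw_cond F.isLaw hA
  have h0 := hcl.nonneg
  have hD0 : (0 : ℝ) ≤ D := Nat.cast_nonneg D
  have h1 := CH_le_add h0 (hgC F c w H 2 (n 2)) (ufC F c D w n H) (zrC F A c D w n t' nc H)
  have h2 := CH_int hcl (hgC F c w H 2 (n 2))
    (fun ω => (ufC F c D w n H ω, zrC F A c D w n t' nc H ω)) (x := 2 * ((D : ℝ) + 3)) (by linarith)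
    fun ω ω' _ _ e => by
      have e1 : ufC F c D w n H ω = ufC F c D w n H ω' := (Prod.ext_iff.1 e).1
      have a1 := ufC_hg (c := c) (D := D) (w := w) (n := n) (H := H) hdeg hWJ ω
      have a2 := ufC_hg (c := c) (D := D) (w := w) (n := n) (H := H) hdeg hWJ ω'
      rw [← e1] at a2
      rw [abs_le] at a1 a2 ⊢
      constructor <;> linarith [a1.1, a1.2, a2.1, a2.2]
  have h3 : Real.log (2 * ((D : ℝ) + 3)) + Real.log 3 = Real.log (6 * (D + 3)) := by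
    rw [← Real.log_mul (by positivity) (by norm_num)]
    congr 1
    ring
  have h4 : ((n 2 - nc) * Real.log 2 - e) * J = (n 2 - nc) * Real.log 2 * J - e * J := by ring
  have h5 : CH (Pool.Agent.H49.Ent.cond F.p A True)
      (hgC F c w H 2 (n 2)) (fun ω => ((cR F A t' ω, F.W ω), x0 F A c D w n nc H ω)) =
      CH (Pool.Agent.H49.Ent.cond F.p A True) (hgC F c w H 2 (n 2))
        (zrC F A c D w n t' nc H) := rfl
  linarith

/-- **The time of a star is few bits given its two lines.** -/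
theorem cross_few (hdeg : ∀ l ≤ 3, ∀ x, (H x l).totalDegree ≤ D) (hw0 : 0 ≤ w) (hWJ : ⌊w * J⌋₊ ≤ J)
    (hA : 0 < Pe F.p A) {t nt s s' β ε δ : ℝ} (hs' : 0 ≤ s')
    (hε : s' + (nt - (t - w)) ≤ n 2 + ε)
    (hbig : 2 * (((D : ℝ) + 2) ^ 2 + 2) ≤ 2 ^ ((n 2 - (nt - (t - w)) - β) * J))
    (hal : Pb (cpn (Pool.Agent.H49.Ent.cond F.p A True) (rX F A c D w t t n nt H) 1)
      (fun v => |ojet F (c 2) 1 (H (slam F ⌊w * J⌋₊ (v 1)) 2) (v 1) -
        ojet F (c 2) 1 (H (slam F ⌊w * J⌋₊ (v 0)) 2) (v 0)| < 2 ^ (-((nt - t + β) * J))) ≤ δ)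
    {Eℓ : Type} (ell : F.Ω → Eℓ) (hell : ∀ ω ω', A ω → A ω' → ell ω = ell ω' →
      pcC F c D w H 2 0 (n 2) ω = pcC F c D w H 2 0 (n 2) ω') :
    CH (cpn (Pool.Agent.H49.Ent.cond F.p A True) (rX F A c D w t t n nt H) 1)
      (fun v => tcd F w s' (v 1))
      (fun v => (ell (v 0), (slam F ⌊w * J⌋₊ (v 1), tct F w s (v 1)))) ≤
      Real.log 2 + (δ * Real.log (2 * (2 * 2 ^ (s' * J)) + 1) +
        Real.log (2 * (4 * (2 * D + 5) * 2 ^ ((β + ε) * J) + 1) + 1)) := by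
  classical
  have hcl := isLaw_cond F.isLaw hA
  obtain ⟨p, hp⟩ : ∃ p, p = Pool.Agent.H49.Ent.cond F.p A True := ⟨_, rfl⟩
  have hsup : ∀ ω, 0 < p ω → A ω := fun ω hω => by
    rw [hp] at hω
    exact of_cond_pos hω
  have hJ0 : (0 : ℝ) ≤ J := Nat.cast_nonneg J
  have hD0 : (0 : ℝ) ≤ D := Nat.cast_nonneg D
  rw [← hp] at hcl hal ⊢
  have hq := cpn_law hcl (rX F A c D w t t n nt H) 1
  have hpos := cpn_pos hcl.nonneg (rX F A c D w t t n nt H) 1
  have hs0 : (1 : ℝ) ≤ 2 ^ (s' * J) := Real.one_le_rpow (by norm_num) (mul_nonneg hs' hJ0)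
  have hn0 : (0 : ℝ) < 2 ^ (n 2 * J) := Real.rpow_pos_of_pos (by norm_num) _
  obtain ⟨bad, hbad⟩ : ∃ bad : (Fin (1 + 1) → F.Ω) → Prop, bad =
    fun v => |ojet F (c 2) 1 (H (slam F ⌊w * J⌋₊ (v 1)) 2) (v 1) -
        ojet F (c 2) 1 (H (slam F ⌊w * J⌋₊ (v 0)) 2) (v 0)| < 2 ^ (-((nt - t + β) * J)) := ⟨_, rfl⟩
  rw [← hbad] at hal
  -- one star
  obtain ⟨g, hg⟩ : ∃ g, g = nt - (t - w) + β := ⟨_, rfl⟩
  obtain ⟨δ₂, hδ₂⟩ : ∃ δ₂ : ℝ, δ₂ = 1 / 2 ^ (n 2 * J) := ⟨_, rfl⟩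
  have hδ₂0 : 0 < δ₂ := by rw [hδ₂]; positivity
  have hg0 : (0 : ℝ) < 2 ^ (-(g * J)) := Real.rpow_pos_of_pos (by norm_num) _
  have hstar : ∀ v, 0 < cpn p (rX F A c D w t t n nt H) 1 v → ¬ bad v →
      (∀ i, 2 ≤ i → (uPc F c D w n H (v 1) - uPc F c D w n H (v 0)).coeff i = 0) ∧
      |(uPc F c D w n H (v 1) - uPc F c D w n H (v 0)).eval (rt F ⌊w * J⌋₊ (v 1))| ≤
        (2 * D + 5) * δ₂ ∧
      2 ^ (-(g * J)) / 2 ≤ |(uPc F c D w n H (v 1) - uPc F c D w n H (v 0)).coeff 1| := by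
    intro v hv hb
    obtain ⟨a1, a2⟩ := hpos v hv
    obtain ⟨z1, z2, z3, z4, z5, z6, z7, z8⟩ := rX_part (a2 1)
    have zT : F.T (v 1) = F.T (v 0) := T_of_W z2
    refine ⟨fun i hi => uPc_two _ _ z4 hi, ?_, ?_⟩
    · rw [hδ₂]
      exact uPc_at (c := c) (D := D) (w := w) (n := n) hdeg hWJ zT z7
    · have k1 := uPc_one (c := c) (D := D) (w := w) (n := n) hdeg z4 (rt_abs (w := w) (v 1))
      have k2 : ∀ ω : F.Ω, jt (Pool.NA36.opl F c w H 2 ω) (rt F ⌊w * J⌋₊ ω) 1 =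
          ojet F (c 2) 1 (H (slam F ⌊w * J⌋₊ ω) 2) ω / 2 ^ ⌊w * J⌋₊ := fun ω => by
        have h1 := Pool.AVG57.ojet_tay F hWJ ω (c 2) (fun s (_ : Fin m) => H s 2) 1
        rw [Nat.factorial_one, Nat.cast_one, one_mul, pow_one] at h1
        exact h1
      have k3 := k2 (v 1)
      have k4 := k2 (v 0)
      rw [← rt_of_T (w := w) zT] at k4
      rw [k3, k4, ← sub_div] at k1
      rw [hbad] at hb
      simp only [not_lt] at hb
      obtain ⟨x, hx⟩ : ∃ x, x = ojet F (c 2) 1 (H (slam F ⌊w * J⌋₊ (v 1)) 2) (v 1) -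
        ojet F (c 2) 1 (H (slam F ⌊w * J⌋₊ (v 0)) 2) (v 0) := ⟨_, rfl⟩
      rw [← hx] at k1 hb
      have h2W : (0 : ℝ) < 2 ^ ⌊w * J⌋₊ := by positivity
      have k5 : 2 ^ (-(g * J)) ≤ |x / 2 ^ ⌊w * J⌋₊| := by
        rw [abs_div, abs_of_pos h2W, le_div_iff₀ h2W]
        refine le_trans ?_ hb
        have hwJ : (⌊w * (J : ℝ)⌋₊ : ℝ) ≤ w * J := Nat.floor_le (mul_nonneg hw0 hJ0)
        rw [← Real.rpow_natCast, ← Real.rpow_add (by norm_num)]
        refine Real.rpow_le_rpow_of_exponent_le (by norm_num) ?_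
        have e3 : -(g * J) = -((nt - t + β) * J) - w * J := by rw [hg]; ring
        rw [e3]
        linarith
      rw [← hδ₂] at k1
      have k6 : (((D : ℝ) + 2) ^ 2 + 2) * δ₂ ≤ 2 ^ (-(g * J)) / 2 := by
        have e1 : (2 : ℝ) ^ ((n 2 - (nt - (t - w)) - β) * J) = 2 ^ (-(g * J)) / δ₂ := by
          rw [hδ₂, div_div_eq_mul_div, div_one, ← Real.rpow_add (by norm_num), hg]
          congr 1
          ring
        rw [e1, le_div_iff₀ hδ₂0] at hbig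
        linarith
      have k7 : |x / 2 ^ ⌊w * J⌋₊| ≤ |(uPc F c D w n H (v 1) - uPc F c D w n H (v 0)).coeff 1| +
          (((D : ℝ) + 2) ^ 2 + 2) * δ₂ := by
        have e2 := abs_sub_abs_le_abs_sub (x / 2 ^ ⌊w * (J : ℝ)⌋₊)
          ((uPc F c D w n H (v 1) - uPc F c D w n H (v 0)).coeff 1)
        rw [abs_sub_comm] at e2
        linarith
      linarith
  have h1 := Pool.VS64.CH_near_off hq (fun v => tcd F w s' (v 1))
    (fun v => (ell (v 0), (slam F ⌊w * J⌋₊ (v 1), tct F w s (v 1)))) bad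
    (B := 2 ^ (s' * J)) (D := 4 * (2 * D + 5) * 2 ^ ((β + ε) * J) + 1) ?_ ?_
  · have h2 : 0 ≤ Real.log (2 * (2 * 2 ^ (s' * J)) + 1) := Real.log_nonneg (by
      have : (0 : ℝ) ≤ 2 ^ (s' * J) := by positivity
      linarith)
    have h3 : 0 ≤ Real.log (2 * (4 * (2 * D + 5) * 2 ^ ((β + ε) * J) + 1) + 1) :=
      Real.log_nonneg (by
        have : (0 : ℝ) ≤ 4 * (2 * D + 5) * 2 ^ ((β + ε) * J) := by positivity
        linarith)
    have h4 := mul_le_mul_of_nonneg_right hal h2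
    have h5 := mul_le_mul_of_nonneg_right (Pool.VS64.Pb_one_le hq (fun v => ¬ bad v)) h3
    linarith
  · intro v hv
    unfold tcd
    have a1 := rt_mem F ⌊w * J⌋₊ (v 1)
    obtain ⟨θ, hθ⟩ : ∃ θ, θ = rt F ⌊w * J⌋₊ (v 1) := ⟨_, rfl⟩
    rw [← hθ] at a1 ⊢
    have g1 := Int.floor_le ((2 : ℝ) ^ (s' * J) * θ)
    have g3 : (0 : ℤ) ≤ ⌊(2 : ℝ) ^ (s' * J) * θ⌋ := Int.floor_nonneg.2
      (mul_nonneg (by linarith) a1.1)
    have g4 : (0 : ℝ) ≤ (⌊(2 : ℝ) ^ (s' * J) * θ⌋ : ℝ) := by exact_mod_cast g3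
    have g5 : (2 : ℝ) ^ (s' * J) * θ ≤ 2 ^ (s' * J) * 1 :=
      mul_le_mul_of_nonneg_left a1.2 (by linarith)
    rw [abs_le]
    constructor <;> linarith
  · intro v v' hv hv' hb hb' e
    obtain ⟨e1, e2⟩ := Prod.ext_iff.1 e
    have e3 := (Prod.ext_iff.1 e2).1
    have e1' : ell (v 0) = ell (v' 0) := e1
    have e3' : slam F ⌊w * J⌋₊ (v 1) = slam F ⌊w * J⌋₊ (v' 1) := e3
    obtain ⟨a1, -⟩ := hpos v hv
    obtain ⟨a1', -⟩ := hpos v' hv'
    have hP0 : uPc F c D w n H (v 0) = uPc F c D w n H (v' 0) := by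
      unfold uPc
      rw [hell _ _ (hsup _ (a1 0)) (hsup _ (a1' 0)) e1']
    have hP1 : uPc F c D w n H (v 1) = uPc F c D w n H (v' 1) := uPc_slam e3'
    obtain ⟨b1, b2, b3⟩ := hstar v hv hb
    obtain ⟨-, b2', -⟩ := hstar v' hv' hb'
    rw [← hP0, ← hP1] at b2'
    have b4 := aff_eval b1 (rt F ⌊w * J⌋₊ (v 1)) (rt F ⌊w * J⌋₊ (v' 1))
    obtain ⟨Q, hQ⟩ : ∃ Q, Q = uPc F c D w n H (v 1) - uPc F c D w n H (v 0) := ⟨_, rfl⟩
    obtain ⟨θ, hθ⟩ : ∃ θ, θ = rt F ⌊w * J⌋₊ (v 1) := ⟨_, rfl⟩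
    obtain ⟨θ', hθ'⟩ : ∃ θ', θ' = rt F ⌊w * J⌋₊ (v' 1) := ⟨_, rfl⟩
    rw [← hQ] at b2 b2' b3 b4
    rw [← hθ] at b2 b4
    rw [← hθ'] at b2' b4
    have b5 : |Q.coeff 1| * |θ - θ'| ≤ 2 * ((2 * D + 5) * δ₂) := by
      rw [← abs_mul, ← b4]
      refine (abs_sub _ _).trans ?_
      linarith
    have b6 : 2 ^ (-(g * J)) / 2 * |θ - θ'| ≤ 2 * ((2 * D + 5) * δ₂) :=
      le_trans (mul_le_mul_of_nonneg_right b3 (abs_nonneg _)) b5
    have b7 : 2 ^ (s' * J) * |θ - θ'| ≤ 4 * (2 * D + 5) * 2 ^ ((β + ε) * J) := by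
      have k1 : |θ - θ'| ≤ 4 * (2 * D + 5) * (δ₂ / 2 ^ (-(g * J))) := by
        rw [mul_div_assoc', le_div_iff₀ hg0]
        linarith
      have k2 : (2 : ℝ) ^ (s' * J) * (δ₂ / 2 ^ (-(g * J))) ≤ 2 ^ ((β + ε) * J) := by
        rw [hδ₂, one_div, ← Real.rpow_neg (by norm_num), ← Real.rpow_sub (by norm_num),
          ← Real.rpow_add (by norm_num)]
        refine Real.rpow_le_rpow_of_exponent_le (by norm_num) ?_
        have : (s' - n 2 + g) * J ≤ (β + ε) * J := by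
          refine mul_le_mul_of_nonneg_right ?_ hJ0
          rw [hg]
          linarith
        linarith
      calc 2 ^ (s' * J) * |θ - θ'| ≤ 2 ^ (s' * J) * (4 * (2 * D + 5) * (δ₂ / 2 ^ (-(g * J)))) :=
            mul_le_mul_of_nonneg_left k1 (by linarith)
        _ = 4 * (2 * D + 5) * (2 ^ (s' * J) * (δ₂ / 2 ^ (-(g * J)))) := by ring
        _ ≤ _ := mul_le_mul_of_nonneg_left k2 (by positivity)
    have b8 : |(2 : ℝ) ^ (s' * J) * θ - 2 ^ (s' * J) * θ'| ≤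
        4 * (2 * D + 5) * 2 ^ ((β + ε) * J) := by
      rw [← mul_sub, abs_mul, abs_of_pos (by linarith : (0 : ℝ) < 2 ^ (s' * J))]
      exact b7
    show |((tcd F w s' (v 1) : ℤ) : ℝ) - tcd F w s' (v' 1)| ≤ _
    unfold tcd
    rw [← hθ, ← hθ']
    have g1 := Int.floor_le ((2 : ℝ) ^ (s' * J) * θ)
    have g2 := Int.lt_floor_add_one ((2 : ℝ) ^ (s' * J) * θ)
    have g3 := Int.floor_le ((2 : ℝ) ^ (s' * J) * θ')
    have g4 := Int.lt_floor_add_one ((2 : ℝ) ^ (s' * J) * θ')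
    rw [abs_le] at b8 ⊢
    constructor <;> linarith [b8.1, b8.2]

/-- The bound of the crossing time. -/
noncomputable def e5C (D J : ℕ) (s' β ε δ : ℝ) : ℝ :=
  Real.log 2 + (δ * Real.log (2 * (2 * 2 ^ (s' * J)) + 1) +
    Real.log (2 * (4 * (2 * D + 5) * 2 ^ ((β + ε) * J) + 1) + 1))

/-- The bound of the first order given the natural digits. -/
noncomputable def cFC (F : Fam m J) (A : F.Ω → Prop) (c : ℕ → Fin m) (D : ℕ) (w t : ℝ) (n : ℕ → ℝ)
    (nt : ℝ) (H : LnT F → ℕ → MvPolynomial (Option (Fin m)) ℝ) : ℝ :=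
  CH (Pool.Agent.H49.Ent.cond F.p A True) (f1C F c D w n H)
    (fun ω => ((cR F A w ω, F.Z ω), (vpC F c D w n H ω, (f2C F c D w n H ω, fbC F c w H t nt ω))))

/-- **The entropies of the star lemma.** -/
theorem sl_ent (hdeg : ∀ l ≤ 3, ∀ x, (H x l).totalDegree ≤ D) (hw0 : 0 ≤ w) (hWJ : ⌊w * J⌋₊ ≤ J)
    (hA : 0 < Pe F.p A)
    (hc : Pool.AJW.CfB F ⌊w * J⌋₊ 1 (c 2) A (fun x => x) (fun x => H x 2)) (hn2 : 0 ≤ n 2)
    {t nt s nc t' e ε β δ δ' es : ℝ} (hn : nt - (t - w) ≤ n 2) (hs : 0 ≤ s) (hnc : nc ≤ n 2)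
    (hx : nc ≤ nt - (t - w) + s + ε) (hx' : nt - (t - w) + s ≤ nc + ε)
    (hs1 : s + (n 2 - nc) ≤ 1 - w) {M : ℕ} (hM : 1 ≤ M) (hM1 : (M : ℝ) ≤ 2 ^ ((1 - w - s) * J))
    (hbig : 2 * (((D : ℝ) + 2) ^ 2 + 2) ≤ 2 ^ ((n 2 - (nt - (t - w)) - β) * J))
    {gd : F.Ω → Prop} (hgd : GdP F A c D w t n nt e δ H gd)
    (hal : Pb (cpn (Pool.Agent.H49.Ent.cond F.p A True) (rX F A c D w t t n nt H) 1)
      (fun v => |ojet F (c 2) 1 (H (slam F ⌊w * J⌋₊ (v 1)) 2) (v 1) -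
        ojet F (c 2) 1 (H (slam F ⌊w * J⌋₊ (v 0)) 2) (v 0)| < 2 ^ (-((nt - t + β) * J))) ≤ δ')
    (hf2 : cFC F A c D w t n nt H ≤ CH (Pool.Agent.H49.Ent.cond F.p A True) (f1C F c D w n H)
      (rX F A c D w t t n nt H) + e * J)
    (hfu : ((n 2 - nc) * Real.log 2 - e) * J ≤ CH (Pool.Agent.H49.Ent.cond F.p A True)
      (hgC F c w H 2 (n 2)) (fun ω => ((cR F A t' ω, F.W ω), x0 F A c D w n nc H ω)))
    (htm : ((1 - w) * Real.log 2 - e) * J ≤
      CH (Pool.Agent.H49.Ent.cond F.p A True) F.T (slam F ⌊w * J⌋₊))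
    {κ : Type} (sc : F.Ω → κ)
    (hgg : CH (Pool.Agent.H49.Ent.cond F.p A True) (xg F A c D w n nc H)
      (xn F A c D w n nc H) ≤ e * J)
    (hsc : CH (Pool.Agent.H49.Ent.cond F.p A True) sc (xg F A c D w n nc H) ≤ es)
    {Xd : ℕ} {g : ℝ} {cP : LnT F → Polynomial ℝ}
    (le : LnT F → _ × (Fin (D + 1 + 1) → ℤ)) (NR CR : _ × (Fin (D + 1 + 1) → ℤ) → Polynomial ℝ)
    (hle : ∀ ω, A ω → le (slam F ⌊w * J⌋₊ ω) = ellC F A c D w n nc H sc ω) :
    SlEnt (slF F c D Xd g w s n M H cP le NR CR) (Pool.Agent.H49.Ent.cond F.p A True)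
      (rX F A c D w t t n nt H) (zrC F A c D w n t' nc H) (f1C F c D w n H) (ufC F c D w n H)
      F.T (tcd F w (s + (n 2 - nc))) (xcC F A c D w t n nt s nc H) M
      (cFC F A c D w t n nt H) ((n 2 - nc) * Real.log 2 * J)
      (e * J + es + Real.log 3 + (D + 2) * Real.log 6) (e1C D J w t nt nc e ε (4 * δ)) (e * J)
      (e * J + Real.log (6 * (D + 3))) (e * J + 2 * Real.log 6)
      (e5C D J (s + (n 2 - nc)) β ε δ') (e * J + 3 * Real.log 6) := by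
  classical
  have hcl := isLaw_cond F.isLaw hA
  have h0 := hcl.nonneg
  have hsup : ∀ ω, 0 < Pool.Agent.H49.Ent.cond F.p A True ω → A ω := fun ω hω => of_cond_pos hω
  obtain ⟨X, hX⟩ : ∃ X, X = slF F c D Xd g w s n M H cP le NR CR := ⟨_, rfl⟩
  have hXl : X.l = slam F ⌊w * J⌋₊ := by rw [hX]; rfl
  have hXc : X.c0 = tct F w s := by rw [hX]; rfl
  have hXt : X.t = tdg F w s M := by rw [hX]; rfl
  have hXe : ∀ ω, A ω → X.ell ω = ellC F A c D w n nc H sc ω := fun ω hω => by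
    rw [hX]
    exact hle ω hω
  have hee : ∀ ω ω', A ω → A ω' → X.ell ω = X.ell ω' →
      f1C F c D w n H ω = f1C F c D w n H ω' ∧
      pcC F c D w H 2 0 (n 2) ω = pcC F c D w H 2 0 (n 2) ω' := fun ω ω' hω hω' h => by
    rw [hXe ω hω, hXe ω' hω'] at h
    unfold ellC xg xn x0 at h
    simp only [Prod.mk.injEq] at h
    obtain ⟨⟨⟨⟨⟨-, -, h1, -⟩, -⟩, -⟩, -⟩, h2⟩ := h
    exact ⟨h1, h2⟩
  rw [← hX]
  refine ⟨?_, ?_, ?_, ?_, ?_, ?_, ?_, ?_, ?_, ?_, ?_, ?_, ?_, ?_, ?_, ?_⟩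
  · -- zct
    intro ω ω' _ _ h
    obtain ⟨-, h2, -⟩ := rX_part h
    rw [hXc, hXt]
    exact Prod.ext (tct_of_T (T_of_W h2)) (tdg_of_T (T_of_W h2))
  · -- zf
    exact fun ω ω' _ _ h => (zr_part h).2.2.2.2.1
  · -- ef
    exact fun ω ω' hω hω' h => (hee ω ω' (hsup _ hω) (hsup _ hω') h).1
  · -- eu
    intro ω ω' hω hω' h
    have h1 := Prod.ext_iff.1 h
    have h2 := (hee ω ω' (hsup _ hω) (hsup _ hω') h1.1).2
    have h3 : F.T ω = F.T ω' := h1.2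
    unfold ufC uPc
    rw [h2, rt_of_T h3]
  · exact fun ω ω' _ _ h => T_of_W (rX_part h).2.1
  · exact fun ω ω' _ _ h => T_of_W (zr_part h).2.1
  · -- h0
    refine CH_mono_cond h0 fun ω ω' _ _ h => ?_
    unfold xcC g0C at h
    simp only [Prod.mk.injEq] at h ⊢
    obtain ⟨⟨⟨h1, h2⟩, h3, h4, -⟩, h5, -⟩ := h
    exact ⟨⟨h1, h2⟩, h3, h4, h5⟩
  · -- h1
    refine le_trans (CH_mono_left h0 (X' := ellC F A c D w n nc H sc) fun ω ω' hω hω' h => ?_)
      (ell_cnt hA hnc sc hgg hsc)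
    rw [hXe ω (hsup _ hω), hXe ω' (hsup _ hω')]
    exact (Prod.ext_iff.1 h).1
  · -- h2
    intro v hv
    rw [hXl, hXc]
    exact xc_slN hdeg hWJ hA hc hn2 hn hs hnc hx hgd (2 * D + 1) v hv
  · -- h3
    linarith
  · -- h4
    exact uf_low hdeg hWJ hA hfu
  · -- h5
    rw [hXl, hXc]
    have h1 := tcd_low hWJ hA hs hs1 htm
    have e1 : (s + (n 2 - nc) - s) * J * Real.log 2 = (n 2 - nc) * Real.log 2 * J := by ring
    rw [e1] at h1
    exact h1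
  · -- h6
    rw [hXl, hXc]
    refine cross_few hdeg hw0 hWJ hA (by linarith) (by linarith) hbig hal X.ell
      fun ω ω' hω hω' h => (hee ω ω' hω hω' h).2
  · rw [hXl, hXc, hXt]
    exact tdg_low hWJ hA hs hM hM1 htm
  · intro ω _
    rw [hXt]
    have h1 := (Pool.SL77.slF_time (F := F) (c := c) (D := D) (Xd := Xd) (g := g) (w := w) (s := s)
      (n := n) (M := M) hM (H := H) (cP := cP) (le := le) (NR := NR) (CR := CR) ω).2
    rw [abs_le]
    constructor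
    · have h2 : (0 : ℤ) ≤ (M : ℤ) := Int.natCast_nonneg M
      linarith [h1.1]
    · exact h1.2
  · intro ω _
    rw [hXc]
    exact tct_abs s ω

end

end Pool.NA13
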