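import Pool.Agent.H13.NA.Ent

/-!
# Two samples over one record, at a time near the true one

`jt_move`, `ev_move`: Taylor coefficients at a near time. `gen_at`, `gen_jt`: the coded paths and the
Taylor coefficients of two samples over the record of a general pair, at a near time. `star_at`,
`star_jt`: the same over the record of a pair, where the difference of the paths is affine.
-/

set_option autoImplicit false

namespace Pool.NA13

open Finset Real MvPolynomial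
open Pool.Agent.H49.Ent Pool.Agent.H32.Dense Pool.STK Pool.KA Pool.KSAT Pool.K2S Pool.PB Pool.GEN
open Pool.S6C Pool.RCD Pool.LA91 Pool.OWN68 Pool.CHT
open Pool.BFL (Pb)
open Pool.STB (Pb_mono Pb_or)
open Pool.V0F (cR mx_cR)
open Pool.CLU (cpn_law cpn_pos cpn_marg)
open Pool.NDC42 (hgC pcC x0 xn xg rP LbW)
open Pool.PB.Trl (rt rt_mem)
open Pool.AVG5 (jt jt_le jt_sub jt_sum of_fl)
open Pool.NA36 (vpC f1C f2C opl tcd tct jaC fbC jbC X0 rX rG NaE NaT opl_deg opl_cf cf_one)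
open Pool.SL77 (tdg cpl cpl_deg cpl_coeff)

theorem jt_tay (P : Polynomial ℝ) (θ θ' : ℝ) (a : ℕ) :
    jt P θ' a = jt (Polynomial.taylor θ P) (θ' - θ) a := by
  unfold jt
  rw [Polynomial.taylor_taylor, sub_add_cancel]

/-- **Taylor coefficients at a near time.** -/
theorem jt_move {K : ℕ} {P : Polynomial ℝ} (hP : P.natDegree ≤ K) {θ θ' X Y r : ℝ} (hX : 0 ≤ X)
    (hY : 0 ≤ Y) (hr : |θ' - θ| ≤ r) (hYr : Y * r ≤ 1) (h : ∀ i, |jt P θ i| ≤ X * Y ^ i) (a : ℕ) :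
    |jt P θ' a| ≤ 2 ^ (K + 1) * (X * Y ^ a) := by
  have hr0 : 0 ≤ r := (abs_nonneg _).trans hr
  rw [jt_tay P θ θ' a, jt_sum (K := K) (by rw [Polynomial.natDegree_taylor]; exact hP)]
  refine (Finset.abs_sum_le_sum_abs _ _).trans ?_
  have h1 : ∀ i ∈ Icc a K, |(i.choose a : ℝ) * (Polynomial.taylor θ P).coeff i *
      (θ' - θ) ^ (i - a)| ≤ (i.choose a : ℝ) * (X * Y ^ a) := by
    intro i hi
    rw [mem_Icc] at hi
    have e1 : (0 : ℝ) ≤ (i.choose a : ℝ) := Nat.cast_nonneg _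
    rw [abs_mul, abs_mul, abs_of_nonneg e1, abs_pow, mul_assoc]
    refine mul_le_mul_of_nonneg_left ?_ e1
    have e2 : |(Polynomial.taylor θ P).coeff i| ≤ X * Y ^ i := h i
    have e3 : |θ' - θ| ^ (i - a) ≤ r ^ (i - a) := pow_le_pow_left₀ (abs_nonneg _) hr _
    have e4 : X * Y ^ i * r ^ (i - a) = X * Y ^ a * (Y * r) ^ (i - a) := by
      have e5 : Y ^ i = Y ^ a * Y ^ (i - a) := by
        rw [← pow_add]
        congr 1
        omega
      rw [e5, mul_pow]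
      ring
    calc |(Polynomial.taylor θ P).coeff i| * |θ' - θ| ^ (i - a) ≤ (X * Y ^ i) * r ^ (i - a) :=
          mul_le_mul e2 e3 (by positivity) (by positivity)
      _ = X * Y ^ a * (Y * r) ^ (i - a) := e4
      _ ≤ X * Y ^ a * 1 :=
          mul_le_mul_of_nonneg_left (pow_le_one₀ (by positivity) hYr) (by positivity)
      _ = _ := mul_one _
  refine (Finset.sum_le_sum h1).trans ?_
  rw [← Finset.sum_mul]
  refine mul_le_mul_of_nonneg_right ?_ (by positivity)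
  have h2 : ∑ i ∈ Icc a K, i.choose a = (K + 1).choose (a + 1) := Nat.sum_Icc_choose K a
  have h3 : (K + 1).choose (a + 1) ≤ 2 ^ (K + 1) := Nat.choose_le_two_pow _ _
  have h4 : ∑ i ∈ Icc a K, (i.choose a : ℝ) = ((∑ i ∈ Icc a K, i.choose a : ℕ) : ℝ) := by
    push_cast
    rfl
  rw [h4, h2]
  exact_mod_cast h3

/-- The value at a near time. -/
theorem ev_move {K : ℕ} {P : Polynomial ℝ} (hP : P.natDegree ≤ K) {θ θ' X Y r : ℝ} (hX : 0 ≤ X)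
    (hY : 0 ≤ Y) (hr : |θ' - θ| ≤ r) (hYr : Y * r ≤ 1) (h : ∀ i, |jt P θ i| ≤ X * Y ^ i) :
    |P.eval θ' - P.eval θ| ≤ K * (X * (Y * r)) := by
  have hr0 : 0 ≤ r := (abs_nonneg _).trans hr
  have h1 : P.eval θ' = (Polynomial.taylor θ P).eval (θ' - θ) := by
    rw [Polynomial.taylor_eval, sub_add_cancel]
  have h2 : P.eval θ = (Polynomial.taylor θ P).coeff 0 := (Polynomial.taylor_coeff_zero θ P).symm
  rw [h1, h2, Polynomial.eval_eq_sum_range' (n := K + 1)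
    (by rw [Polynomial.natDegree_taylor]; omega), Finset.sum_range_succ', pow_zero, mul_one,
    add_sub_cancel_right]
  refine (Finset.abs_sum_le_sum_abs _ _).trans ?_
  have h3 : ∀ i ∈ range K, |(Polynomial.taylor θ P).coeff (i + 1) * (θ' - θ) ^ (i + 1)| ≤
      X * (Y * r) := by
    intro i _
    rw [abs_mul, abs_pow]
    have e2 : |(Polynomial.taylor θ P).coeff (i + 1)| ≤ X * Y ^ (i + 1) := h (i + 1)
    have e3 : |θ' - θ| ^ (i + 1) ≤ r ^ (i + 1) := pow_le_pow_left₀ (abs_nonneg _) hr _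
    calc |(Polynomial.taylor θ P).coeff (i + 1)| * |θ' - θ| ^ (i + 1) ≤
          (X * Y ^ (i + 1)) * r ^ (i + 1) := mul_le_mul e2 e3 (by positivity) (by positivity)
      _ = X * (Y * r) * (Y * r) ^ i := by
          rw [mul_assoc, ← mul_pow, pow_succ]
          ring
      _ ≤ X * (Y * r) * 1 :=
          mul_le_mul_of_nonneg_left (pow_le_one₀ (by positivity) hYr) (by positivity)
      _ = _ := mul_one _
  refine (Finset.sum_le_sum h3).trans (le_of_eq ?_)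
  rw [Finset.sum_const, Finset.card_range, nsmul_eq_mul]

variable {m J : ℕ}

section

variable {F : Fam m J} {A : F.Ω → Prop} {c : ℕ → Fin m} {D : ℕ} {w : ℝ} {n : ℕ → ℝ}
  {H : LnT F → ℕ → MvPolynomial (Option (Fin m)) ℝ}

/-- The closeness of a general pair as a bound of the Taylor coefficients of the difference. -/
theorem gen_h {ω ω' : F.Ω} {t nt e : ℝ}
    (hj : ∀ j : ℕ, |jt (opl F c w H 2 ω) (rt F ⌊w * J⌋₊ ω) j -
      jt (opl F c w H 2 ω') (rt F ⌊w * J⌋₊ ω) j| ≤ 2 ^ (-((nt - (j : ℝ) * (t - w) - e) * J))) :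
    ∀ i, |jt (opl F c w H 2 ω - opl F c w H 2 ω') (rt F ⌊w * J⌋₊ ω) i| ≤
      2 ^ (-((nt - e) * J)) * (2 ^ ((t - w) * J)) ^ i := fun i => by
  rw [jt_sub]
  refine (hj i).trans (le_of_eq ?_)
  rw [← Real.rpow_natCast, ← Real.rpow_mul (by norm_num), ← Real.rpow_add (by norm_num)]
  congr 1
  ring

/-- **A general pair**: the coded paths at a near time. -/
theorem gen_at (hdeg : ∀ l ≤ 3, ∀ x, (H x l).totalDegree ≤ D) (hWJ : ⌊w * J⌋₊ ≤ J) {ω ω' : F.Ω}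
    (hT : F.T ω = F.T ω') (hh : hgC F c w H 2 (n 2) ω = hgC F c w H 2 (n 2) ω') {t nt e x r : ℝ}
    (hx : |x| ≤ 1) (hr : |x - rt F ⌊w * J⌋₊ ω| ≤ r) (hYr : 2 ^ ((t - w) * J) * r ≤ 1)
    (hj : ∀ j : ℕ, |jt (opl F c w H 2 ω) (rt F ⌊w * J⌋₊ ω) j -
      jt (opl F c w H 2 ω') (rt F ⌊w * J⌋₊ ω) j| ≤ 2 ^ (-((nt - (j : ℝ) * (t - w) - e) * J))) :
    |(uPc F c D w n H ω - uPc F c D w n H ω').eval x| ≤ (2 * D + 5) * (1 / 2 ^ (n 2 * J)) +
      (D + 1) * (2 ^ (-((nt - e) * J)) * (2 ^ ((t - w) * J) * r)) := by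
  have h1 := uPc_near (c := c) (D := D) (w := w) (n := n) hdeg ω hx
  have h2 := uPc_near (c := c) (D := D) (w := w) (n := n) hdeg ω' hx
  have h3 := hg_eq hWJ hh
  rw [← rt_of_T (w := w) hT] at h3
  have h4 := ev_move (K := D + 1) (P := opl F c w H 2 ω - opl F c w H 2 ω')
    ((Polynomial.natDegree_sub_le _ _).trans (max_le (opl_deg hdeg (by norm_num) ω)
      (opl_deg hdeg (by norm_num) ω'))) (X := 2 ^ (-((nt - e) * J))) (Y := 2 ^ ((t - w) * J))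
    (by positivity) (by positivity) hr hYr (gen_h hj)
  rw [Polynomial.eval_sub, Polynomial.eval_sub] at h4
  push_cast at h4
  rw [Polynomial.eval_sub]
  rw [abs_le] at h1 h2 h3 h4 ⊢
  constructor <;> linarith [h1.1, h1.2, h2.1, h2.2, h3.1, h3.2, h4.1, h4.2]

/-- A general pair: the Taylor coefficients at a near time. -/
theorem gen_jt (hdeg : ∀ l ≤ 3, ∀ x, (H x l).totalDegree ≤ D) {ω ω' : F.Ω} {t nt e x r : ℝ}
    (hr : |x - rt F ⌊w * J⌋₊ ω| ≤ r) (hYr : 2 ^ ((t - w) * J) * r ≤ 1)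
    (hj : ∀ j : ℕ, |jt (opl F c w H 2 ω) (rt F ⌊w * J⌋₊ ω) j -
      jt (opl F c w H 2 ω') (rt F ⌊w * J⌋₊ ω) j| ≤ 2 ^ (-((nt - (j : ℝ) * (t - w) - e) * J)))
    (a : ℕ) :
    2 ^ ((nt - (a : ℝ) * (t - w)) * J) * |jt (opl F c w H 2 ω) x a - jt (opl F c w H 2 ω') x a| ≤
      2 ^ (D + 2) * 2 ^ (e * J) := by
  have h4 := jt_move (K := D + 1) (P := opl F c w H 2 ω - opl F c w H 2 ω')
    ((Polynomial.natDegree_sub_le _ _).trans (max_le (opl_deg hdeg (by norm_num) ω)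
      (opl_deg hdeg (by norm_num) ω'))) (X := 2 ^ (-((nt - e) * J))) (Y := 2 ^ ((t - w) * J))
    (by positivity) (by positivity) hr hYr (gen_h hj) a
  rw [jt_sub] at h4
  have h5 : (0 : ℝ) ≤ 2 ^ ((nt - (a : ℝ) * (t - w)) * J) := (Real.rpow_pos_of_pos (by norm_num) _).le
  refine (mul_le_mul_of_nonneg_left h4 h5).trans (le_of_eq ?_)
  have h6 : (2 : ℝ) ^ ((nt - (a : ℝ) * (t - w)) * J) * (2 ^ (-((nt - e) * J)) *
      (2 ^ ((t - w) * J)) ^ a) = 2 ^ (e * J) := by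
    rw [← Real.rpow_natCast, ← Real.rpow_mul (by norm_num), ← Real.rpow_add (by norm_num),
      ← Real.rpow_add (by norm_num)]
    congr 1
    ring
  calc (2 : ℝ) ^ ((nt - (a : ℝ) * (t - w)) * J) * (2 ^ (D + 1 + 1) * (2 ^ (-((nt - e) * J)) *
      (2 ^ ((t - w) * J)) ^ a)) = 2 ^ (D + 1 + 1) * (2 ^ ((nt - (a : ℝ) * (t - w)) * J) *
        (2 ^ (-((nt - e) * J)) * (2 ^ ((t - w) * J)) ^ a)) := by ring
    _ = _ := by rw [h6]

/-- **A pair**: the coded paths at a near time. -/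
theorem star_at (hdeg : ∀ l ≤ 3, ∀ x, (H x l).totalDegree ≤ D) (hWJ : ⌊w * J⌋₊ ≤ J) {ω ω' : F.Ω}
    (hT : F.T ω = F.T ω') (hh : hgC F c w H 2 (n 2) ω = hgC F c w H 2 (n 2) ω')
    (hf : f2C F c D w n H ω = f2C F c D w n H ω') {s nc g ε x : ℝ} (hs : 0 ≤ s) (hnc : nc ≤ n 2)
    (hxs : |x - rt F ⌊w * J⌋₊ ω| ≤ 2 * (1 / 2 ^ (s * J)))
    (hj : |jt (opl F c w H 2 ω) (rt F ⌊w * J⌋₊ ω) 1 - jt (opl F c w H 2 ω') (rt F ⌊w * J⌋₊ ω) 1| ≤
      2 ^ (-(g * J))) (hx : nc ≤ g + s + ε) :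
    (2 : ℝ) ^ (nc * J) * |(uPc F c D w n H ω - uPc F c D w n H ω').eval x| ≤
      2 * 2 ^ (ε * J) + 8 * ((D : ℝ) + 2) ^ 2 := by
  have hJ0 : (0 : ℝ) ≤ J := Nat.cast_nonneg J
  have hn0 : (0 : ℝ) < 2 ^ (n 2 * J) := Real.rpow_pos_of_pos (by norm_num) _
  have hc0 : (0 : ℝ) < 2 ^ (nc * J) := Real.rpow_pos_of_pos (by norm_num) _
  have hs1 : (1 : ℝ) ≤ 2 ^ (s * J) := Real.one_le_rpow (by norm_num) (mul_nonneg hs hJ0)
  have hD0 : (0 : ℝ) ≤ D := Nat.cast_nonneg D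
  have hcn : (2 : ℝ) ^ (nc * J) * (1 / 2 ^ (n 2 * J)) ≤ 1 := by
    rw [mul_one_div, div_le_one hn0]
    exact Real.rpow_le_rpow_of_exponent_le (by norm_num) (mul_le_mul_of_nonneg_right hnc hJ0)
  have h1 := uPc_at (c := c) (D := D) (w := w) (n := n) hdeg hWJ hT hh
  have h2 := uPc_one (c := c) (D := D) (w := w) (n := n) hdeg hf (rt_abs (w := w) ω)
  have h3 := aff_eval (fun i hi => uPc_two (F := F) (c := c) (D := D) (w := w) (n := n) (H := H)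
    ω ω' hf hi) x (rt F ⌊w * J⌋₊ ω)
  obtain ⟨Q, hQ⟩ : ∃ Q, Q = uPc F c D w n H ω - uPc F c D w n H ω' := ⟨_, rfl⟩
  rw [← hQ] at h1 h2 h3 ⊢
  obtain ⟨δ, hδ⟩ : ∃ δ : ℝ, δ = 1 / 2 ^ (n 2 * J) := ⟨_, rfl⟩
  rw [← hδ] at h1 h2 hcn
  have hδ0 : 0 < δ := by rw [hδ]; positivity
  have h5 : |Q.coeff 1| ≤ 2 ^ (-(g * J)) + (((D : ℝ) + 2) ^ 2 + 2) * δ := by
    rw [abs_le] at h2 hj ⊢
    constructor <;> linarith [h2.1, h2.2, hj.1, hj.2]
  have h7 : |Q.eval x| ≤ (2 * D + 5) * δ +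
      (2 ^ (-(g * J)) + (((D : ℝ) + 2) ^ 2 + 2) * δ) * (2 * (1 / 2 ^ (s * J))) := by
    have e1 : Q.eval x = Q.eval (rt F ⌊w * J⌋₊ ω) +
        Q.coeff 1 * (x - rt F ⌊w * J⌋₊ ω) := by linarith
    rw [e1]
    refine (abs_add_le _ _).trans (add_le_add h1 ?_)
    rw [abs_mul]
    exact mul_le_mul h5 hxs (abs_nonneg _) (by positivity)
  refine (mul_le_mul_of_nonneg_left h7 hc0.le).trans ?_
  have k1 : (2 : ℝ) ^ (nc * J) * ((2 * D + 5) * δ) ≤ (2 * D + 5) * 1 := by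
    calc (2 : ℝ) ^ (nc * J) * ((2 * D + 5) * δ) = (2 * D + 5) * (2 ^ (nc * J) * δ) := by ring
      _ ≤ _ := mul_le_mul_of_nonneg_left hcn (by positivity)
  have k2 : (2 : ℝ) ^ (nc * J) * (2 ^ (-(g * J)) * (1 / 2 ^ (s * J))) ≤ 2 ^ (ε * J) := by
    rw [one_div, ← Real.rpow_neg (by norm_num), ← Real.rpow_add (by norm_num),
      ← Real.rpow_add (by norm_num)]
    refine Real.rpow_le_rpow_of_exponent_le (by norm_num) ?_
    have : (nc - g - s) * J ≤ ε * J := mul_le_mul_of_nonneg_right (by linarith) hJ0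
    linarith
  have k3 : (2 : ℝ) ^ (nc * J) * ((((D : ℝ) + 2) ^ 2 + 2) * δ * (1 / 2 ^ (s * J))) ≤
      (((D : ℝ) + 2) ^ 2 + 2) * 1 := by
    have k4 : (1 : ℝ) / 2 ^ (s * J) ≤ 1 := by rw [div_le_one (by positivity)]; exact hs1
    calc (2 : ℝ) ^ (nc * J) * ((((D : ℝ) + 2) ^ 2 + 2) * δ * (1 / 2 ^ (s * J))) =
        (((D : ℝ) + 2) ^ 2 + 2) * ((2 ^ (nc * J) * δ) * (1 / 2 ^ (s * J))) := by ring
      _ ≤ (((D : ℝ) + 2) ^ 2 + 2) * (1 * 1) := by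
          refine mul_le_mul_of_nonneg_left ?_ (by positivity)
          exact mul_le_mul hcn k4 (by positivity) zero_le_one
      _ = _ := by ring
  have e2 : (2 : ℝ) ^ (nc * J) * ((2 * D + 5) * δ +
      (2 ^ (-(g * J)) + (((D : ℝ) + 2) ^ 2 + 2) * δ) * (2 * (1 / 2 ^ (s * J)))) =
      2 ^ (nc * J) * ((2 * D + 5) * δ) + 2 * (2 ^ (nc * J) * (2 ^ (-(g * J)) * (1 / 2 ^ (s * J)))) +
      2 * (2 ^ (nc * J) * ((((D : ℝ) + 2) ^ 2 + 2) * δ * (1 / 2 ^ (s * J)))) := by ring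
  rw [e2]
  have e3 : (2 * (D : ℝ) + 5) * 1 + 2 * ((((D : ℝ) + 2) ^ 2 + 2) * 1) ≤ 8 * ((D : ℝ) + 2) ^ 2 := by
    nlinarith
  linarith

/-- A pair: the Taylor coefficients at another time. -/
theorem star_jt (hdeg : ∀ l ≤ 3, ∀ x, (H x l).totalDegree ≤ D) {ω ω' : F.Ω}
    (hf : f2C F c D w n H ω = f2C F c D w n H ω') {t nt e θ x : ℝ} (hθ : |θ| ≤ 1) (hx : |x| ≤ 1)
    (hn : nt - (t - w) ≤ n 2) (htw : w ≤ t)
    (hj : |jt (opl F c w H 2 ω) θ 1 - jt (opl F c w H 2 ω') θ 1| ≤ 2 ^ (-((nt - (t - w) - e) * J)))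
    {a : ℕ} (ha : 1 ≤ a) :
    2 ^ ((nt - (a : ℝ) * (t - w)) * J) * |jt (opl F c w H 2 ω) x a - jt (opl F c w H 2 ω') x a| ≤
      2 ^ (e * J) + 2 * ((D : ℝ) + 2) ^ 2 + 2 ^ (D + 2) := by
  have hJ0 : (0 : ℝ) ≤ J := Nat.cast_nonneg J
  have hD0 : (0 : ℝ) ≤ D := Nat.cast_nonneg D
  have hn0 : (0 : ℝ) < 2 ^ (n 2 * J) := Real.rpow_pos_of_pos (by norm_num) _
  have hp : (0 : ℝ) ≤ 2 ^ ((nt - (a : ℝ) * (t - w)) * J) :=
    (Real.rpow_pos_of_pos (by norm_num) _).le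
  have ha' : (1 : ℝ) ≤ a := by exact_mod_cast ha
  have hle : nt - (a : ℝ) * (t - w) ≤ nt - (t - w) := by
    have : 0 ≤ ((a : ℝ) - 1) * (t - w) := mul_nonneg (by linarith) (by linarith)
    linarith
  have hcn : (2 : ℝ) ^ ((nt - (a : ℝ) * (t - w)) * J) * (1 / 2 ^ (n 2 * J)) ≤ 1 := by
    rw [mul_one_div, div_le_one hn0]
    exact Real.rpow_le_rpow_of_exponent_le (by norm_num)
      (mul_le_mul_of_nonneg_right (hle.trans hn) hJ0)
  have he0 : (0 : ℝ) < 2 ^ (e * J) := Real.rpow_pos_of_pos (by norm_num) _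
  have h2D : (0 : ℝ) < 2 ^ (D + 2) := by positivity
  obtain ⟨δ, hδ⟩ : ∃ δ : ℝ, δ = 1 / 2 ^ (n 2 * J) := ⟨_, rfl⟩
  rcases Nat.lt_or_ge 1 a with h1 | h1
  · -- orders `≥ 2`
    have h2 : |jt (opl F c w H 2 ω - opl F c w H 2 ω') x a| ≤ 2 ^ (D + 1 + 1) * δ := by
      refine jt_le ((Polynomial.natDegree_sub_le _ _).trans (max_le (opl_deg hdeg (by norm_num) ω)
        (opl_deg hdeg (by norm_num) ω'))) hx (by rw [hδ]; positivity) fun i hi => ?_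
      rcases Nat.lt_or_ge (D + 1) i with h3 | h3
      · rw [Polynomial.coeff_eq_zero_of_natDegree_lt, abs_zero]
        · rw [hδ]; positivity
        · exact lt_of_le_of_lt ((Polynomial.natDegree_sub_le _ _).trans
            (max_le (opl_deg hdeg (by norm_num) ω) (opl_deg hdeg (by norm_num) ω'))) h3
      · rw [hδ]
        exact opl_cf (j₀ := 2) (l := 2) (D := D) hf (by omega) h3
    rw [jt_sub] at h2
    rw [← hδ] at hcn
    refine (mul_le_mul_of_nonneg_left h2 hp).trans ?_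
    calc (2 : ℝ) ^ ((nt - (a : ℝ) * (t - w)) * J) * (2 ^ (D + 1 + 1) * δ) =
        2 ^ (D + 2) * (2 ^ ((nt - (a : ℝ) * (t - w)) * J) * δ) := by ring
      _ ≤ 2 ^ (D + 2) * 1 := mul_le_mul_of_nonneg_left hcn h2D.le
      _ ≤ _ := by nlinarith [sq_nonneg ((D : ℝ) + 2)]
  · -- order `1`
    have ha1 : a = 1 := by omega
    subst ha1
    rw [Nat.cast_one, one_mul] at hcn hp ⊢
    have h2 := cf_one (w := w) (n := n) hdeg hf hθ
    have h3 := cf_one (w := w) (n := n) hdeg hf hx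
    rw [← hδ] at hcn h2 h3
    have h4 : |jt (opl F c w H 2 ω) x 1 - jt (opl F c w H 2 ω') x 1| ≤
        2 ^ (-((nt - (t - w) - e) * J)) + 2 * (((D : ℝ) + 2) ^ 2 * δ) := by
      rw [abs_le] at h2 h3 hj ⊢
      constructor <;> linarith [h2.1, h2.2, h3.1, h3.2, hj.1, hj.2]
    refine (mul_le_mul_of_nonneg_left h4 hp).trans ?_
    have h5 : (2 : ℝ) ^ ((nt - (t - w)) * J) * 2 ^ (-((nt - (t - w) - e) * J)) = 2 ^ (e * J) := by
      rw [← Real.rpow_add (by norm_num)]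
      congr 1
      ring
    calc (2 : ℝ) ^ ((nt - (t - w)) * J) * (2 ^ (-((nt - (t - w) - e) * J)) +
        2 * (((D : ℝ) + 2) ^ 2 * δ)) = 2 ^ ((nt - (t - w)) * J) * 2 ^ (-((nt - (t - w) - e) * J)) +
          2 * ((D : ℝ) + 2) ^ 2 * (2 ^ ((nt - (t - w)) * J) * δ) := by ring
      _ ≤ 2 ^ (e * J) + 2 * ((D : ℝ) + 2) ^ 2 * 1 := by
          rw [h5]
          exact add_le_add le_rfl (mul_le_mul_of_nonneg_left hcn (by positivity))
      _ ≤ _ := by linarith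

/-- The size of the Taylor coefficients. -/
theorem jt_size (hdeg : ∀ l ≤ 3, ∀ x, (H x l).totalDegree ≤ D)
    (hc : Pool.AJW.CfB F ⌊w * J⌋₊ 1 (c 2) A (fun x => x) (fun x => H x 2))
    {t nt x : ℝ} (hn : nt - (t - w) ≤ n 2) (htw : w ≤ t) (hx : |x| ≤ 1) {ω : F.Ω} (hω : A ω)
    {a : ℕ} (ha : 1 ≤ a) :
    2 ^ ((nt - (a : ℝ) * (t - w)) * J) * |jt (opl F c w H 2 ω) x a| ≤
      2 ^ (D + 2) * 2 ^ ((n 2 + 1) * J) := by
  have hJ0 : (0 : ℝ) ≤ J := Nat.cast_nonneg J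
  have ha' : (1 : ℝ) ≤ a := by exact_mod_cast ha
  have hle : nt - (a : ℝ) * (t - w) ≤ nt - (t - w) := by
    have : 0 ≤ ((a : ℝ) - 1) * (t - w) := mul_nonneg (by linarith) (by linarith)
    linarith
  have h2 : |jt (opl F c w H 2 ω) x a| ≤ 2 ^ (D + 1 + 1) * 2 ^ (1 * (J : ℝ)) :=
    jt_le (opl_deg hdeg (by norm_num) ω) hx (by positivity) fun i _ => hc ω hω i
  have h3 : (2 : ℝ) ^ ((nt - (a : ℝ) * (t - w)) * J) ≤ 2 ^ (n 2 * J) :=
    Real.rpow_le_rpow_of_exponent_le (by norm_num) (mul_le_mul_of_nonneg_right (hle.trans hn) hJ0)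
  refine (mul_le_mul h3 h2 (abs_nonneg _) (by positivity)).trans (le_of_eq ?_)
  have h4 : (2 : ℝ) ^ ((n 2 + 1) * J) = 2 ^ (n 2 * J) * 2 ^ (1 * (J : ℝ)) := by
    rw [← Real.rpow_add (by norm_num)]
    congr 1
    ring
  rw [h4]
  ring

end

end Pool.NA13
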