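import Pool.Agent.H77.SL.Ins
import Pool.Agent.H36.NA.Use
import Pool.Agent.H64.VS.Few

/-!
# The digits of the time of one sample

`near_few`: an integer near a function of the condition off a small event. `tcd_cnt`: the count of the
digits of the relative time. `tcd_low`, `tdg_low`: they are full given the line and the coarse time.
-/

set_option autoImplicit false

namespace Pool.NA13

open Finset Real MvPolynomial
open Pool.Agent.H49.Ent Pool.Agent.H32.Dense Pool.STK Pool.KA Pool.KSAT Pool.K2S Pool.PB Pool.GEN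
open Pool.S6C Pool.RCD Pool.LA91 Pool.OWN68 Pool.CHT
open Pool.BFL (Pb)
open Pool.V0F (cR)
open Pool.CLU (cpn_law cpn_pos cpn_marg)
open Pool.NDC42 (hgC pcC x0 xn xg rP LbW)
open Pool.PB.Trl (rt rt_mem)
open Pool.AVG5 (jt jt_le jt_sub of_fl)
open Pool.NA36 (vpC f1C f2C opl tcd tct jaC fbC jbC X0 rX rG NaE NaT)
open Pool.SL77 (tdg)

/-- **An integer near a function of the condition** off a small event. -/
theorem near_few {Ω Υ : Type} [Fintype Ω] {p : Ω → ℝ} (hp : IsLaw p) (X r : Ω → ℤ) (Y : Ω → Υ)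
    (hr : Det p Y r) (F : Ω → Prop) {B E μ : ℝ} (hB : 0 ≤ B) (hE : 0 ≤ E)
    (hX : ∀ ω, 0 < p ω → |(X ω : ℝ)| ≤ B) (hF : Pb p F ≤ μ)
    (h : ∀ ω, 0 < p ω → ¬ F ω → |(X ω : ℝ) - r ω| ≤ E) :
    CH p X Y ≤ Real.log 2 + μ * Real.log (2 * (2 * B) + 1) + Real.log (2 * (2 * E) + 1) := by
  have h1 := Pool.VS64.CH_near_off hp X Y F (B := B) (D := 2 * E) hX fun ω ν hω hν h1 h2 e => by
    have k1 := h ω hω h1
    have k2 := h ν hν h2
    have k3 : r ω = r ν := hr _ _ hω hν e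
    rw [← k3] at k2
    rw [abs_le] at k1 k2 ⊢
    constructor <;> linarith [k1.1, k1.2, k2.1, k2.2]
  have h2 : 0 ≤ Real.log (2 * (2 * B) + 1) := Real.log_nonneg (by linarith)
  have h3 : 0 ≤ Real.log (2 * (2 * E) + 1) := Real.log_nonneg (by linarith)
  have h4 := mul_le_mul_of_nonneg_right hF h2
  have h5 := mul_le_mul_of_nonneg_right (Pool.VS64.Pb_one_le hp (fun ω => ¬ F ω)) h3
  linarith

/-- The number of integers in an interval. -/
theorem CH_int {Ω Υ : Type} [Fintype Ω] {p : Ω → ℝ} (hp : IsLaw p) (X : Ω → ℤ) (Y : Ω → Υ)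
    {x : ℝ} (hx : 1 ≤ x) (h : ∀ ω ω', 0 < p ω → 0 < p ω' → Y ω = Y ω' → |(X ω : ℝ) - X ω'| ≤ x) :
    CH p X Y ≤ Real.log x + Real.log 3 := by
  have h1 : CH p X Y ≤ Real.log (2 * (⌊x⌋₊ : ℕ) + 1) := by
    refine CH_pair hp X Y fun ω ω' hω hω' e => ?_
    have h2 := h ω ω' hω hω' e
    have h3 : ((|X ω - X ω'| : ℤ) : ℝ) ≤ x := by push_cast; exact h2
    have h4 : (|X ω - X ω'|).toNat ≤ ⌊x⌋₊ := by
      refine Nat.le_floor ?_
      have h5 : (((|X ω - X ω'|).toNat : ℤ) : ℝ) ≤ x := by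
        rw [Int.toNat_of_nonneg (abs_nonneg _)]
        exact h3
      exact_mod_cast h5
    have h6 : (((|X ω - X ω'|).toNat : ℕ) : ℤ) ≤ (⌊x⌋₊ : ℤ) := by exact_mod_cast h4
    rwa [Int.toNat_of_nonneg (abs_nonneg _)] at h6
  refine h1.trans ?_
  rw [← Real.log_mul (by linarith) (by norm_num)]
  refine Real.log_le_log (by positivity) ?_
  have h7 := Nat.floor_le (by linarith : (0 : ℝ) ≤ x)
  linarith

variable {m J : ℕ}

section

variable {F : Fam m J} {A : F.Ω → Prop} {w : ℝ}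

theorem rt_of_T {ω ω' : F.Ω} (h : F.T ω = F.T ω') : rt F ⌊w * J⌋₊ ω = rt F ⌊w * J⌋₊ ω' := by
  unfold rt
  rw [h]

theorem tcd_of_T {s : ℝ} {ω ω' : F.Ω} (h : F.T ω = F.T ω') : tcd F w s ω = tcd F w s ω' := by
  unfold tcd
  rw [rt_of_T h]

theorem tct_of_T {s : ℝ} {ω ω' : F.Ω} (h : F.T ω = F.T ω') : tct F w s ω = tct F w s ω' := by
  unfold tct
  rw [tcd_of_T h]

theorem tdg_of_T {s : ℝ} {M : ℕ} {ω ω' : F.Ω} (h : F.T ω = F.T ω') :
    tdg F w s M ω = tdg F w s M ω' := by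
  unfold tdg
  rw [rt_of_T h, tct_of_T h]

theorem tcd_of_tct {s : ℝ} {ω ω' : F.Ω} (h : tct F w s ω = tct F w s ω') :
    tcd F w s ω = tcd F w s ω' := by
  have hp : (0 : ℝ) < 2 ^ (s * J) := Real.rpow_pos_of_pos (by norm_num) _
  unfold tct at h
  rw [div_left_inj' hp.ne'] at h
  exact_mod_cast h

/-- The digits and the time. -/
theorem tct_near (s : ℝ) (ω : F.Ω) : tct F w s ω ≤ rt F ⌊w * J⌋₊ ω ∧
    rt F ⌊w * J⌋₊ ω - tct F w s ω ≤ 1 / 2 ^ (s * J) ∧ 0 ≤ tct F w s ω ∧ tct F w s ω ≤ 1 := by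
  have hp : (0 : ℝ) < 2 ^ (s * J) := Real.rpow_pos_of_pos (by norm_num) _
  have h1 := rt_mem F ⌊w * J⌋₊ ω
  obtain ⟨θ, hθ⟩ : ∃ θ, θ = rt F ⌊w * J⌋₊ ω := ⟨_, rfl⟩
  have ht : tct F w s ω = (⌊(2 : ℝ) ^ (s * J) * θ⌋ : ℝ) / 2 ^ (s * J) := by
    rw [hθ]
    rfl
  rw [ht]
  rw [← hθ] at h1 ⊢
  have g1 := Int.floor_le ((2 : ℝ) ^ (s * J) * θ)
  have g2 := Int.lt_floor_add_one ((2 : ℝ) ^ (s * J) * θ)
  have g3 : (0 : ℤ) ≤ ⌊(2 : ℝ) ^ (s * J) * θ⌋ := Int.floor_nonneg.2 (mul_nonneg hp.le h1.1)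
  have g4 : (0 : ℝ) ≤ (⌊(2 : ℝ) ^ (s * J) * θ⌋ : ℝ) := by exact_mod_cast g3
  have k1 : (⌊(2 : ℝ) ^ (s * J) * θ⌋ : ℝ) / 2 ^ (s * J) ≤ θ := by
    rw [div_le_iff₀ hp]
    linarith
  refine ⟨k1, ?_, by positivity, k1.trans h1.2⟩
  rw [sub_le_iff_le_add, ← add_div, le_div_iff₀ hp]
  linarith

/-- The count of digits of the time. -/
theorem tcd_int {p : F.Ω → ℝ} (hp : IsLaw p) {s s' : ℝ} (hs : s ≤ s') {Υ : Type} (Y : F.Ω → Υ)
    (h : ∀ ω ω', 0 < p ω → 0 < p ω' → Y ω = Y ω' →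
      |rt F ⌊w * J⌋₊ ω - rt F ⌊w * J⌋₊ ω'| ≤ 1 / 2 ^ (s * J)) :
    CH p (tcd F w s') Y ≤ (s' - s) * J * Real.log 2 + Real.log 6 := by
  have hJ0 : (0 : ℝ) ≤ J := Nat.cast_nonneg J
  have e1 : (1 : ℝ) ≤ 2 ^ ((s' - s) * J) := Real.one_le_rpow (by norm_num)
    (mul_nonneg (by linarith) hJ0)
  have hp1 : (0 : ℝ) < 2 ^ (s' * J) := Real.rpow_pos_of_pos (by norm_num) _
  have h1 := CH_int hp (tcd F w s') Y (x := 2 * 2 ^ ((s' - s) * J)) (by linarith)
    fun ω ω' hω hω' e => by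
      have a3 := h ω ω' hω hω' e
      unfold tcd
      obtain ⟨θ, hθ⟩ : ∃ θ, θ = rt F ⌊w * J⌋₊ ω := ⟨_, rfl⟩
      obtain ⟨θ', hθ'⟩ : ∃ θ', θ' = rt F ⌊w * J⌋₊ ω' := ⟨_, rfl⟩
      rw [← hθ, ← hθ'] at a3 ⊢
      have g1 := Int.floor_le ((2 : ℝ) ^ (s' * J) * θ)
      have g2 := Int.lt_floor_add_one ((2 : ℝ) ^ (s' * J) * θ)
      have g3 := Int.floor_le ((2 : ℝ) ^ (s' * J) * θ')
      have g4 := Int.lt_floor_add_one ((2 : ℝ) ^ (s' * J) * θ')
      have g5 : |(2 : ℝ) ^ (s' * J) * θ - 2 ^ (s' * J) * θ'| ≤ 2 ^ ((s' - s) * J) := by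
        rw [← mul_sub, abs_mul, abs_of_pos hp1]
        refine (mul_le_mul_of_nonneg_left a3 hp1.le).trans (le_of_eq ?_)
        rw [one_div, ← Real.rpow_neg (by norm_num), ← Real.rpow_add (by norm_num)]
        congr 1
        ring
      rw [abs_le] at g5 ⊢
      constructor <;> linarith [g5.1, g5.2]
  refine h1.trans (le_of_eq ?_)
  rw [Real.log_mul (by norm_num) (by positivity), Real.log_rpow (by norm_num)]
  have e2 : Real.log 6 = Real.log 2 + Real.log 3 := by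
    rw [← Real.log_mul (by norm_num) (by norm_num)]
    norm_num
  rw [e2]
  ring

/-- The count of the digits of the time behind the coarse time. -/
theorem tcd_cnt {p : F.Ω → ℝ} (hp : IsLaw p) {s s' : ℝ} (hs : s ≤ s') :
    CH p (tcd F w s') (tct F w s) ≤ (s' - s) * J * Real.log 2 + Real.log 6 :=
  tcd_int hp hs _ fun ω ω' _ _ e => by
    have a1 := tct_near (F := F) (w := w) s ω
    have a2 := tct_near (F := F) (w := w) s ω'
    rw [← e] at a2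
    rw [abs_le]
    constructor <;> linarith [a1.1, a1.2.1, a2.1, a2.2.1]

/-- The count of all digits of the relative time. -/
theorem tcd_cnt0 {p : F.Ω → ℝ} (hp : IsLaw p) {s : ℝ} (hs : 0 ≤ s) {Υ : Type} (Y : F.Ω → Υ) :
    CH p (tcd F w s) Y ≤ s * J * Real.log 2 + Real.log 6 := by
  refine (tcd_int hp hs Y fun ω ω' _ _ _ => ?_).trans (le_of_eq (by ring))
  have a1 := rt_mem F ⌊w * J⌋₊ ω
  have a2 := rt_mem F ⌊w * J⌋₊ ω'
  rw [zero_mul, Real.rpow_zero, div_one, abs_le]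
  constructor <;> linarith [a1.1, a1.2, a2.1, a2.2]

/-- The exact time given the line and digits. -/
theorem T_few (hWJ : ⌊w * J⌋₊ ≤ J) {p : F.Ω → ℝ} (hp : IsLaw p) {Υ : Type}
    (Y : F.Ω → Υ) {x : ℝ} (hx : 1 ≤ x * 2 ^ ((1 - w) * J))
    (h : ∀ ω ω', 0 < p ω → 0 < p ω' → Y ω = Y ω' → slam F ⌊w * J⌋₊ ω = slam F ⌊w * J⌋₊ ω' ∧
      |rt F ⌊w * J⌋₊ ω - rt F ⌊w * J⌋₊ ω'| ≤ x) :
    CH p F.T Y ≤ (1 - w) * J * Real.log 2 + Real.log x + Real.log 6 := by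
  obtain ⟨W, hW⟩ : ∃ W, W = ⌊w * J⌋₊ := ⟨_, rfl⟩
  rw [← hW] at hWJ h
  have hWw : w * J < W + 1 := by rw [hW]; exact Nat.lt_floor_add_one _
  have hp2 : (0 : ℝ) < 2 ^ ((1 - w) * J) := Real.rpow_pos_of_pos (by norm_num) _
  have hx0 : 0 < x := by
    by_contra hc
    have : x * 2 ^ ((1 - w) * J) ≤ 0 := mul_nonpos_of_nonpos_of_nonneg (not_lt.1 hc) hp2.le
    linarith
  have hpow : ((2 ^ (J - W) : ℕ) : ℝ) ≤ 2 * 2 ^ ((1 - w) * J) := by
    push_cast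
    have e1 : (2 : ℝ) ^ (J - W) = 2 ^ ((J : ℝ) - W) := by
      rw [← Real.rpow_natCast, Nat.cast_sub hWJ]
    rw [e1]
    have e2 : (2 : ℝ) * 2 ^ ((1 - w) * J) = 2 ^ (1 + (1 - w) * J) := by
      rw [Real.rpow_add (by norm_num), Real.rpow_one]
    rw [e2]
    refine Real.rpow_le_rpow_of_exponent_le (by norm_num) ?_
    have : (1 - w) * J = J - w * J := by ring
    rw [this]
    linarith
  have hpos : (0 : ℝ) < ((2 ^ (J - W) : ℕ) : ℝ) := by positivity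
  have h1 := CH_int hp (fun ω => (F.T ω : ℤ)) Y (x := x * (2 * 2 ^ ((1 - w) * J))) (by linarith)
    fun ω ω' hω hω' e => by
      obtain ⟨a1, a2⟩ := h ω ω' hω hω' e
      have a3 : F.T1 W ω = F.T1 W ω' := congrArg (fun x => x.2.2) a1
      unfold Fam.T1 at a3
      have a4 : (F.T ω : ℝ) - F.T ω' =
          ((F.T ω % 2 ^ (J - W) : ℕ) : ℝ) - ((F.T ω' % 2 ^ (J - W) : ℕ) : ℝ) := by
        have b1 := Nat.div_add_mod (F.T ω) (2 ^ (J - W))
        have b2 := Nat.div_add_mod (F.T ω') (2 ^ (J - W))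
        have b3 : (F.T ω : ℝ) = ((2 ^ (J - W) * (F.T ω / 2 ^ (J - W)) : ℕ) : ℝ) +
            ((F.T ω % 2 ^ (J - W) : ℕ) : ℝ) := by exact_mod_cast b1.symm
        have b4 : (F.T ω' : ℝ) = ((2 ^ (J - W) * (F.T ω' / 2 ^ (J - W)) : ℕ) : ℝ) +
            ((F.T ω' % 2 ^ (J - W) : ℕ) : ℝ) := by exact_mod_cast b2.symm
        rw [b3, b4, a3]
        ring
      have a5 : ((F.T ω : ℤ) : ℝ) - ((F.T ω' : ℤ) : ℝ) =
          (rt F W ω - rt F W ω') * ((2 ^ (J - W) : ℕ) : ℝ) := by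
        push_cast
        rw [a4]
        unfold rt
        rw [← sub_div]
        push_cast
        rw [div_mul_cancel₀ _ (by positivity)]
      rw [a5, abs_mul, abs_of_pos hpos]
      exact mul_le_mul a2 hpow hpos.le hx0.le
  have h2 : CH p F.T Y = CH p (fun ω => (F.T ω : ℤ)) Y := by
    refine le_antisymm (CH_mono_left hp.nonneg fun ω ω' _ _ e => ?_)
      (CH_mono_left hp.nonneg fun ω ω' _ _ e => ?_)
    · have e1 : (F.T ω : ℤ) = (F.T ω' : ℤ) := (Prod.ext_iff.1 e).1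
      exact_mod_cast e1
    · have e1 : F.T ω = F.T ω' := (Prod.ext_iff.1 e).1
      rw [e1]
  rw [h2]
  refine h1.trans (le_of_eq ?_)
  rw [Real.log_mul hx0.ne' (by positivity), Real.log_mul (by norm_num) hp2.ne',
    Real.log_rpow (by norm_num)]
  have e2 : Real.log 6 = Real.log 2 + Real.log 3 := by
    rw [← Real.log_mul (by norm_num) (by norm_num)]
    norm_num
  rw [e2]
  ring

/-- **The digits are full given the line and the coarse time**, abstract form. -/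
theorem dig_low (hWJ : ⌊w * J⌋₊ ≤ J) (hA : 0 < Pe F.p A) {e s : ℝ} (hs : 0 ≤ s)
    (htm : ((1 - w) * Real.log 2 - e) * J ≤
      CH (Pool.Agent.H49.Ent.cond F.p A True) F.T (slam F ⌊w * J⌋₊))
    (X : F.Ω → ℤ) {x : ℝ} (hx : 1 ≤ x * 2 ^ ((1 - w) * J))
    (h : ∀ ω ω', X ω = X ω' → tct F w s ω = tct F w s ω' →
      |rt F ⌊w * J⌋₊ ω - rt F ⌊w * J⌋₊ ω'| ≤ x) :
    -(s * J * Real.log 2) - Real.log x - (e * J + 2 * Real.log 6) ≤
      CH (Pool.Agent.H49.Ent.cond F.p A True) X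
        (fun ω => (slam F ⌊w * J⌋₊ ω, tct F w s ω)) := by
  have hcl := isLaw_cond F.isLaw hA
  have h0 := hcl.nonneg
  have h1 := T_few hWJ hcl (fun ω => (X ω, (slam F ⌊w * J⌋₊ ω, tct F w s ω))) hx
    fun ω ω' _ _ e => by
      have e1 := Prod.ext_iff.1 e
      have e2 := Prod.ext_iff.1 e1.2
      exact ⟨e2.1, h ω ω' e1.1 e2.2⟩
  have h2 := CH_le_add h0 F.T (fun ω => tct F w s ω) (slam F ⌊w * J⌋₊)
  have h3 := CH_le_add h0 F.T X (fun ω => (slam F ⌊w * J⌋₊ ω, tct F w s ω))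
  have h4 : CH (Pool.Agent.H49.Ent.cond F.p A True) F.T
      (fun ω => (tct F w s ω, slam F ⌊w * J⌋₊ ω)) ≤
      CH (Pool.Agent.H49.Ent.cond F.p A True) F.T
        (fun ω => (slam F ⌊w * J⌋₊ ω, tct F w s ω)) :=
    CH_mono_cond h0 fun ω ω' _ _ e => by
      have e1 := Prod.ext_iff.1 e
      exact Prod.ext e1.2 e1.1
  have h5 : CH (Pool.Agent.H49.Ent.cond F.p A True) (fun ω => tct F w s ω)
      (slam F ⌊w * J⌋₊) ≤ s * J * Real.log 2 + Real.log 6 := by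
    refine (CH_mono_left h0 (X' := tcd F w s) fun ω ω' _ _ e => ?_).trans (tcd_cnt0 hcl hs _)
    have e2 : tcd F w s ω = tcd F w s ω' := (Prod.ext_iff.1 e).1
    unfold tct
    rw [e2]
  have h6 : ((1 - w) * Real.log 2 - e) * J = (1 - w) * J * Real.log 2 - e * J := by ring
  linarith

/-- **The digits of the time are full** given the line and the coarse time. -/
theorem tcd_low (hWJ : ⌊w * J⌋₊ ≤ J) (hA : 0 < Pe F.p A) {e s s' : ℝ} (hs : 0 ≤ s)
    (hs1 : s' ≤ 1 - w)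
    (htm : ((1 - w) * Real.log 2 - e) * J ≤
      CH (Pool.Agent.H49.Ent.cond F.p A True) F.T (slam F ⌊w * J⌋₊)) :
    (s' - s) * J * Real.log 2 - (e * J + 2 * Real.log 6) ≤
      CH (Pool.Agent.H49.Ent.cond F.p A True) (tcd F w s')
        (fun ω => (slam F ⌊w * J⌋₊ ω, tct F w s ω)) := by
  have hJ0 : (0 : ℝ) ≤ J := Nat.cast_nonneg J
  have h1 := dig_low hWJ hA hs htm (tcd F w s') (x := 1 / 2 ^ (s' * J)) (by
      rw [one_div, ← Real.rpow_neg (by norm_num), ← Real.rpow_add (by norm_num)]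
      refine Real.one_le_rpow (by norm_num) ?_
      have : 0 ≤ (1 - w - s') * J := mul_nonneg (by linarith) hJ0
      linarith) fun ω ω' e _ => by
    have a1 := tct_near (F := F) (w := w) s' ω
    have a2 := tct_near (F := F) (w := w) s' ω'
    have a3 : tct F w s' ω = tct F w s' ω' := by
      unfold tct
      rw [e]
    rw [← a3] at a2
    rw [abs_le]
    constructor <;> linarith [a1.1, a1.2.1, a2.1, a2.2.1]
  have h2 : Real.log (1 / 2 ^ (s' * (J : ℝ))) = -(s' * J * Real.log 2) := by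
    rw [one_div, Real.log_inv, Real.log_rpow (by norm_num)]
  rw [h2] at h1
  linarith

/-- **The digits of the star lemma are full** given the line and the coarse time. -/
theorem tdg_low (hWJ : ⌊w * J⌋₊ ≤ J) (hA : 0 < Pe F.p A) {e s : ℝ} (hs : 0 ≤ s)
    {M : ℕ} (hM : 1 ≤ M) (hM1 : (M : ℝ) ≤ 2 ^ ((1 - w - s) * J))
    (htm : ((1 - w) * Real.log 2 - e) * J ≤
      CH (Pool.Agent.H49.Ent.cond F.p A True) F.T (slam F ⌊w * J⌋₊)) :
    Real.log (2 * M + 1) - (e * J + 3 * Real.log 6) ≤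
      CH (Pool.Agent.H49.Ent.cond F.p A True) (tdg F w s M)
        (fun ω => (slam F ⌊w * J⌋₊ ω, tct F w s ω)) := by
  have hM0 : (0 : ℝ) < M := by exact_mod_cast hM
  have hM1' : (1 : ℝ) ≤ M := by exact_mod_cast hM
  have hp : (0 : ℝ) < 2 ^ (s * J) := Real.rpow_pos_of_pos (by norm_num) _
  have h1 := dig_low hWJ hA hs htm (tdg F w s M) (x := 1 / (2 ^ (s * J) * M)) (by
      rw [one_div_mul_eq_div, le_div_iff₀ (by positivity), one_mul]
      refine (mul_le_mul_of_nonneg_left hM1 hp.le).trans (le_of_eq ?_)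
      rw [← Real.rpow_add (by norm_num)]
      congr 1
      ring) fun ω ω' e e' => by
    unfold tdg at e
    rw [← e'] at e
    have a1 := of_fl hM0 e
    have a2 : (rt F ⌊w * J⌋₊ ω - tct F w s ω) * 2 ^ (s * J) -
        (rt F ⌊w * J⌋₊ ω' - tct F w s ω) * 2 ^ (s * J) =
        2 ^ (s * J) * (rt F ⌊w * J⌋₊ ω - rt F ⌊w * J⌋₊ ω') := by ring
    rw [a2, abs_mul, abs_of_pos hp] at a1
    rw [one_div, mul_inv, ← div_eq_inv_mul, le_div_iff₀ hp, mul_comm, ← one_div]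
    exact a1
  have h2 : Real.log (1 / (2 ^ (s * (J : ℝ)) * M)) = -(s * J * Real.log 2) - Real.log M := by
    rw [one_div, Real.log_inv, Real.log_mul hp.ne' hM0.ne', Real.log_rpow (by norm_num)]
    ring
  rw [h2] at h1
  have h3 : Real.log (2 * M + 1) ≤ Real.log M + Real.log 6 := by
    rw [← Real.log_mul hM0.ne' (by norm_num)]
    exact Real.log_le_log (by positivity) (by linarith)
  linarith

end

end Pool.NA13
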