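import Pool.Agent.H13.NA.Tim

/-!
# The coded own path of the moved place

`uPc`: the polynomial of the code; `ufC`: its height at the own time; `plC`: its place at the coarse
time. `upc_zp`, `upc_zr`: two samples over one record.
-/

set_option autoImplicit false

namespace Pool.NA13

open Finset Real MvPolynomial
open Pool.Agent.H49.Ent Pool.Agent.H32.Dense Pool.STK Pool.KA Pool.KSAT Pool.K2S Pool.PB Pool.GEN
open Pool.S6C Pool.RCD Pool.LA91 Pool.OWN68 Pool.CHT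
open Pool.BFL (Pb)
open Pool.V0F (cR)
open Pool.CLU (cpn_law cpn_pos cpn_marg)
open Pool.NDC42 (hgC pcC x0 xn xg rP LbW)
open Pool.PB.Trl (rt rt_mem)
open Pool.AVG5 (jt jt_le jt_sub of_fl)
open Pool.NA36 (vpC f1C f2C opl tcd tct jaC fbC jbC X0 rX rG NaE NaT opl_deg opl_cf cf_one)
open Pool.SL77 (tdg cpl cpl_deg cpl_coeff)

variable {m J : ℕ}

/-- The polynomial of the code of the own path of `c 2`. -/
noncomputable def uPc (F : Fam m J) (c : ℕ → Fin m) (D : ℕ) (w : ℝ) (n : ℕ → ℝ)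
    (H : LnT F → ℕ → MvPolynomial (Option (Fin m)) ℝ) (ω : F.Ω) : Polynomial ℝ :=
  cpl (2 ^ (n 2 * J)) (pcC F c D w H 2 0 (n 2) ω)

/-- The height of the coded path at the own time. -/
noncomputable def ufC (F : Fam m J) (c : ℕ → Fin m) (D : ℕ) (w : ℝ) (n : ℕ → ℝ)
    (H : LnT F → ℕ → MvPolynomial (Option (Fin m)) ℝ) (ω : F.Ω) : ℤ :=
  ⌊(2 : ℝ) ^ (n 2 * J) * (uPc F c D w n H ω).eval (rt F ⌊w * J⌋₊ ω)⌋

/-- The place of the coded path at the coarse time, `nc J` digits. -/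
noncomputable def plC (F : Fam m J) (c : ℕ → Fin m) (D : ℕ) (w : ℝ) (n : ℕ → ℝ) (s nc : ℝ)
    (H : LnT F → ℕ → MvPolynomial (Option (Fin m)) ℝ) (ω : F.Ω) : ℤ :=
  ⌊(2 : ℝ) ^ (nc * J) * (uPc F c D w n H ω).eval (tct F w s ω)⌋

/-- A polynomial with small coefficients. -/
theorem eval_small {Q : Polynomial ℝ} {D : ℕ} (hQ : Q.natDegree ≤ D + 1) {δ : ℝ}
    (h : ∀ i ≤ D + 1, |Q.coeff i| ≤ δ) {θ : ℝ} (hθ : |θ| ≤ 1) : |Q.eval θ| ≤ (D + 2) * δ := by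
  rw [Polynomial.eval_eq_sum_range' (n := D + 2) (by omega)]
  refine (Finset.abs_sum_le_sum_abs _ _).trans ?_
  have h1 : ∀ i ∈ range (D + 2), |Q.coeff i * θ ^ i| ≤ δ := fun i hi => by
    have hi' := Finset.mem_range.1 hi
    have h2 := h i (by omega)
    rw [abs_mul, abs_pow]
    have h3 : |θ| ^ i ≤ 1 := pow_le_one₀ (abs_nonneg _) hθ
    calc |Q.coeff i| * |θ| ^ i ≤ δ * 1 :=
          mul_le_mul h2 h3 (by positivity) ((abs_nonneg _).trans h2)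
      _ = δ := mul_one _
  refine (Finset.sum_le_sum h1).trans (le_of_eq ?_)
  rw [Finset.sum_const, Finset.card_range, nsmul_eq_mul]
  push_cast
  ring

section

variable {F : Fam m J} {A : F.Ω → Prop} {c : ℕ → Fin m} {D : ℕ} {w : ℝ} {n : ℕ → ℝ}
  {H : LnT F → ℕ → MvPolynomial (Option (Fin m)) ℝ}

theorem uPc_deg (ω : F.Ω) : (uPc F c D w n H ω).natDegree ≤ D + 1 := cpl_deg _ _

/-- The coded coefficients. -/
theorem uPc_cf (ω : F.Ω) {i : ℕ} (hi : i ≤ D + 1) :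
    |(uPc F c D w n H ω).coeff i - (opl F c w H 2 ω).coeff i| ≤ 1 / 2 ^ (n 2 * J) := by
  have hs0 : (0 : ℝ) < 2 ^ (n 2 * J) := Real.rpow_pos_of_pos (by norm_num) _
  have h1 : (uPc F c D w n H ω).coeff i =
      (⌊(2 : ℝ) ^ (n 2 * J) * (opl F c w H 2 ω).coeff i⌋ : ℝ) / 2 ^ (n 2 * J) := by
    unfold uPc
    have h2 := cpl_coeff (2 ^ (n 2 * (J : ℝ))) (pcC F c D w H 2 0 (n 2) ω)
      ⟨i, by omega⟩
    simp only at h2
    rw [h2]
    unfold pcC Pool.AVG71.cod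
    dsimp only
    rw [if_pos (Nat.zero_le _)]
    rfl
  rw [h1]
  obtain ⟨a, ha⟩ : ∃ a, a = (opl F c w H 2 ω).coeff i := ⟨_, rfl⟩
  rw [← ha]
  have g1 := Int.floor_le ((2 : ℝ) ^ (n 2 * J) * a)
  have g2 := Int.lt_floor_add_one ((2 : ℝ) ^ (n 2 * J) * a)
  have e1 : (⌊(2 : ℝ) ^ (n 2 * J) * a⌋ : ℝ) / 2 ^ (n 2 * J) - a =
      ((⌊(2 : ℝ) ^ (n 2 * J) * a⌋ : ℝ) - 2 ^ (n 2 * J) * a) / 2 ^ (n 2 * J) := by
    field_simp
  rw [e1, abs_div, abs_of_pos hs0]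
  refine div_le_div_of_nonneg_right ?_ hs0.le
  rw [abs_le]
  constructor <;> linarith

/-- The coded path and the own path. -/
theorem uPc_near (hdeg : ∀ l ≤ 3, ∀ x, (H x l).totalDegree ≤ D) (ω : F.Ω) {θ : ℝ}
    (hθ : |θ| ≤ 1) : |(uPc F c D w n H ω).eval θ - (opl F c w H 2 ω).eval θ| ≤
      (D + 2) * (1 / 2 ^ (n 2 * J)) := by
  rw [← Polynomial.eval_sub]
  refine eval_small ((Polynomial.natDegree_sub_le _ _).trans
    (max_le (uPc_deg ω) (opl_deg hdeg (by norm_num) ω))) (fun i hi => ?_) hθ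
  rw [Polynomial.coeff_sub]
  exact uPc_cf ω hi

/-- The own height is the value of the own path at the own time. -/
theorem hg_opl (hWJ : ⌊w * J⌋₊ ≤ J) (ω : F.Ω) :
    ojet F (c 2) 0 (H (slam F ⌊w * J⌋₊ ω) 2) ω = (opl F c w H 2 ω).eval (rt F ⌊w * J⌋₊ ω) := by
  have h1 := Pool.AVG57.ojet_tay F hWJ ω (c 2) (fun s (_ : Fin m) => H s 2) 0
  rw [Polynomial.taylor_coeff_zero, Nat.factorial_zero, Nat.cast_one, pow_zero, mul_one,
    div_one] at h1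
  exact h1.symm

theorem rt_abs (ω : F.Ω) : |rt F ⌊w * J⌋₊ ω| ≤ 1 := by
  have := rt_mem F ⌊w * J⌋₊ ω
  rw [abs_le]
  constructor <;> linarith [this.1, this.2]

theorem tct_abs (s : ℝ) (ω : F.Ω) : |tct F w s ω| ≤ 1 := by
  have := tct_near (F := F) (w := w) s ω
  rw [abs_le]
  constructor <;> linarith [this.2.2.1, this.2.2.2]

/-- The height of the coded path and the own height. -/
theorem ufC_hg (hdeg : ∀ l ≤ 3, ∀ x, (H x l).totalDegree ≤ D) (hWJ : ⌊w * J⌋₊ ≤ J) (ω : F.Ω) :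
    |((ufC F c D w n H ω : ℤ) : ℝ) - hgC F c w H 2 (n 2) ω| ≤ D + 3 := by
  have hs0 : (0 : ℝ) < 2 ^ (n 2 * J) := Real.rpow_pos_of_pos (by norm_num) _
  have h1 := uPc_near (c := c) (D := D) (w := w) (n := n) hdeg ω (rt_abs (w := w) ω)
  unfold ufC hgC
  rw [hg_opl hWJ]
  obtain ⟨x, hx⟩ : ∃ x, x = (uPc F c D w n H ω).eval (rt F ⌊w * J⌋₊ ω) := ⟨_, rfl⟩
  obtain ⟨y, hy⟩ : ∃ y, y = (opl F c w H 2 ω).eval (rt F ⌊w * J⌋₊ ω) := ⟨_, rfl⟩
  rw [← hx, ← hy] at h1 ⊢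
  have h2 : |(2 : ℝ) ^ (n 2 * J) * x - 2 ^ (n 2 * J) * y| ≤ D + 2 := by
    rw [← mul_sub, abs_mul, abs_of_pos hs0]
    refine (mul_le_mul_of_nonneg_left h1 hs0.le).trans (le_of_eq ?_)
    field_simp
  have g1 := Int.floor_le ((2 : ℝ) ^ (n 2 * J) * x)
  have g2 := Int.lt_floor_add_one ((2 : ℝ) ^ (n 2 * J) * x)
  have g3 := Int.floor_le ((2 : ℝ) ^ (n 2 * J) * y)
  have g4 := Int.lt_floor_add_one ((2 : ℝ) ^ (n 2 * J) * y)
  rw [abs_le] at h2 ⊢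
  constructor <;> linarith [h2.1, h2.2]

/-- Equal own heights. -/
theorem hg_eq (hWJ : ⌊w * J⌋₊ ≤ J) {s : ℝ} {ω ω' : F.Ω} (h : hgC F c w H 2 s ω = hgC F c w H 2 s ω') :
    |(opl F c w H 2 ω).eval (rt F ⌊w * J⌋₊ ω) - (opl F c w H 2 ω').eval (rt F ⌊w * J⌋₊ ω')| ≤
      1 / 2 ^ (s * J) := by
  have hs0 : (0 : ℝ) < 2 ^ (s * J) := Real.rpow_pos_of_pos (by norm_num) _
  unfold hgC at h
  rw [hg_opl hWJ, hg_opl hWJ] at h
  exact of_fl hs0 h

/-- The coefficients of order `≥ 2` of the coded paths. -/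
theorem uPc_two (ω ω' : F.Ω) (h : f2C F c D w n H ω = f2C F c D w n H ω') {i : ℕ} (hi : 2 ≤ i) :
    (uPc F c D w n H ω - uPc F c D w n H ω').coeff i = 0 := by
  rw [Polynomial.coeff_sub]
  rcases Nat.lt_or_ge (D + 1) i with h1 | h1
  · rw [Polynomial.coeff_eq_zero_of_natDegree_lt ((uPc_deg ω).trans_lt h1),
      Polynomial.coeff_eq_zero_of_natDegree_lt ((uPc_deg ω').trans_lt h1), sub_zero]
  · have h2 := congrFun h ⟨i, by omega⟩
    have h3 := cpl_coeff (2 ^ (n 2 * (J : ℝ))) (pcC F c D w H 2 0 (n 2) ω) ⟨i, by omega⟩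
    have h4 := cpl_coeff (2 ^ (n 2 * (J : ℝ))) (pcC F c D w H 2 0 (n 2) ω') ⟨i, by omega⟩
    simp only at h3 h4
    unfold uPc
    rw [h3, h4]
    unfold f2C pcC Pool.AVG71.cod at h2
    unfold pcC Pool.AVG71.cod
    dsimp only at h2 ⊢
    rw [if_pos hi, if_pos hi] at h2
    rw [if_pos (Nat.zero_le _), if_pos (Nat.zero_le _), h2, sub_self]

/-- An affine difference. -/
theorem aff_eval {Q : Polynomial ℝ} (h : ∀ i, 2 ≤ i → Q.coeff i = 0) (x y : ℝ) :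
    Q.eval x - Q.eval y = Q.coeff 1 * (x - y) := by
  have h1 : Q.natDegree < 2 := by
    rw [Nat.lt_succ_iff, Polynomial.natDegree_le_iff_coeff_eq_zero]
    intro N hN
    exact h N (by omega)
  rw [Polynomial.eval_eq_sum_range' (n := 2) h1, Polynomial.eval_eq_sum_range' (n := 2) h1]
  simp only [Finset.sum_range_succ, Finset.sum_range_zero, pow_zero, pow_one]
  ring

/-- The first coefficient of the difference of the coded paths and the difference of the velocities. -/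
theorem uPc_one (hdeg : ∀ l ≤ 3, ∀ x, (H x l).totalDegree ≤ D) {ω ω' : F.Ω}
    (h : f2C F c D w n H ω = f2C F c D w n H ω') {θ : ℝ} (hθ : |θ| ≤ 1) :
    |(uPc F c D w n H ω - uPc F c D w n H ω').coeff 1 -
      (jt (opl F c w H 2 ω) θ 1 - jt (opl F c w H 2 ω') θ 1)| ≤
      (((D : ℝ) + 2) ^ 2 + 2) * (1 / 2 ^ (n 2 * J)) := by
  have h1 := cf_one (w := w) (n := n) hdeg h hθ
  have h2 := uPc_cf (F := F) (c := c) (D := D) (w := w) (n := n) (H := H) ω (i := 1) (by omega)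
  have h3 := uPc_cf (F := F) (c := c) (D := D) (w := w) (n := n) (H := H) ω' (i := 1) (by omega)
  rw [Polynomial.coeff_sub]
  rw [abs_le] at h1 h2 h3 ⊢
  constructor <;> linarith [h1.1, h1.2, h2.1, h2.2, h3.1, h3.2]

/-- **Two samples over one record**: the difference of the coded paths at the common time. -/
theorem uPc_at (hdeg : ∀ l ≤ 3, ∀ x, (H x l).totalDegree ≤ D) (hWJ : ⌊w * J⌋₊ ≤ J) {ω ω' : F.Ω}
    (hT : F.T ω = F.T ω') (hh : hgC F c w H 2 (n 2) ω = hgC F c w H 2 (n 2) ω') :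
    |(uPc F c D w n H ω - uPc F c D w n H ω').eval (rt F ⌊w * J⌋₊ ω)| ≤
      (2 * D + 5) * (1 / 2 ^ (n 2 * J)) := by
  have h1 := uPc_near (c := c) (D := D) (w := w) (n := n) hdeg ω (rt_abs (w := w) ω)
  have h2 := uPc_near (c := c) (D := D) (w := w) (n := n) hdeg ω' (rt_abs (w := w) ω)
  have h3 := hg_eq hWJ hh
  rw [← rt_of_T (w := w) hT] at h3
  rw [Polynomial.eval_sub]
  rw [abs_le] at h1 h2 h3 ⊢
  constructor <;> linarith [h1.1, h1.2, h2.1, h2.2, h3.1, h3.2]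

/-- **The places at the coarse time of two samples over one record.** -/
theorem pl_zp (hdeg : ∀ l ≤ 3, ∀ x, (H x l).totalDegree ≤ D) (hWJ : ⌊w * J⌋₊ ≤ J) {ω ω' : F.Ω}
    (hT : F.T ω = F.T ω') (hh : hgC F c w H 2 (n 2) ω = hgC F c w H 2 (n 2) ω')
    (hf : f2C F c D w n H ω = f2C F c D w n H ω') {s nc g ε : ℝ} (hs : 0 ≤ s) (hnc : nc ≤ n 2)
    (hj : |jt (opl F c w H 2 ω) (rt F ⌊w * J⌋₊ ω) 1 - jt (opl F c w H 2 ω') (rt F ⌊w * J⌋₊ ω) 1| ≤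
      2 ^ (-(g * J))) (hx : nc ≤ g + s + ε) :
    |((plC F c D w n s nc H ω : ℤ) : ℝ) - plC F c D w n s nc H ω'| ≤
      2 ^ (ε * J) + 4 * ((D : ℝ) + 2) ^ 2 := by
  have hJ0 : (0 : ℝ) ≤ J := Nat.cast_nonneg J
  have hn0 : (0 : ℝ) < 2 ^ (n 2 * J) := Real.rpow_pos_of_pos (by norm_num) _
  have hc0 : (0 : ℝ) < 2 ^ (nc * J) := Real.rpow_pos_of_pos (by norm_num) _
  have hs1 : (1 : ℝ) ≤ 2 ^ (s * J) := Real.one_le_rpow (by norm_num) (mul_nonneg hs hJ0)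
  have hD0 : (0 : ℝ) ≤ D := Nat.cast_nonneg D
  have hcn : (2 : ℝ) ^ (nc * J) * (1 / 2 ^ (n 2 * J)) ≤ 1 := by
    rw [mul_one_div, div_le_one hn0]
    exact Real.rpow_le_rpow_of_exponent_le (by norm_num) (mul_le_mul_of_nonneg_right hnc hJ0)
  have h1 := uPc_at (c := c) (D := D) (w := w) (n := n) hdeg hWJ hT hh
  have h2 := uPc_one (c := c) (D := D) (w := w) (n := n) hdeg hf (rt_abs (w := w) ω)
  have h3 := aff_eval (fun i hi => uPc_two (F := F) (c := c) (D := D) (w := w) (n := n) (H := H)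
    ω ω' hf hi) (tct F w s ω) (rt F ⌊w * J⌋₊ ω)
  have h4 := tct_near (F := F) (w := w) s ω
  obtain ⟨Q, hQ⟩ : ∃ Q, Q = uPc F c D w n H ω - uPc F c D w n H ω' := ⟨_, rfl⟩
  rw [← hQ] at h1 h2 h3
  obtain ⟨δ, hδ⟩ : ∃ δ : ℝ, δ = 1 / 2 ^ (n 2 * J) := ⟨_, rfl⟩
  rw [← hδ] at h1 h2 hcn
  have hδ0 : 0 < δ := by rw [hδ]; positivity
  have h5 : |Q.coeff 1| ≤ 2 ^ (-(g * J)) + (((D : ℝ) + 2) ^ 2 + 2) * δ := by
    rw [abs_le] at h2 hj ⊢
    constructor <;> linarith [h2.1, h2.2, hj.1, hj.2]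
  have h6 : |tct F w s ω - rt F ⌊w * J⌋₊ ω| ≤ 1 / 2 ^ (s * J) := by
    rw [abs_le]
    constructor <;> linarith [h4.1, h4.2.1]
  have h7 : |Q.eval (tct F w s ω)| ≤ (2 * D + 5) * δ +
      (2 ^ (-(g * J)) + (((D : ℝ) + 2) ^ 2 + 2) * δ) * (1 / 2 ^ (s * J)) := by
    have e1 : Q.eval (tct F w s ω) = Q.eval (rt F ⌊w * J⌋₊ ω) +
        Q.coeff 1 * (tct F w s ω - rt F ⌊w * J⌋₊ ω) := by linarith
    rw [e1]
    refine (abs_add_le _ _).trans (add_le_add h1 ?_)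
    rw [abs_mul]
    exact mul_le_mul h5 h6 (abs_nonneg _) (by positivity)
  have h8 : (2 : ℝ) ^ (nc * J) * |Q.eval (tct F w s ω)| ≤
      (2 * D + 5) + (2 ^ (ε * J) + (((D : ℝ) + 2) ^ 2 + 2)) := by
    refine (mul_le_mul_of_nonneg_left h7 hc0.le).trans ?_
    have k1 : (2 : ℝ) ^ (nc * J) * ((2 * D + 5) * δ) ≤ (2 * D + 5) * 1 := by
      calc (2 : ℝ) ^ (nc * J) * ((2 * D + 5) * δ) = (2 * D + 5) * (2 ^ (nc * J) * δ) := by ring
        _ ≤ _ := mul_le_mul_of_nonneg_left hcn (by positivity)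
    have k2 : (2 : ℝ) ^ (nc * J) * (2 ^ (-(g * J)) * (1 / 2 ^ (s * J))) ≤ 2 ^ (ε * J) := by
      rw [one_div, ← Real.rpow_neg (by norm_num), ← Real.rpow_add (by norm_num),
        ← Real.rpow_add (by norm_num)]
      refine Real.rpow_le_rpow_of_exponent_le (by norm_num) ?_
      have : (nc - g - s) * J ≤ ε * J := mul_le_mul_of_nonneg_right (by linarith) hJ0
      linarith
    have k3 : (2 : ℝ) ^ (nc * J) * ((((D : ℝ) + 2) ^ 2 + 2) * δ * (1 / 2 ^ (s * J))) ≤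
        (((D : ℝ) + 2) ^ 2 + 2) * 1 := by
      have k4 : (1 : ℝ) / 2 ^ (s * J) ≤ 1 := by rw [div_le_one (by positivity)]; exact hs1
      calc (2 : ℝ) ^ (nc * J) * ((((D : ℝ) + 2) ^ 2 + 2) * δ * (1 / 2 ^ (s * J))) =
          (((D : ℝ) + 2) ^ 2 + 2) * ((2 ^ (nc * J) * δ) * (1 / 2 ^ (s * J))) := by ring
        _ ≤ (((D : ℝ) + 2) ^ 2 + 2) * (1 * 1) := by
            refine mul_le_mul_of_nonneg_left ?_ (by positivity)
            exact mul_le_mul hcn k4 (by positivity) zero_le_one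
        _ = _ := by ring
    have e2 : (2 : ℝ) ^ (nc * J) * ((2 * D + 5) * δ +
        (2 ^ (-(g * J)) + (((D : ℝ) + 2) ^ 2 + 2) * δ) * (1 / 2 ^ (s * J))) =
        2 ^ (nc * J) * ((2 * D + 5) * δ) + 2 ^ (nc * J) * (2 ^ (-(g * J)) * (1 / 2 ^ (s * J))) +
        2 ^ (nc * J) * ((((D : ℝ) + 2) ^ 2 + 2) * δ * (1 / 2 ^ (s * J))) := by ring
    rw [e2]
    linarith
  have h9 : |(2 : ℝ) ^ (nc * J) * (uPc F c D w n H ω).eval (tct F w s ω) -
      2 ^ (nc * J) * (uPc F c D w n H ω').eval (tct F w s ω')| ≤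
      (2 * D + 5) + (2 ^ (ε * J) + (((D : ℝ) + 2) ^ 2 + 2)) := by
    rw [← tct_of_T (w := w) (s := s) hT, ← mul_sub, ← Polynomial.eval_sub, ← hQ, abs_mul,
      abs_of_pos hc0]
    exact h8
  unfold plC
  have g1 := Int.floor_le ((2 : ℝ) ^ (nc * J) * (uPc F c D w n H ω).eval (tct F w s ω))
  have g2 := Int.lt_floor_add_one ((2 : ℝ) ^ (nc * J) * (uPc F c D w n H ω).eval (tct F w s ω))
  have g3 := Int.floor_le ((2 : ℝ) ^ (nc * J) * (uPc F c D w n H ω').eval (tct F w s ω'))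
  have g4 := Int.lt_floor_add_one ((2 : ℝ) ^ (nc * J) * (uPc F c D w n H ω').eval (tct F w s ω'))
  have h10 : (2 * D + 5) + (2 ^ (ε * J) + (((D : ℝ) + 2) ^ 2 + 2)) + 1 ≤
      2 ^ (ε * J) + 4 * ((D : ℝ) + 2) ^ 2 := by nlinarith
  refine le_trans ?_ h10
  rw [abs_le] at h9 ⊢
  constructor <;> linarith [h9.1, h9.2]

end

end Pool.NA13
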